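import Pool.Agent.Q26.PL.A
import Pool.Agent.Q26.PL.B
import Pool.Agent.Y816.PS.B

/-!
# Palindromes in arithmetic progressions: level of distribution and almost primes
-/

set_option autoImplicit false

namespace Pool.Agent.Q26.PL

open Finset Filter Topology Pool.Agent.Helper112 Pool.Agent.W89.PW Pool.Agent.W261.PWBV Pool.Agent.W139.PX
open Pool.Agent.Y816.PS (cnth cnth_bound)
open Pool.Agent.W89.Sv (rem)

/-- the free part of the palindrome -/
def sgs (b s t L : ℕ) (m : Fin L → Fin s × Fin t) : ℕ :=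
  ∑ c : Fin L, (((m c).1 : ℕ) + ((m c).2 : ℕ)) * fr b L c

lemma pv_sgs (b s t L : ℕ) (m : Fin L → Fin s × Fin t) :
    pv b s t L m = b ^ (2 * L + 2) + b ^ (L + 1) + 1 + sgs b s t L m := rfl

/-- residue classes of an affine image of the free part -/
lemma aff_cls {b s t L q : ℕ} (C w h : ℕ) (hq : q.Coprime (2 * b)) (hq0 : 0 < q) :
    ∃ r : ℕ, ∀ m : Fin L → Fin s × Fin t,
      (C + b ^ w * sgs b s t L m ≡ h [MOD q]) ↔ pv b s t L m ≡ r [MOD q] := by
  have : NeZero q := ⟨hq0.ne'⟩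
  have hB : (b ^ w).Coprime q := (Nat.Coprime.pow_right _ (Nat.Coprime.coprime_mul_left_right hq)).symm
  have hu := ZMod.coe_mul_inv_eq_one _ hB
  obtain ⟨u, hu'⟩ : ∃ u : ZMod q, u = (((b ^ w : ℕ) : ZMod q))⁻¹ := ⟨_, rfl⟩
  rw [← hu'] at hu
  obtain ⟨B, hBd⟩ : ∃ B : ZMod q, B = ((b ^ w : ℕ) : ZMod q) := ⟨_, rfl⟩
  rw [← hBd] at hu
  obtain ⟨C0, hC⟩ : ∃ C0 : ℕ, C0 = b ^ (2 * L + 2) + b ^ (L + 1) + 1 := ⟨_, rfl⟩
  refine ⟨((C0 : ZMod q) + ((h : ZMod q) - C) * u).val, fun m => ?_⟩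
  have hBd' : (b : ZMod q) ^ w = B := by rw [hBd]; push_cast; rfl
  rw [← ZMod.natCast_eq_natCast_iff, ← ZMod.natCast_eq_natCast_iff, ZMod.natCast_val, ZMod.cast_id, pv_sgs, ← hC]
  push_cast
  rw [hBd']
  constructor
  · intro h1
    have h2 : (sgs b s t L m : ZMod q) = ((h : ZMod q) - C) * u := by
      rw [← h1]
      calc (sgs b s t L m : ZMod q) = (B * u) * sgs b s t L m := by rw [hu, one_mul]
        _ = _ := by ring
    rw [h2]
  · intro h1
    have h2 : (sgs b s t L m : ZMod q) = ((h : ZMod q) - C) * u := add_left_cancel h1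
    rw [h2]
    calc (C : ZMod q) + B * (((h : ZMod q) - C) * u) = C + (h - C) * (B * u) := by ring
      _ = h := by rw [hu]; ring

/-- level of distribution, all residue classes -/
def BVH (b s t : ℕ) (κ : ℝ) : Prop := ∀ A : ℕ, ∀ᶠ L : ℕ in atTop, ∀ hh : ℕ → ℕ,
    ∑ q ∈ (Icc 1 ⌊(b : ℝ) ^ (κ * L)⌋₊).filter (fun q => q.Coprime (2 * b)),
      (q.divisors.card : ℝ) ^ 2 * |cnth b s t L q (hh q) - ((s : ℝ) * t) ^ L / q| ≤ ((s : ℝ) * t) ^ L / (L : ℝ) ^ A

/-- level of distribution, `b ≥ 2` -/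
theorem bvH {b s t : ℕ} (hb : 2 ≤ b) (hs : 1 ≤ s) (ht : 1 ≤ t) (hP : PtW b s t) {κ : ℝ} (hκ0 : 0 < κ)
    (hκ1 : κ < 1) (hB : BigW b s t κ) : BVH b s t κ := by
  intro A
  have hb0 : 0 < b := by omega
  have hbr : (0 : ℝ) < b := by exact_mod_cast hb0
  have hb1 : (1 : ℝ) ≤ b := by exact_mod_cast hb0
  filter_upwards [U_sum b s t (by omega) hP κ hκ0 hκ1 hB (A + 5),
    eventually_ge_atTop ((b + 1) ^ 4)] with L hL hLb
  intro hh
  set D := ⌊(b : ℝ) ^ (κ * L)⌋₊ with hD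
  have hLb' : ((b : ℝ) + 1) ^ 4 ≤ L := by exact_mod_cast hLb
  have hL1 : (1 : ℝ) ≤ L := by
    have : (1 : ℝ) ≤ ((b : ℝ) + 1) ^ 4 := one_le_pow₀ (by linarith)
    linarith
  have hL0 : (0 : ℝ) < L := by linarith
  have h1 : ∑ q ∈ (Icc 1 D).filter (fun q => q.Coprime (2 * b)),
      (q.divisors.card : ℝ) ^ 2 * |cnth b s t L q (hh q) - ((s : ℝ) * t) ^ L / q| ≤
      ∑ q ∈ (Icc 1 D).filter (fun q => q.Coprime (2 * b)),
      (q.divisors.card : ℝ) ^ 2 *
        (((s : ℝ) * t) ^ L / q * ∑ d ∈ q.divisors.filter (fun d => 1 < d), U b s t L d) := by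
    refine sum_le_sum fun q hq => ?_
    rw [mem_filter] at hq
    exact mul_le_mul_of_nonneg_left (cnth_bound hs ht b L q (hh q) hq.2) (by positivity)
  have h2 := h1.trans (double b s t L D)
  have h3 := Pool.Agent.H316R2.tau_sq_sum_le D
  have hlog : 1 + Real.log D ≤ (b + 1) * L := by
    rcases Nat.eq_zero_or_pos D with h0 | h0
    · rw [h0]
      simp only [Nat.cast_zero, Real.log_zero, add_zero]
      nlinarith
    · have hDle : (D : ℝ) ≤ (b : ℝ) ^ (κ * L) := Nat.floor_le (by positivity)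
      have hDle2 : (D : ℝ) ≤ (b : ℝ) ^ ((1 : ℝ) * L) := by
        refine hDle.trans (Real.rpow_le_rpow_of_exponent_le hb1 ?_)
        exact mul_le_mul_of_nonneg_right hκ1.le hL0.le
      have h4 : Real.log D ≤ (1 * L) * Real.log b := by
        rw [← Real.log_rpow hbr]
        exact Real.log_le_log (by exact_mod_cast h0) hDle2
      have h5 : Real.log b ≤ b - 1 := Real.log_le_sub_one_of_pos hbr
      have h6 : (1 * L) * Real.log b ≤ (1 * L) * ((b : ℝ) - 1) :=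
        mul_le_mul_of_nonneg_left h5 (by positivity)
      nlinarith [mul_pos hbr hL0]
  have hlog0 : 0 ≤ 1 + Real.log D := by
    have := Real.log_natCast_nonneg D
    linarith
  have h4 : ∑ e ∈ Icc 1 D, (e.divisors.card : ℝ) ^ 2 / e ≤ ((b : ℝ) + 1) ^ 4 * (L : ℝ) ^ 4 := by
    refine h3.trans ?_
    calc (1 + Real.log D) ^ 4 ≤ (((b : ℝ) + 1) * (L : ℝ)) ^ 4 := by gcongr
      _ = ((b : ℝ) + 1) ^ 4 * (L : ℝ) ^ 4 := by ring
  refine h2.trans ?_
  have hS0 : 0 ≤ ∑ e ∈ Icc 1 D, (e.divisors.card : ℝ) ^ 2 / e :=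
    sum_nonneg fun _ _ => by positivity
  calc ((s : ℝ) * t) ^ L * ((∑ d ∈ (Icc 2 D).filter (fun q => q.Coprime (2 * b)),
      (d.divisors.card : ℝ) ^ 2 * U b s t L d / d) *
        ∑ e ∈ Icc 1 D, (e.divisors.card : ℝ) ^ 2 / e)
      ≤ ((s : ℝ) * t) ^ L * ((1 / (L : ℝ) ^ (A + 5)) * (((b : ℝ) + 1) ^ 4 * (L : ℝ) ^ 4)) :=
        mul_le_mul_of_nonneg_left (mul_le_mul hL h4 hS0 (by positivity)) (by positivity)
    _ ≤ ((s : ℝ) * t) ^ L / (L : ℝ) ^ A := by
        generalize ((b : ℝ) + 1) ^ 4 = B at hLb'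
        have h5 : (1 / (L : ℝ) ^ (A + 5)) * (B * (L : ℝ) ^ 4) = B / L * (1 / (L : ℝ) ^ A) := by
          have hy : ((L : ℝ) ^ A) ≠ 0 := by positivity
          have hx : (L : ℝ) ≠ 0 := hL0.ne'
          rw [pow_add]
          generalize (L : ℝ) ^ A = y at hy
          generalize (L : ℝ) = x at hx
          field_simp
        rw [h5]
        have h6 : B / (L : ℝ) ≤ 1 := by rw [div_le_one hL0]; exact hLb'
        have h7 : (0 : ℝ) < 1 / (L : ℝ) ^ A := by positivity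
        calc ((s : ℝ) * t) ^ L * (B / L * (1 / (L : ℝ) ^ A))
            ≤ ((s : ℝ) * t) ^ L * (1 * (1 / (L : ℝ) ^ A)) := by gcongr
          _ = _ := by ring

/-- almost prime palindromes in a residue class, for an affine image of the free part -/
theorem prog {b s t r M : ℕ} (W : ℕ) (hb : 2 ≤ b) (hs : 1 ≤ s) (ht : 1 ≤ t) (hM0 : 0 < M)
    (hMc : M.Coprime (2 * b)) {κ κ' lam : ℝ} (hκ0 : 0 < κ') (hκκ : κ' < κ) (hκ1 : κ < 1)
    (hBV : BVH b s t κ) (hSq : SqH b s t κ) (hl0 : 0 < lam) (hl1 : lam ≤ 1)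
    (hlam : lam * (1174 / 1000) < 994 / 1000) (hr : 1 / lam + 88 / (43 * κ') < r + 1) :
    ∃ c : ℝ, 0 < c ∧ ∃ L0 : ℕ, ∀ L : ℕ, L0 ≤ L → ∀ C w a : ℕ, a.Coprime M →
      (∀ m : Fin L → Fin s × Fin t, 0 < C + b ^ w * sgs b s t L m ∧ C + b ^ w * sgs b s t L m < b ^ (2 * L + W) ∧
        (C + b ^ w * sgs b s t L m).Coprime (2 * b)) →
      ∃ G : Finset (Fin L → Fin s × Fin t), c * ((s : ℝ) * t) ^ L / L ≤ G.card ∧ ∀ m ∈ G,
        C + b ^ w * sgs b s t L m ≡ a [MOD M] ∧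
        (C + b ^ w * sgs b s t L m).primeFactorsList.length ≤ r ∧
        ∀ p ∈ (C + b ^ w * sgs b s t L m).primeFactorsList, (b : ℝ) ^ (κ' / 6 * L) < p := by
  classical
  have hb0 : 0 < b := by omega
  have hb1 : (1 : ℝ) < b := by exact_mod_cast (by omega : 1 < b)
  have hMR : (0 : ℝ) < M := by exact_mod_cast hM0
  obtain ⟨c, hc0, L1, hmain⟩ := almostV (b := b) (m := 2 * b * M) (r := r) W hb (by positivity)
    (Dvd.intro _ (mul_assoc 2 b M).symm) hκ0 (hκκ.trans hκ1) hl0 hl1 hlam hr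
  have e1 := hBV 4
  have e2 := hSq (κ' / 6) (by positivity) 4
  have e3 : ∀ᶠ L : ℕ in atTop, (M : ℝ) ≤ (b : ℝ) ^ ((κ - κ') * (L : ℝ)) := by
    have h1 : Tendsto (fun L : ℕ => (b : ℝ) ^ ((κ - κ') * (L : ℝ))) atTop atTop := by
      have h2 : Tendsto (fun L : ℕ => (κ - κ') * (L : ℝ)) atTop atTop :=
        (tendsto_natCast_atTop_atTop (R := ℝ)).const_mul_atTop (by linarith)
      exact (tendsto_rpow_atTop_of_base_gt_one (b : ℝ) hb1).comp h2
    exact h1.eventually_ge_atTop _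
  obtain ⟨L2, hL2⟩ := eventually_atTop.1 (e1.and (e2.and e3))
  refine ⟨c / M, by positivity, max (max L1 L2) (M + 1), fun L hL C w a ha hV => ?_⟩
  obtain ⟨f1, f2, f3⟩ := hL2 L ((le_max_right _ _).trans ((le_max_left _ _).trans hL))
  have hLM : M + 1 ≤ L := (le_max_right _ _).trans hL
  have hLMR : (M : ℝ) ≤ L := by exact_mod_cast (by omega : M ≤ L)
  have hLR : (0 : ℝ) < L := by linarith
  set V : (Fin L → Fin s × Fin t) → ℕ := fun m => C + b ^ w * sgs b s t L m with hVd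
  set X0 : ℝ := ((s : ℝ) * t) ^ L with hX0
  have hX0p : 0 ≤ X0 := by positivity
  set S : Finset (Fin L → Fin s × Fin t) := univ.filter (fun m => V m ≡ a [MOD M]) with hS
  have hstep : X0 / (L : ℝ) ^ 4 ≤ X0 / M / (L : ℝ) ^ 3 := by
    rw [div_div, pow_succ (L : ℝ) 3, mul_comm ((L : ℝ) ^ 3)]
    apply div_le_div_of_nonneg_left hX0p (by positivity)
    exact mul_le_mul_of_nonneg_right hLMR (by positivity)
  -- residue classes
  have hcls : ∀ Q : ℕ, Q.Coprime (2 * b) → 0 < Q → (Q / M).Coprime M → Q / M * M = Q →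
      ∃ r : ℕ, ∀ m, (Q / M ∣ V m ∧ V m ≡ a [MOD M]) ↔ pv b s t L m ≡ r [MOD Q] := by
    intro Q hQ hQ0 hQM hQQ
    obtain ⟨h, hh1, hh2⟩ := Nat.chineseRemainder hQM 0 a
    obtain ⟨r', hr'⟩ := aff_cls (s := s) (t := t) (L := L) C w h hQ hQ0
    refine ⟨r', fun m => ?_⟩
    rw [← hr' m]
    have hiff : (V m ≡ h [MOD Q / M] ∧ V m ≡ h [MOD M]) ↔ V m ≡ h [MOD Q / M * M] :=
      Nat.modEq_and_modEq_iff_modEq_mul hQM
    rw [hQQ] at hiff
    rw [← hiff]
    constructor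
    · rintro ⟨g1, g2⟩
      exact ⟨((Nat.modEq_zero_iff_dvd.2 g1).trans hh1.symm), g2.trans hh2.symm⟩
    · rintro ⟨g1, g2⟩
      exact ⟨Nat.modEq_zero_iff_dvd.1 (g1.trans hh1), g2.trans hh2⟩
  obtain ⟨hh, hhd⟩ : ∃ hh : ℕ → ℕ, ∀ Q : ℕ, Q.Coprime (2 * b) → 0 < Q → (Q / M).Coprime M → Q / M * M = Q →
      ∀ m, (Q / M ∣ V m ∧ V m ≡ a [MOD M]) ↔ pv b s t L m ≡ hh Q [MOD Q] := by
    refine ⟨fun Q => if h : Q.Coprime (2 * b) ∧ 0 < Q ∧ (Q / M).Coprime M ∧ Q / M * M = Q then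
      (hcls Q h.1 h.2.1 h.2.2.1 h.2.2.2).choose else 0, fun Q h1 h2 h3 h4 => ?_⟩
    simp only
    rw [dif_pos ⟨h1, h2, h3, h4⟩]
    exact (hcls Q h1 h2 h3 h4).choose_spec
  obtain ⟨gg, hgg⟩ : ∃ gg : ℕ → ℕ, ∀ p : ℕ, p.Coprime (2 * b) → 0 < p →
      ∀ m, p ^ 2 ∣ V m ↔ pv b s t L m ≡ gg p [MOD p ^ 2] := by
    have h0 : ∀ p : ℕ, p.Coprime (2 * b) → 0 < p → ∃ r : ℕ, ∀ m, p ^ 2 ∣ V m ↔ pv b s t L m ≡ r [MOD p ^ 2] := by
      intro p hp hp0
      obtain ⟨r', hr'⟩ := aff_cls (s := s) (t := t) (L := L) C w 0 (hp.pow_left 2) (by positivity : 0 < p ^ 2)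
      refine ⟨r', fun m => ?_⟩
      rw [← hr' m, Nat.modEq_zero_iff_dvd]
    refine ⟨fun p => if h : p.Coprime (2 * b) ∧ 0 < p then (h0 p h.1 h.2).choose else 0, fun p h1 h2 => ?_⟩
    simp only
    rw [dif_pos ⟨h1, h2⟩]
    exact (h0 p h1 h2).choose_spec
  obtain ⟨G, hGS, hGc, hG⟩ := hmain L ((le_max_left _ _).trans ((le_max_left _ _).trans hL))
    (Fin L → Fin s × Fin t) S V (X0 / M) (by positivity) (by
      intro m hm
      rw [hS, mem_filter] at hm
      obtain ⟨g1, g2, g3⟩ := hV m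
      refine ⟨g1, g2, Nat.Coprime.mul_right g3 ?_⟩
      have h4 := hm.2
      have h5 : Nat.gcd (V m) M = Nat.gcd a M := Nat.ModEq.gcd_eq h4
      change Nat.gcd (V m) M = 1
      rw [h5]
      exact ha) (by
      have hterm : ∀ q ∈ (Icc 1 ⌊(b : ℝ) ^ (κ' * L)⌋₊).filter (fun q => q.Coprime (2 * b * M)),
          (q.divisors.card : ℝ) ^ 2 * |rem S V (X0 / M) q| ≤
          ((q * M).divisors.card : ℝ) ^ 2 * |cnth b s t L (q * M) (hh (q * M)) - X0 / ((q * M : ℕ) : ℝ)| := by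
        intro q hq
        rw [mem_filter, mem_Icc] at hq
        obtain ⟨⟨hq1, hq2⟩, hq3⟩ := hq
        have hq0 : 0 < q := hq1
        have hqM : q.Coprime M := Nat.Coprime.coprime_mul_left_right hq3
        have hqb : q.Coprime (2 * b) := Nat.Coprime.coprime_mul_right_right hq3
        have hQb : (q * M).Coprime (2 * b) := Nat.Coprime.mul_left hqb hMc
        have hdiv : q * M / M = q := Nat.mul_div_cancel _ hM0
        have hcl := hhd (q * M) hQb (by positivity) (by rw [hdiv]; exact hqM) (by rw [hdiv])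
        rw [hdiv] at hcl
        have hrem : rem S V (X0 / M) q = cnth b s t L (q * M) (hh (q * M)) - X0 / ((q * M : ℕ) : ℝ) := by
          unfold rem cnth
          congr 1
          · congr 2
            rw [hS, filter_filter]
            apply filter_congr
            intro m _
            rw [← hcl m]
            exact and_comm
          · push_cast
            rw [div_div, mul_comm (M : ℝ)]
        rw [hrem]
        apply mul_le_mul_of_nonneg_right _ (abs_nonneg _)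
        have : q.divisors.card ≤ (q * M).divisors.card :=
          card_le_card (Nat.divisors_subset_of_dvd (by positivity) (dvd_mul_right q M))
        gcongr
      refine (sum_le_sum hterm).trans ?_
      have hinj : Set.InjOn (fun q => q * M)
          ((Icc 1 ⌊(b : ℝ) ^ (κ' * L)⌋₊).filter (fun q => q.Coprime (2 * b * M)) : Finset ℕ) := by
        intro x _ y _ hxy
        exact Nat.eq_of_mul_eq_mul_right hM0 hxy
      rw [← sum_image (f := fun Q : ℕ => ((Q).divisors.card : ℝ) ^ 2 *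
        |cnth b s t L Q (hh Q) - X0 / (Q : ℝ)|) hinj]
      refine le_trans (sum_le_sum_of_subset_of_nonneg ?_ fun _ _ _ => by positivity) ((f1 hh).trans hstep)
      intro Q hQ
      rw [mem_image] at hQ
      obtain ⟨q, hq, rfl⟩ := hQ
      rw [mem_filter, mem_Icc] at hq
      obtain ⟨⟨hq1, hq2⟩, hq3⟩ := hq
      rw [mem_filter, mem_Icc]
      refine ⟨⟨by nlinarith, ?_⟩, Nat.Coprime.mul_left (Nat.Coprime.coprime_mul_right_right hq3) hMc⟩
      apply Nat.le_floor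
      push_cast
      have h5 : (q : ℝ) ≤ (b : ℝ) ^ (κ' * L) := by
        have : (q : ℝ) ≤ ((⌊(b : ℝ) ^ (κ' * L)⌋₊ : ℕ) : ℝ) := by exact_mod_cast hq2
        exact this.trans (Nat.floor_le (by positivity))
      calc (q : ℝ) * M ≤ (b : ℝ) ^ (κ' * L) * (b : ℝ) ^ ((κ - κ') * (L : ℝ)) :=
            mul_le_mul h5 f3 hMR.le (by positivity)
        _ = (b : ℝ) ^ (κ * L) := by
            rw [← Real.rpow_add (by linarith)]
            congr 1
            ring) (by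
      refine ⟨(univ : Finset (Fin L → Fin s × Fin t)).filter (fun m => ∃ p : ℕ, p.Coprime (2 * b) ∧
        (b : ℝ) ^ (κ' / 6 * L) ≤ p ∧ (p : ℝ) ≤ (b : ℝ) ^ (κ * L) ∧ pv b s t L m ≡ gg p [MOD p ^ 2]), ?_, ?_⟩
      · rintro m _ ⟨p, hp1, hp2, hp3, hp4⟩
        rw [mem_filter]
        have hpb : p.Coprime (2 * b) := Nat.Coprime.coprime_mul_right_right hp1
        have hp0 : 0 < p := by
          rcases Nat.eq_zero_or_pos p with h | h
          · subst h
            have : (0 : ℝ) < (b : ℝ) ^ (κ' / 6 * L) := by positivity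
            rw [Nat.cast_zero] at hp2
            linarith
          · exact h
        refine ⟨mem_univ _, p, hpb, hp2, hp3.trans ?_, (hgg p hpb hp0 m).1 hp4⟩
        apply Real.rpow_le_rpow_of_exponent_le hb1.le
        exact mul_le_mul_of_nonneg_right hκκ.le hLR.le
      · refine le_trans (le_of_eq ?_) ((f2 gg).trans hstep)
        congr!)
  refine ⟨G, ?_, fun m hm => ?_⟩
  · refine le_trans (le_of_eq ?_) hGc
    ring
  · obtain ⟨g1, g2⟩ := hG m hm
    have := hGS hm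
    rw [hS, mem_filter] at this
    exact ⟨this.2, g1, g2⟩

end Pool.Agent.Q26.PL
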