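import Pool.Agent.Q26.PL.C

/-!
# Palindromes with prescribed last digits and middle digit 1
-/

set_option autoImplicit false

namespace Pool.Agent.Q26.PL

open Finset Filter Topology Pool.Agent.W89.PW Pool.Agent.W139.PX
open Pool.Agent.Y816.PS (pal pal_eq pal_reverse sum_lt sum_dig)

/-- digits: `1` in the middle, the free digits `m`, and then the digits of `A`, read from the end -/
def aw (b s t N L A : ℕ) (m : Fin L → Fin s × Fin t) (j : ℕ) : ℕ :=
  if j = 0 then 1 else if h : j - 1 < L then ((m ⟨j - 1, h⟩).1 : ℕ) + ((m ⟨j - 1, h⟩).2 : ℕ)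
    else A / b ^ (N - j) % b

lemma aw_lt {b s t : ℕ} (hb : 2 ≤ b) (hst : s + t = b + 1) (N L A : ℕ) (m : Fin L → Fin s × Fin t) (j : ℕ) :
    aw b s t N L A m j < b := by
  unfold aw
  split_ifs with h1 h2
  · omega
  · have h3 := (m ⟨j - 1, h2⟩).1.isLt
    have h4 := (m ⟨j - 1, h2⟩).2.isLt
    omega
  · exact Nat.mod_lt _ (by omega)

lemma aw_out {b s t N L A : ℕ} (m : Fin L → Fin s × Fin t) {j : ℕ} (hj : L < j) :
    aw b s t N L A m j = A / b ^ (N - j) % b := by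
  unfold aw
  rw [if_neg (by omega), dif_neg (by omega)]

/-- the palindrome -/
def PA (b s t N L A : ℕ) (m : Fin L → Fin s × Fin t) : ℕ := pal b N (aw b s t N L A m)

/-- the fixed part -/
def CA (b N L A : ℕ) : ℕ := b ^ N + ∑ c ∈ Ico L N, (A / b ^ (N - (c + 1)) % b) * (b ^ (N + c + 1) + b ^ (N - 1 - c))

lemma PA_eq {b s t N L : ℕ} (A : ℕ) (h : L + 1 ≤ N) (m : Fin L → Fin s × Fin t) :
    PA b s t N L A m = CA b N L A + b ^ (N - L - 1) * sgs b s t L m := by
  unfold PA CA sgs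
  rw [pal_eq, ← sum_range_add_sum_Ico _ (show L ≤ N by omega)]
  have h1 : aw b s t N L A m 0 = 1 := by simp [aw]
  have h2 : ∑ c ∈ range L, aw b s t N L A m (c + 1) * (b ^ (N + c + 1) + b ^ (N - 1 - c)) =
      b ^ (N - L - 1) * ∑ c : Fin L, (((m c).1 : ℕ) + ((m c).2 : ℕ)) * fr b L c := by
    rw [Finset.sum_range, mul_sum]
    refine sum_congr rfl fun c _ => ?_
    have h3 : aw b s t N L A m ((c : ℕ) + 1) = ((m c).1 : ℕ) + ((m c).2 : ℕ) := by
      unfold aw
      rw [if_neg (by omega), dif_pos (by simp)]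
      rfl
    have hc := c.isLt
    rw [h3]
    unfold fr
    have h4 : b ^ (N + (c : ℕ) + 1) = b ^ (N - L - 1) * b ^ (L + (c : ℕ) + 2) := by
      rw [← pow_add]
      congr 1
      omega
    have h5 : b ^ (N - 1 - (c : ℕ)) = b ^ (N - L - 1) * b ^ (L - (c : ℕ)) := by
      rw [← pow_add]
      congr 1
      omega
    rw [h4, h5]
    ring
  have h3 : ∀ c ∈ Ico L N, aw b s t N L A m (c + 1) * (b ^ (N + c + 1) + b ^ (N - 1 - c)) =
      (A / b ^ (N - (c + 1)) % b) * (b ^ (N + c + 1) + b ^ (N - 1 - c)) := by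
    intro c hc
    rw [mem_Ico] at hc
    rw [aw_out m (by omega)]
  rw [h1, h2, sum_congr rfl h3]
  ring

lemma PA_lt {b s t : ℕ} (hb : 2 ≤ b) (hst : s + t = b + 1) (N L A : ℕ) (m : Fin L → Fin s × Fin t) :
    PA b s t N L A m < b ^ (2 * N + 1) := by
  unfold PA pal
  exact sum_lt (fun i => aw_lt hb hst _ _ _ _ _) _

/-- the last digits -/
lemma PA_mod {b s t N L e A : ℕ} (hN : N = L + e) (hA : A < b ^ e) (m : Fin L → Fin s × Fin t) :
    PA b s t N L A m ≡ A [MOD b ^ e] := by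
  unfold PA pal
  rw [show 2 * N + 1 = e + (2 * N + 1 - e) by omega, sum_range_add]
  have h1 : ∀ i ∈ range e, aw b s t N L A m (N - i + (i - N)) * b ^ i = (A / b ^ i % b) * b ^ i := by
    intro i hi
    rw [mem_range] at hi
    rw [aw_out m (by omega)]
    congr 3
    congr 1
    omega
  rw [sum_congr rfl h1, sum_dig, Nat.mod_eq_of_lt hA]
  have h2 : b ^ e ∣ ∑ x ∈ range (2 * N + 1 - e), aw b s t N L A m (N - (e + x) + (e + x - N)) * b ^ (e + x) :=
    dvd_sum fun x _ => Dvd.dvd.mul_left (pow_dvd_pow b (by omega)) _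
  calc A + ∑ x ∈ range (2 * N + 1 - e), aw b s t N L A m (N - (e + x) + (e + x - N)) * b ^ (e + x)
      ≡ A + 0 [MOD b ^ e] := Nat.ModEq.add_left A (Nat.modEq_zero_iff_dvd.2 h2)
    _ = A := add_zero A

lemma PA_top {b s t N L e A : ℕ} (hb : 2 ≤ b) (he : 1 ≤ e) (hN : N = L + e) (hAc : A.Coprime b)
    (m : Fin L → Fin s × Fin t) : aw b s t N L A m N ≠ 0 := by
  rw [aw_out m (by omega), Nat.sub_self, pow_zero, Nat.div_one]
  intro h
  have h1 : b ∣ A := Nat.dvd_of_mod_eq_zero h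
  have h2 := Nat.Coprime.eq_one_of_dvd hAc.symm h1
  omega

lemma PA_pal {b s t N L e A : ℕ} (hb : 2 ≤ b) (hst : s + t = b + 1) (he : 1 ≤ e) (hN : N = L + e)
    (hAc : A.Coprime b) (m : Fin L → Fin s × Fin t) :
    (Nat.digits b (PA b s t N L A m)).reverse = Nat.digits b (PA b s t N L A m) :=
  pal_reverse hb (fun i => aw_lt hb hst _ _ _ _ _) (PA_top hb he hN hAc m)

lemma PA_ge {b s t N L e A : ℕ} (hb : 2 ≤ b) (he : 1 ≤ e) (hN : N = L + e)
    (hAc : A.Coprime b) (m : Fin L → Fin s × Fin t) : b ^ (2 * N) ≤ PA b s t N L A m := by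
  have h0 := PA_top hb he hN hAc m
  unfold PA pal
  rw [sum_range_succ]
  have h1 : N - 2 * N + (2 * N - N) = N := by omega
  rw [h1]
  have h2 : b ^ (2 * N) ≤ aw b s t N L A m N * b ^ (2 * N) := Nat.le_mul_of_pos_left _ (Nat.pos_of_ne_zero h0)
  omega

lemma PA_cop {b s t N L e A : ℕ} (hb : 2 ≤ b) (he : 1 ≤ e) (hN : N = L + e) (hA : A < b ^ e)
    (hAc : A.Coprime b) (m : Fin L → Fin s × Fin t) : (PA b s t N L A m).Coprime (2 * b) := by
  have hcb : (PA b s t N L A m).Coprime b := by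
    have h1 : Nat.gcd (PA b s t N L A m) (b ^ e) = Nat.gcd A (b ^ e) := Nat.ModEq.gcd_eq (PA_mod hN hA m)
    have h2 : (PA b s t N L A m).Coprime (b ^ e) := by
      change Nat.gcd _ _ = 1
      rw [h1]
      exact hAc.pow_right e
    exact Nat.Coprime.coprime_dvd_right (dvd_pow_self b (by omega)) h2
  refine Nat.Coprime.mul_right ?_ hcb
  rcases Nat.even_or_odd b with hev | ho
  · exact Nat.Coprime.coprime_dvd_right hev.two_dvd hcb
  · have h1 : Odd (PA b s t N L A m) := by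
      unfold PA
      rw [pal_eq]
      apply Odd.add_even
      · have : aw b s t N L A m 0 = 1 := by simp [aw]
        rw [this, one_mul]
        exact ho.pow
      · apply Finset.even_sum
        intro c _
        exact Even.mul_left (ho.pow.add_odd ho.pow) _
    exact Nat.Coprime.symm (Nat.coprime_two_left.2 h1)

lemma PA_inj {b N L A : ℕ} (hb : 2 ≤ b) (hN : L + 1 ≤ N) : Function.Injective (PA b b 1 N L A) := by
  intro m m' hm
  rw [PA_eq A hN, PA_eq A hN] at hm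
  have h6 : sgs b b 1 L m = sgs b b 1 L m' :=
    Nat.eq_of_mul_eq_mul_left (by positivity) (Nat.add_left_cancel hm)
  apply pv_inj_unif hb
  rw [pv_sgs, pv_sgs, h6]

/-- splitting off the part of a modulus composed of the primes of `b` -/
lemma split_mod (b : ℕ) (hb : 1 ≤ b) : ∀ n : ℕ, 0 < n → ∃ u v e : ℕ, n = u * v ∧ u ∣ b ^ e ∧ v.Coprime b := by
  intro n
  induction n using Nat.strong_induction_on with
  | _ n ih =>
    intro hn
    by_cases hg : n.Coprime b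
    · exact ⟨1, n, 0, by simp, by simp, hg⟩
    · obtain ⟨g, hgd⟩ : ∃ g, g = Nat.gcd n b := ⟨_, rfl⟩
      have hg1 : 1 < g := by
        have h0 : 0 < g := by rw [hgd]; exact Nat.gcd_pos_of_pos_left b hn
        have h1 : g ≠ 1 := by rw [hgd]; exact hg
        omega
      obtain ⟨k, hk⟩ : g ∣ n := by rw [hgd]; exact Nat.gcd_dvd_left n b
      have hk0 : 0 < k := by
        rcases Nat.eq_zero_or_pos k with h | h
        · subst h; omega
        · exact h
      obtain ⟨u, v, e, h1, h2, h3⟩ := ih k (by rw [hk]; nlinarith) hk0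
      refine ⟨g * u, v, e + 1, by rw [hk, h1]; ring, ?_, h3⟩
      rw [pow_succ, mul_comm (b ^ e)]
      exact Nat.mul_dvd_mul (by rw [hgd]; exact Nat.gcd_dvd_right n b) h2

/-- lifting a reduced class to a reduced class modulo a power of `b` -/
lemma lift_cls {b u e a : ℕ} (hb : 2 ≤ b) (hu : u ∣ b ^ e) (ha : a.Coprime u) :
    ∃ A : ℕ, A < b ^ e ∧ A.Coprime (b ^ e) ∧ A ≡ a [MOD u] := by
  have hbe : 0 < b ^ e := by positivity
  have : NeZero (b ^ e) := ⟨hbe.ne'⟩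
  have hu0 : 0 < u := Nat.pos_of_dvd_of_pos hu hbe
  have : NeZero u := ⟨hu0.ne'⟩
  obtain ⟨x, hx⟩ := ZMod.unitsMap_surjective hu (ZMod.unitOfCoprime a ha)
  refine ⟨(x : ZMod (b ^ e)).val, ZMod.val_lt _, ZMod.val_coe_unit_coprime x, ?_⟩
  rw [← ZMod.natCast_eq_natCast_iff]
  have h1 := congrArg (fun y : (ZMod u)ˣ => (y : ZMod u)) hx
  simp only [ZMod.unitsMap_val, ZMod.coe_unitOfCoprime] at h1
  rw [← h1, ZMod.natCast_val]

/-- the last digits take care of the primes of `2 b` -/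
lemma last_digits {b U a e0 : ℕ} (hb : 2 ≤ b) (hU : U ∣ (2 * b) ^ e0) (ha : a.Coprime U)
    (h4 : 2 ∣ b ∨ ¬ 4 ∣ U) : ∃ A e : ℕ, 1 ≤ e ∧ A < b ^ e ∧ A.Coprime b ∧
      ∀ n : ℕ, n ≡ A [MOD b ^ e] → n.Coprime 2 → n ≡ a [MOD U] := by
  -- the general step
  have key : ∀ u e : ℕ, u ∣ b ^ e → a.Coprime u → ∃ A e' : ℕ, 1 ≤ e' ∧ A < b ^ e' ∧ A.Coprime b ∧
      ∀ n : ℕ, n ≡ A [MOD b ^ e'] → n ≡ a [MOD u] := by
    intro u e hu hau
    have hu' : u ∣ b ^ (e + 1) := hu.trans (pow_dvd_pow b (by omega))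
    obtain ⟨A, h1, h2, h3⟩ := lift_cls hb hu' hau
    exact ⟨A, e + 1, by omega, h1, Nat.Coprime.coprime_dvd_right (dvd_pow_self b (by omega)) h2,
      fun n hn => (hn.of_dvd hu').trans h3⟩
  by_cases hb2 : 2 ∣ b
  · have h1 : U ∣ b ^ (2 * e0) := by
      refine hU.trans ?_
      rw [mul_comm 2 e0, pow_mul', sq, mul_pow]
      rw [← mul_pow]
      apply pow_dvd_pow_of_dvd
      exact Nat.mul_dvd_mul hb2 dvd_rfl
    obtain ⟨A, e, h2, h3, h5, h6⟩ := key U _ h1 ha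
    exact ⟨A, e, h2, h3, h5, fun n hn _ => h6 n hn⟩
  · have h4' : ¬ 4 ∣ U := by
      rcases h4 with h | h
      · exact absurd h hb2
      · exact h
    have hodd : ∀ u : ℕ, u ∣ U → ¬ 2 ∣ u → u ∣ b ^ e0 := by
      intro u hu h2
      have h1 : u ∣ (2 * b) ^ e0 := hu.trans hU
      rw [mul_pow] at h1
      have h3 : u.Coprime (2 ^ e0) := by
        apply Nat.Coprime.pow_right
        rw [Nat.coprime_comm, Nat.Prime.coprime_iff_not_dvd Nat.prime_two]
        exact h2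
      exact Nat.Coprime.dvd_of_dvd_mul_left h3 h1
    by_cases hU2 : 2 ∣ U
    · obtain ⟨u, hu⟩ := hU2
      have hu2 : ¬ 2 ∣ u := by
        rintro ⟨k, hk⟩
        exact h4' ⟨k, by rw [hu, hk]; ring⟩
      have hau : a.Coprime u := Nat.Coprime.coprime_dvd_right ⟨2, by rw [hu]; ring⟩ ha
      have ha2 : a.Coprime 2 := Nat.Coprime.coprime_dvd_right ⟨u, hu⟩ ha
      obtain ⟨A, e, h2, h3, h5, h6⟩ := key u e0 (hodd u ⟨2, by rw [hu]; ring⟩ hu2) hau
      refine ⟨A, e, h2, h3, h5, fun n hn hn2 => ?_⟩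
      have h7 : n ≡ a [MOD 2] := by
        have h8 : n % 2 = 1 := Nat.odd_iff.1 (Nat.coprime_two_right.1 hn2)
        have h9 : a % 2 = 1 := Nat.odd_iff.1 (Nat.coprime_two_right.1 ha2)
        change n % 2 = a % 2
        rw [h8, h9]
      have hc2 : (2 : ℕ).Coprime u := (Nat.Prime.coprime_iff_not_dvd Nat.prime_two).2 hu2
      rw [hu]
      exact (Nat.modEq_and_modEq_iff_modEq_mul hc2).1 ⟨h7, h6 n hn⟩
    · obtain ⟨A, e, h2, h3, h5, h6⟩ := key U e0 (hodd U dvd_rfl hU2) ha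
      exact ⟨A, e, h2, h3, h5, fun n hn _ => h6 n hn⟩

end Pool.Agent.Q26.PL
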