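import Pool.Agent.Q26.PL.D
import Pool.Agent.W139.PX.F4
import Pool.Agent.W139.PX.G1

/-!
# Palindromes with few prime factors in arithmetic progressions, the right order of magnitude
-/

set_option autoImplicit false

namespace Pool.Agent.Q26.PL

open Finset Filter Topology Pool.Agent.W89.PW Pool.Agent.W139.PX

open Classical in
/-- the right order of magnitude in a residue class, uniform digits -/
theorem unifAP {b r : ℕ} (hb : 2 ≤ b) {H CM κ κ' lam η : ℝ} (hMaj : MajP b b 1 H CM) (hH0 : 0 < H)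
    (hHb : 1 ≤ b * H) (hCM : 0 < CM) (hm4 : (b : ℝ) * m4 b 1 < 1) (hκ0 : 0 < κ') (hκκ : κ' < κ)
    (hκH : (b : ℝ) ^ κ * H < 1) (hl0 : 0 < lam) (hl1 : lam ≤ 1)
    (hlam : lam * (1174 / 1000) < 994 / 1000) (hr : 1 / lam + 88 / (43 * κ') < r + 1) (hη : η < κ' / 6)
    {M a : ℕ} (hM : 0 < M) (ha : a.Coprime M) (h4 : 2 ∣ b ∨ ¬ 4 ∣ M) :
    ∃ c : ℝ, 0 < c ∧ ∀ᶠ N : ℕ in atTop, c * (b : ℝ) ^ N / N ≤ (((range (b ^ (2 * N + 1))).filter (fun n =>
      b ^ (2 * N) ≤ n ∧
      (Nat.digits b n).reverse = Nat.digits b n ∧ n ≡ a [MOD M] ∧ n.primeFactorsList.length ≤ r ∧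
      ∀ p ∈ n.primeFactorsList, (b : ℝ) ^ (η * N) < p)).card : ℝ) := by
  have hb1 : (1 : ℝ) < b := by exact_mod_cast (by omega : 1 < b)
  have hb0 : (0 : ℝ) < b := by linarith
  have hκ1 : κ < 1 := by
    by_contra hcon
    push Not at hcon
    have h1 : (b : ℝ) ≤ (b : ℝ) ^ κ := by
      calc (b : ℝ) = (b : ℝ) ^ (1 : ℝ) := (Real.rpow_one _).symm
        _ ≤ _ := Real.rpow_le_rpow_of_exponent_le hb1.le hcon
    have h2 : (b : ℝ) * H ≤ (b : ℝ) ^ κ * H := mul_le_mul_of_nonneg_right h1 hH0.le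
    linarith
  have hκp : 0 < κ := hκ0.trans hκκ
  have hPt : PtW b b 1 := Pool.Agent.W571.PW.Pt.main b b 1 hb hb le_rfl rfl
  have hBig : BigW b b 1 κ := bigW_of_majP hb (by omega) le_rfl rfl hm4 hMaj hH0 hHb hCM hκp hκH
  have hBV : BVH b b 1 κ := bvH hb (by omega) le_rfl hPt hκp hκ1 hBig
  have hSq : SqH b b 1 κ := sqH_of_majP hMaj hH0 hHb hCM hb (by omega) le_rfl rfl hm4 hκp hκH
  -- the modulus
  obtain ⟨u, v, e0, hM', hu, hv⟩ := split_mod (2 * b) (by omega) M hM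
  have hv0 : 0 < v := by
    rcases Nat.eq_zero_or_pos v with h | h
    · subst h; simp at hM'; omega
    · exact h
  have hau : a.Coprime u := Nat.Coprime.coprime_dvd_right ⟨v, hM'⟩ ha
  have hav : a.Coprime v := Nat.Coprime.coprime_dvd_right ⟨u, by rw [hM', mul_comm]⟩ ha
  have huv : u.Coprime v := by
    have h1 : v.Coprime ((2 * b) ^ e0) := hv.pow_right e0
    exact (Nat.Coprime.coprime_dvd_right hu h1).symm
  obtain ⟨A, e, he1, hAlt, hAc, hAcl⟩ := last_digits hb hu hau (h4.imp id fun h h' =>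
    h (h'.trans ⟨v, hM'⟩))
  obtain ⟨c, hc0, L0, hmain⟩ := prog (s := b) (t := 1) (r := r) (M := v) (2 * e + 1) hb (by omega) le_rfl hv0 hv
    hκ0 hκκ hκ1 hBV hSq hl0 hl1 hlam hr
  refine ⟨c / b ^ e, by positivity, ?_⟩
  have h2 : ∀ᶠ L : ℕ in atTop, η * e ≤ (κ' / 6 - η) * (L : ℝ) :=
    ((tendsto_natCast_atTop_atTop (R := ℝ)).const_mul_atTop (by linarith)).eventually_ge_atTop _
  obtain ⟨L1, hL1⟩ := eventually_atTop.1 h2
  rw [eventually_atTop]
  refine ⟨max (max L0 L1) 1 + e, fun N hN => ?_⟩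
  obtain ⟨L, hNL⟩ : ∃ L, N = L + e := ⟨N - e, by omega⟩
  have hLm : max (max L0 L1) 1 ≤ L := by omega
  have hLL0 : L0 ≤ L := (le_max_left _ _).trans ((le_max_left _ _).trans hLm)
  have hLL1 : L1 ≤ L := (le_max_right _ _).trans ((le_max_left _ _).trans hLm)
  have hL1' : 1 ≤ L := (le_max_right _ _).trans hLm
  have hL0R : (0 : ℝ) < L := by exact_mod_cast hL1'
  have hN1 : L + 1 ≤ N := by omega
  have h6 := hL1 L hLL1
  have hPAe : ∀ m : Fin L → Fin b × Fin 1, CA b N L A + b ^ (N - L - 1) * sgs b b 1 L m = PA b b 1 N L A m :=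
    fun m => (PA_eq A hN1 m).symm
  obtain ⟨G, hG1, hG2⟩ := hmain L hLL0 (CA b N L A) (N - L - 1) a hav (by
    intro m
    rw [hPAe]
    refine ⟨?_, ?_, PA_cop hb he1 hNL hAlt hAc m⟩
    · exact lt_of_lt_of_le (by positivity) (PA_ge hb he1 hNL hAc m)
    · have := PA_lt hb rfl N L A m
      rwa [show 2 * L + (2 * e + 1) = 2 * N + 1 by omega])
  have hcard : (G.image (PA b b 1 N L A)).card = G.card := card_image_of_injective _ (PA_inj hb hN1)
  have hsub : G.image (PA b b 1 N L A) ⊆ (range (b ^ (2 * N + 1))).filter (fun n =>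
      b ^ (2 * N) ≤ n ∧
      (Nat.digits b n).reverse = Nat.digits b n ∧ n ≡ a [MOD M] ∧ n.primeFactorsList.length ≤ r ∧
      ∀ p ∈ n.primeFactorsList, (b : ℝ) ^ (η * N) < p) := by
    intro n hn
    rw [mem_image] at hn
    obtain ⟨m, hm, rfl⟩ := hn
    have h9 := hG2 m hm
    rw [hPAe] at h9
    obtain ⟨g1, g2, g3⟩ := h9
    rw [mem_filter, mem_range]
    refine ⟨PA_lt hb rfl N L A m, PA_ge hb he1 hNL hAc m, PA_pal hb rfl he1 hNL hAc m, ?_, g2,
      fun p hp => lt_of_le_of_lt ?_ (g3 p hp)⟩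
    · rw [hM']
      refine (Nat.modEq_and_modEq_iff_modEq_mul huv).1 ⟨?_, g1⟩
      exact hAcl _ (PA_mod hNL hAlt m)
        (Nat.Coprime.coprime_dvd_right (dvd_mul_right 2 b) (PA_cop hb he1 hNL hAlt hAc m))
    · apply Real.rpow_le_rpow_of_exponent_le hb1.le
      rw [hNL]
      push_cast
      linarith
  have h8 : (G.card : ℝ) ≤ (((range (b ^ (2 * N + 1))).filter (fun n =>
      b ^ (2 * N) ≤ n ∧
      (Nat.digits b n).reverse = Nat.digits b n ∧ n ≡ a [MOD M] ∧ n.primeFactorsList.length ≤ r ∧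
      ∀ p ∈ n.primeFactorsList, (b : ℝ) ^ (η * N) < p)).card : ℝ) := by
    rw [← hcard]
    exact_mod_cast card_le_card hsub
  refine le_trans ?_ (hG1.trans h8)
  rw [Nat.cast_one, mul_one]
  have e1 : c / b ^ e * (b : ℝ) ^ N = c * (b : ℝ) ^ L := by
    rw [hNL, pow_add]; field_simp
  rw [e1]
  apply div_le_div_of_nonneg_left (by positivity) hL0R
  rw [hNL]
  push_cast
  linarith [(Nat.cast_nonneg e : (0 : ℝ) ≤ e)]

open Classical in
/-- transfer to all `x` -/
theorem to_xP {b r : ℕ} (hb : 2 ≤ b) (P : ℕ → Prop) {c : ℝ} (hc : 0 < c)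
    (h : ∀ᶠ N : ℕ in atTop, c * (b : ℝ) ^ N / N ≤
    (((range (b ^ (2 * N + 1))).filter (fun n => b ^ (2 * N) ≤ n ∧
      (Nat.digits b n).reverse = Nat.digits b n ∧ P n ∧
      n.primeFactorsList.length ≤ r ∧
      ∀ p ∈ n.primeFactorsList, (b : ℝ) ^ ((1 / 13) * (N : ℝ)) < p)).card : ℝ)) :
    ∃ c' : ℝ, 0 < c' ∧ ∀ᶠ x : ℕ in atTop,
      c' * (((Icc 1 x).filter (fun n => (Nat.digits b n).reverse = Nat.digits b n)).card : ℝ) / Real.log x ≤
      (((Icc 1 x).filter (fun n => (Nat.digits b n).reverse = Nat.digits b n ∧ P n ∧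
        n.primeFactorsList.length ≤ r ∧ ∀ p ∈ n.primeFactorsList, (x : ℝ) ^ (1 / 30 : ℝ) < p)).card : ℝ) := by
  have hb1 : (1 : ℝ) < b := by exact_mod_cast (by omega : 1 < b)
  have hb0 : (0 : ℝ) < b := by linarith
  have hlb : 0 < Real.log b := Real.log_pos hb1
  rw [eventually_atTop] at h
  obtain ⟨N0, hN0⟩ := h
  refine ⟨c * Real.log b / (4 * b ^ 2), by positivity, ?_⟩
  filter_upwards [eventually_ge_atTop (b ^ (2 * (N0 + 10) + 3))] with x hx
  set N := (Nat.log b x - 1) / 2 with hN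
  have hx0 : x ≠ 0 := by
    have : 0 < b ^ (2 * (N0 + 10) + 3) := by positivity
    omega
  have hlog : 2 * (N0 + 10) + 3 ≤ Nat.log b x := Nat.le_log_of_pow_le (by omega) hx
  have hNN : N0 + 10 ≤ N := by omega
  have h1 : b ^ (2 * N + 1) ≤ x :=
    (Nat.pow_le_pow_right (by omega) (by omega : 2 * N + 1 ≤ Nat.log b x)).trans (Nat.pow_log_le_self b hx0)
  have h2 : x < b ^ (2 * N + 3) :=
    (Nat.lt_pow_succ_log_self (by omega) x).trans_le (Nat.pow_le_pow_right (by omega) (by omega))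
  have h3 := hN0 N (by omega)
  have hNR : (10 : ℝ) ≤ N := by exact_mod_cast (by omega : 10 ≤ N)
  have hN0' : (0 : ℝ) < N := by linarith
  have h4 : (((range (b ^ (2 * N + 1))).filter (fun n => b ^ (2 * N) ≤ n ∧
      (Nat.digits b n).reverse = Nat.digits b n ∧ P n ∧
      n.primeFactorsList.length ≤ r ∧
      ∀ p ∈ n.primeFactorsList, (b : ℝ) ^ ((1 / 13) * (N : ℝ)) < p)).card : ℝ) ≤
      (((Icc 1 x).filter (fun n => (Nat.digits b n).reverse = Nat.digits b n ∧ P n ∧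
        n.primeFactorsList.length ≤ r ∧ ∀ p ∈ n.primeFactorsList, (x : ℝ) ^ (1 / 30 : ℝ) < p)).card : ℝ) := by
    have : ((range (b ^ (2 * N + 1))).filter (fun n => b ^ (2 * N) ≤ n ∧
      (Nat.digits b n).reverse = Nat.digits b n ∧ P n ∧
      n.primeFactorsList.length ≤ r ∧
      ∀ p ∈ n.primeFactorsList, (b : ℝ) ^ ((1 / 13) * (N : ℝ)) < p)) ⊆
      ((Icc 1 x).filter (fun n => (Nat.digits b n).reverse = Nat.digits b n ∧ P n ∧
        n.primeFactorsList.length ≤ r ∧ ∀ p ∈ n.primeFactorsList, (x : ℝ) ^ (1 / 30 : ℝ) < p)) := by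
      intro n hn
      rw [mem_filter, mem_range] at hn
      obtain ⟨g1, g2, g3, gP, g4, g5⟩ := hn
      rw [mem_filter, mem_Icc]
      refine ⟨⟨?_, by omega⟩, g3, gP, g4, ?_⟩
      · have : 0 < b ^ (2 * N) := by positivity
        omega
      · intro p hp
        refine lt_of_le_of_lt ?_ (g5 p hp)
        have e1 : (x : ℝ) ≤ (b : ℝ) ^ (2 * (N : ℝ) + 3) := by
          have e2 : (x : ℝ) ≤ (b : ℝ) ^ (2 * N + 3) := by exact_mod_cast h2.le
          have e3 : (b : ℝ) ^ (2 * (N : ℝ) + 3) = (b : ℝ) ^ (2 * N + 3) := by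
            rw [← Real.rpow_natCast]
            push_cast
            rfl
          rw [e3]
          exact e2
        calc (x : ℝ) ^ (1 / 30 : ℝ) ≤ ((b : ℝ) ^ (2 * (N : ℝ) + 3)) ^ (1 / 30 : ℝ) :=
              Real.rpow_le_rpow (Nat.cast_nonneg _) e1 (by norm_num)
          _ = (b : ℝ) ^ ((2 * (N : ℝ) + 3) * (1 / 30)) := by rw [← Real.rpow_mul hb0.le]
          _ ≤ (b : ℝ) ^ ((1 / 13) * (N : ℝ)) := by
              apply Real.rpow_le_rpow_of_exponent_le hb1.le
              linarith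
    exact_mod_cast card_le_card this
  refine le_trans ?_ (h3.trans h4)
  have h5 : (((Icc 1 x).filter (fun n => (Nat.digits b n).reverse = Nat.digits b n)).card : ℝ) ≤
      4 * (b : ℝ) ^ (N + 2) := by
    exact_mod_cast card_pal_le hb N x h2
  have h6 : (N : ℝ) * Real.log b ≤ Real.log x := by
    have e1 : ((b : ℝ)) ^ N ≤ x := by
      have : b ^ N ≤ b ^ (2 * N + 1) := Nat.pow_le_pow_right (by omega) (by omega)
      exact_mod_cast this.trans h1
    have e2 := Real.log_le_log (by positivity) e1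
    rwa [Real.log_pow] at e2
  have h7 : 0 < (N : ℝ) * Real.log b := by positivity
  have hlx : 0 < Real.log x := by linarith
  rw [div_le_div_iff₀ hlx hN0']
  calc c * Real.log b / (4 * b ^ 2) *
        (((Icc 1 x).filter (fun n => (Nat.digits b n).reverse = Nat.digits b n)).card : ℝ) * N
      ≤ c * Real.log b / (4 * b ^ 2) * (4 * (b : ℝ) ^ (N + 2)) * N := by gcongr
    _ = c * (b : ℝ) ^ N * (N * Real.log b) := by
        rw [pow_add]
        field_simp
    _ ≤ c * (b : ℝ) ^ N * Real.log x := mul_le_mul_of_nonneg_left h6 (by positivity)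

open Classical in
/-- the right order of magnitude in every residue class -/
theorem finAP {b : ℕ} (hb : 2 ≤ b) {M a : ℕ} (hM : 0 < M) (ha : a.Coprime M) (h4 : 2 ∣ b ∨ ¬ 4 ∣ M) :
    ∃ c : ℝ, 0 < c ∧ ∀ᶠ N : ℕ in atTop, c * (b : ℝ) ^ N / N ≤
    (((range (b ^ (2 * N + 1))).filter (fun n => b ^ (2 * N) ≤ n ∧
      (Nat.digits b n).reverse = Nat.digits b n ∧ n ≡ a [MOD M] ∧
      n.primeFactorsList.length ≤ (if 1000 ≤ b then 3 else if 64 ≤ b then 4 else 5) ∧
      ∀ p ∈ n.primeFactorsList, (b : ℝ) ^ ((1 / 13) * (N : ℝ)) < p)).card : ℝ) := by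
  rcases lt_or_ge b 64 with hb' | hb'
  · rw [if_neg (by omega), if_neg (by omega)]
    have hbR : (2 : ℝ) ≤ b := by exact_mod_cast hb
    have hb0 : (0 : ℝ) < b := by linarith
    set H : ℝ := Real.sqrt (1 / b) with hH
    have hH0 : 0 < H := Real.sqrt_pos.2 (by positivity)
    have hH2 : H ^ 2 = 1 / b := Real.sq_sqrt (by positivity)
    have hb1 : 1 / (b : ℝ) ≤ 1 := by
      rw [div_le_one hb0]
      linarith
    have hH1 : H ≤ 1 := by
      by_contra hcon
      push Not at hcon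
      have h1 : 1 < H ^ 2 := one_lt_pow₀ hcon two_ne_zero
      linarith
    have hHb : 1 ≤ b * H := by
      have h1 : (b : ℝ) * H ^ 2 = 1 := by
        rw [hH2]
        field_simp
      have h2 : H ^ 2 ≤ H := by nlinarith
      have h3 : (b : ℝ) * H ^ 2 ≤ b * H := mul_le_mul_of_nonneg_left h2 hb0.le
      linarith
    have hMaj : MajP b b 1 H (1 / H ^ 3) := majP_alt hb (by omega) le_rfl le_rfl (by omega) hH0 hH1 (by
      rw [hH2, Nat.cast_one, mul_one])
    have hκ : (b : ℝ) ^ (49 / 100 : ℝ) * H < 1 := by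
      rw [hH, Real.sqrt_eq_rpow, one_div, Real.inv_rpow hb0.le]
      rw [← div_eq_mul_inv, div_lt_one (by positivity)]
      exact Real.rpow_lt_rpow_of_exponent_lt (by linarith) (by norm_num)
    exact unifAP (r := 5) (κ := 49 / 100) (κ' := 48 / 100) (lam := 84 / 100) (η := 1 / 13) hb hMaj hH0 hHb
      (by positivity) (m4_unif hb) (by norm_num) (by norm_num) hκ (by norm_num) (by norm_num) (by norm_num)
      (by norm_num) (by norm_num) hM ha h4
  · obtain ⟨h1, h2, h3⟩ := HU_facts hb'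
    rcases lt_or_ge b 1000 with h9 | h9
    · rw [if_neg (by omega), if_pos hb']
      exact unifAP (r := 4) (κ := 6 / 10) (κ' := 59 / 100) (lam := 84 / 100) (η := 1 / 13) (by omega)
        (majP_unif hb') h1 h2 one_pos (m4_unif (by omega)) (by norm_num) (by norm_num) (cond64 hb')
        (by norm_num) (by norm_num) (by norm_num) (by norm_num) (by norm_num) hM ha h4
    · rw [if_pos h9]
      exact unifAP (r := 3) (κ := 727 / 1000) (κ' := 7265 / 10000) (lam := 846 / 1000) (η := 1 / 13) (by omega)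
        (majP_unif hb') h1 h2 one_pos (m4_unif (by omega)) (by norm_num) (by norm_num) (cond1000 h9)
        (by norm_num) (by norm_num) (by norm_num) (by norm_num) (by norm_num) hM ha h4

end Pool.Agent.Q26.PL
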