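import Pool.Agent.Q26.PL.E

/-!
# Palindromes with few prime factors in arithmetic progressions, all `x`
-/

set_option autoImplicit false

namespace Pool.Agent.Q26.PL

open Finset Filter Topology Pool.Agent.W89.PW Pool.Agent.W139.PX

/-- transfer to all `x`, with any decidability instances -/
theorem to_xQ {b r : ℕ} (hb : 2 ≤ b) (P : ℕ → Prop) {c : ℝ} (hc : 0 < c) (F : ℕ → Finset ℕ)
    (hF : ∀ N : ℕ, ∀ n ∈ F N, n < b ^ (2 * N + 1) ∧ b ^ (2 * N) ≤ n ∧
      (Nat.digits b n).reverse = Nat.digits b n ∧ P n ∧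
      n.primeFactorsList.length ≤ r ∧
      ∀ p ∈ n.primeFactorsList, (b : ℝ) ^ ((1 / 13) * (N : ℝ)) < p)
    (h : ∀ᶠ N : ℕ in atTop, c * (b : ℝ) ^ N / N ≤ ((F N).card : ℝ)) :
    ∃ c' : ℝ, 0 < c' ∧ ∀ᶠ x : ℕ in atTop, ∀ G : Finset ℕ, (∀ n : ℕ, n ∈ Icc 1 x →
        (Nat.digits b n).reverse = Nat.digits b n → P n →
        n.primeFactorsList.length ≤ r → (∀ p ∈ n.primeFactorsList, (x : ℝ) ^ (1 / 30 : ℝ) < p) → n ∈ G) →
      c' * (((Icc 1 x).filter (fun n => (Nat.digits b n).reverse = Nat.digits b n)).card : ℝ) / Real.log x ≤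
      (G.card : ℝ) := by
  classical
  obtain ⟨c', hc', h'⟩ := to_xP (r := r) hb P hc (by
    filter_upwards [h] with N hN
    refine hN.trans ?_
    rw [Nat.cast_le]
    apply card_le_card
    intro n hn
    rw [mem_filter, mem_range]
    exact hF N n hn)
  refine ⟨c', hc', ?_⟩
  filter_upwards [h'] with x hx
  intro G hG
  refine hx.trans ?_
  rw [Nat.cast_le]
  apply card_le_card
  intro n hn
  rw [mem_filter] at hn
  exact hG n hn.1 hn.2.1 hn.2.2.1 hn.2.2.2.1 hn.2.2.2.2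

/-- the right order of magnitude in every residue class, all `x` -/
theorem allAP {b : ℕ} (hb : 2 ≤ b) {M a : ℕ} (hM : 0 < M) (ha : a.Coprime M) (h4 : 2 ∣ b ∨ ¬ 4 ∣ M) :
    ∃ c' : ℝ, 0 < c' ∧ ∀ᶠ x : ℕ in atTop, ∀ G : Finset ℕ, (∀ n : ℕ, n ∈ Icc 1 x →
        (Nat.digits b n).reverse = Nat.digits b n → n ≡ a [MOD M] →
        n.primeFactorsList.length ≤ (if 1000 ≤ b then 3 else if 64 ≤ b then 4 else 5) →
        (∀ p ∈ n.primeFactorsList, (x : ℝ) ^ (1 / 30 : ℝ) < p) → n ∈ G) →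
      c' * (((Icc 1 x).filter (fun n => (Nat.digits b n).reverse = Nat.digits b n)).card : ℝ) / Real.log x ≤
      (G.card : ℝ) := by
  classical
  obtain ⟨c, hc0, hc⟩ := finAP hb hM ha h4
  exact to_xQ hb (fun n => n ≡ a [MOD M]) hc0 _ (fun N n hn => by
    rw [mem_filter, mem_range] at hn
    exact hn) hc

end Pool.Agent.Q26.PL
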