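import Pool.Agent.Q26.PL.F
import Pool.Agent.W139.PX.E3

/-!
# Palindromes with at most three prime factors in arithmetic progressions
-/

set_option autoImplicit false

namespace Pool.Agent.Q26.PL

open Finset Filter Topology Pool.Agent.W89.PW Pool.Agent.W139.PX

lemma image_card {b s t N L : ℕ} (hb : 2 ≤ b) (A : ℕ) (hN : L + 1 ≤ N) (G : Finset (Fin L → Fin s × Fin t)) :
    (G.image (PA b s t N L A)).card = (G.image (pv b s t L)).card := by
  classical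
  obtain ⟨C0, hC0⟩ : ∃ C0, C0 = b ^ (2 * L + 2) + b ^ (L + 1) + 1 := ⟨_, rfl⟩
  have h1 : G.image (PA b s t N L A) =
      (G.image (pv b s t L)).image (fun n => CA b N L A + b ^ (N - L - 1) * (n - C0)) := by
    rw [image_image]
    apply image_congr
    intro m _
    simp only [Function.comp]
    rw [PA_eq A hN, pv_sgs, ← hC0, Nat.add_sub_cancel_left]
  rw [h1]
  apply card_image_of_injOn
  intro x hx y hy hxy
  rw [mem_coe, mem_image] at hx hy
  obtain ⟨m, _, rfl⟩ := hx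
  obtain ⟨m', _, rfl⟩ := hy
  simp only at hxy
  have h2 := Nat.eq_of_mul_eq_mul_left (by positivity : 0 < b ^ (N - L - 1)) (Nat.add_left_cancel hxy)
  rw [pv_sgs, pv_sgs, ← hC0, Nat.add_sub_cancel_left, Nat.add_sub_cancel_left] at h2
  rw [pv_sgs, pv_sgs, h2]

/-- a clean exponential lower bound in a residue class -/
theorem energyAP {b s t r : ℕ} (hb : 3 ≤ b) (hs : 2 ≤ s) (hst : s ≤ t) (hbst : s + t = b + 1) {κ κ' lam : ℝ}
    (hκ0 : 0 < κ') (hκκ : κ' < κ) (hκ : (b : ℝ) ^ κ * HH s t < 1) (hm4 : (b : ℝ) * m4 s t < 1)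
    (hl0 : 0 < lam) (hl1 : lam ≤ 1)
    (hlam : lam * (1174 / 1000) < 994 / 1000) (hr : 1 / lam + 88 / (43 * κ') < r + 1)
    {B η : ℝ} (hB : 1 ≤ B) (hBE : B < ((s : ℝ) * t) ^ 2 / (Eset s t).card) (hη : η < κ' / 6)
    {M a : ℕ} (hM : 0 < M) (ha : a.Coprime M) (h4 : 2 ∣ b ∨ ¬ 4 ∣ M) :
    ∀ᶠ N : ℕ in atTop, ∃ F : Finset ℕ, B ^ N ≤ (F.card : ℝ) ∧ ∀ n ∈ F, n < b ^ (2 * N + 1) ∧ b ^ (2 * N) ≤ n ∧
      (Nat.digits b n).reverse = Nat.digits b n ∧ n ≡ a [MOD M] ∧ n.primeFactorsList.length ≤ r ∧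
      ∀ p ∈ n.primeFactorsList, (b : ℝ) ^ (η * N) < p := by
  classical
  have hb2 : 2 ≤ b := by omega
  have hb1 : (1 : ℝ) < b := by exact_mod_cast (by omega : 1 < b)
  have hb0 : (0 : ℝ) < b := by linarith
  have hs1 : 1 ≤ s := by omega
  have ht1 : 1 ≤ t := by omega
  have hκ1 : κ < 1 := Pool.Agent.W809.PWSqr.kappa_lt_one hb hs1 ht1 hbst hκ
  have hκp : 0 < κ := hκ0.trans hκκ
  have hH0 : 0 < HH s t := Pool.Agent.W809.PWSqr.HH_pos hs1
  have hH1 : HH s t ≤ 1 := Pool.Agent.W809.PWSqr.HH_le_one hs1 ht1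
  have hHb : 1 ≤ b * HH s t := by
    have h1 := Pool.Agent.W809.PWSqr.HH_ge hs1 ht1 hbst
    have h2 : (1 : ℝ) ≤ b * (2 / ((b : ℝ) + 1)) := by
      rw [← mul_div_assoc, le_div_iff₀ (by positivity)]
      linarith
    exact h2.trans (mul_le_mul_of_nonneg_left h1 hb0.le)
  have hMaj : MajP b s t (HH s t) 1 := majP_of_majOK hb2 hH0.le hH1
    (Pool.Agent.W139.PW.majOK_pair b s t hs1 (by omega) ht1 (by omega))
  have hPt : PtW b s t := Pool.Agent.W571.PW.Pt.main b s t hb2 hs ht1 hbst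
  have hBig : BigW b s t κ := bigW_of_majP hb2 hs1 ht1 hbst hm4 hMaj hH0 hHb one_pos hκp hκ
  have hBV : BVH b s t κ := bvH hb2 hs1 ht1 hPt hκp hκ1 hBig
  have hSq : SqH b s t κ := sqH_of_majP hMaj hH0 hHb one_pos hb2 hs1 ht1 hbst hm4 hκp hκ
  -- the modulus
  obtain ⟨u, v, e0, hM', hu, hv⟩ := split_mod (2 * b) (by omega) M hM
  have hv0 : 0 < v := by
    rcases Nat.eq_zero_or_pos v with h | h
    · subst h; simp at hM'; omega
    · exact h
  have hau : a.Coprime u := Nat.Coprime.coprime_dvd_right ⟨v, hM'⟩ ha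
  have hav : a.Coprime v := Nat.Coprime.coprime_dvd_right ⟨u, by rw [hM', mul_comm]⟩ ha
  have huv : u.Coprime v := by
    have h1 : v.Coprime ((2 * b) ^ e0) := hv.pow_right e0
    exact (Nat.Coprime.coprime_dvd_right hu h1).symm
  obtain ⟨A, e, he1, hAlt, hAc, hAcl⟩ := last_digits hb2 hu hau (h4.imp id fun h h' =>
    h (h'.trans ⟨v, hM'⟩))
  obtain ⟨c, hc0, L0, hmain⟩ := prog (s := s) (t := t) (r := r) (M := v) (2 * e + 1) hb2 hs1 ht1 hv0 hv
    hκ0 hκκ hκ1 hBV hSq hl0 hl1 hlam hr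
  obtain ⟨Z, hZ⟩ : ∃ Z : ℝ, Z = ((s : ℝ) * t) ^ 2 / (Eset s t).card := ⟨_, rfl⟩
  rw [← hZ] at hBE
  have hZ0 : 0 < Z := by linarith
  have hEc : 0 < (Eset s t).card := by
    apply card_pos.2
    refine ⟨((⟨0, by omega⟩, ⟨0, by omega⟩), (⟨0, by omega⟩, ⟨0, by omega⟩)), ?_⟩
    unfold Eset
    simp
  have hER : (0 : ℝ) < (Eset s t).card := by exact_mod_cast hEc
  have hB0 : 0 < B := by linarith
  -- the exponential beats the square
  have h1 : ∀ᶠ L : ℕ in atTop, (L : ℝ) ^ 2 * (B / Z) ^ L < c ^ 2 / B ^ e := by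
    have h2 := tendsto_pow_const_mul_const_pow_of_abs_lt_one 2 (r := B / Z) (by
      rw [abs_of_pos (by positivity), div_lt_one hZ0]
      exact hBE)
    exact h2.eventually (gt_mem_nhds (by positivity))
  have h2 : ∀ᶠ L : ℕ in atTop, η * e ≤ (κ' / 6 - η) * (L : ℝ) :=
    ((tendsto_natCast_atTop_atTop (R := ℝ)).const_mul_atTop (by linarith)).eventually_ge_atTop _
  obtain ⟨L1, hL1⟩ := eventually_atTop.1 (h1.and h2)
  rw [eventually_atTop]
  refine ⟨max (max L0 L1) 1 + e, fun N hN => ?_⟩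
  obtain ⟨L, hNL⟩ : ∃ L, N = L + e := ⟨N - e, by omega⟩
  have hLm : max (max L0 L1) 1 ≤ L := by omega
  have hLL0 : L0 ≤ L := (le_max_left _ _).trans ((le_max_left _ _).trans hLm)
  have hLL1 : L1 ≤ L := (le_max_right _ _).trans ((le_max_left _ _).trans hLm)
  have hL1' : 1 ≤ L := (le_max_right _ _).trans hLm
  have hL0R : (0 : ℝ) < L := by exact_mod_cast hL1'
  have hN1 : L + 1 ≤ N := by omega
  obtain ⟨h5, h6⟩ := hL1 L hLL1
  have hPAe : ∀ m : Fin L → Fin s × Fin t, CA b N L A + b ^ (N - L - 1) * sgs b s t L m = PA b s t N L A m :=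
    fun m => (PA_eq A hN1 m).symm
  obtain ⟨G, hG1, hG2⟩ := hmain L hLL0 (CA b N L A) (N - L - 1) a hav (by
    intro m
    rw [hPAe]
    refine ⟨?_, ?_, PA_cop hb2 he1 hNL hAlt hAc m⟩
    · exact lt_of_lt_of_le (by positivity) (PA_ge hb2 he1 hNL hAc m)
    · have := PA_lt hb2 hbst N L A m
      rwa [show 2 * L + (2 * e + 1) = 2 * N + 1 by omega])
  refine ⟨G.image (PA b s t N L A), ?_, ?_⟩
  · rw [image_card hb2 A hN1 G]
    have g1 := card_sq_le (b := b) hb hbst G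
    have g2 : (G.card : ℝ) ^ 2 ≤ ((G.image (pv b s t L)).card : ℝ) * ((Eset s t).card : ℝ) ^ L := by
      exact_mod_cast g1
    have g3 : (c * ((s : ℝ) * t) ^ L / L) ^ 2 ≤ (G.card : ℝ) ^ 2 := pow_le_pow_left₀ (by positivity) hG1 2
    have g4 := g3.trans g2
    rw [← div_le_iff₀ (by positivity)] at g4
    refine le_trans ?_ g4
    have g5 : (c * ((s : ℝ) * t) ^ L / L) ^ 2 / ((Eset s t).card : ℝ) ^ L = c ^ 2 * Z ^ L / (L : ℝ) ^ 2 := by
      rw [hZ, div_pow (((s : ℝ) * t) ^ 2), ← pow_mul, mul_comm 2 L, pow_mul]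
      field_simp
    rw [g5]
    have hBA : (B / Z) ^ L = B ^ L / Z ^ L := div_pow _ _ _
    rw [hBA] at h5
    have hAL : 0 < Z ^ L := by positivity
    rw [lt_div_iff₀ (by positivity)] at h5
    have h8 : (L : ℝ) ^ 2 * (B ^ L / Z ^ L) * B ^ e = (L : ℝ) ^ 2 * B ^ N / Z ^ L := by
      rw [hNL, pow_add]; ring
    rw [h8, div_lt_iff₀ hAL] at h5
    rw [le_div_iff₀ (by positivity)]
    linarith
  · intro n hn
    rw [mem_image] at hn
    obtain ⟨m, hm, rfl⟩ := hn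
    have h9 := hG2 m hm
    rw [hPAe] at h9
    obtain ⟨g1, g2, g3⟩ := h9
    refine ⟨PA_lt hb2 hbst N L A m, PA_ge hb2 he1 hNL hAc m, PA_pal hb2 hbst he1 hNL hAc m, ?_, g2,
      fun p hp => lt_of_le_of_lt ?_ (g3 p hp)⟩
    · rw [hM']
      refine (Nat.modEq_and_modEq_iff_modEq_mul huv).1 ⟨?_, g1⟩
      exact hAcl _ (PA_mod hNL hAlt m)
        (Nat.Coprime.coprime_dvd_right (dvd_mul_right 2 b) (PA_cop hb2 he1 hNL hAlt hAc m))
    · apply Real.rpow_le_rpow_of_exponent_le hb1.le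
      rw [hNL]
      push_cast
      linarith

/-- three prime factors in residue classes, `b ≥ 3` -/
theorem three3 {b : ℕ} (hb : 3 ≤ b) {M a : ℕ} (hM : 0 < M) (ha : a.Coprime M) (h4 : 2 ∣ b ∨ ¬ 4 ∣ M) :
    ∀ᶠ N : ℕ in atTop, ∃ F : Finset ℕ, (3 * (b : ℝ) / 4) ^ N ≤ (F.card : ℝ) ∧ ∀ n ∈ F, n < b ^ (2 * N + 1) ∧
      b ^ (2 * N) ≤ n ∧ (Nat.digits b n).reverse = Nat.digits b n ∧ n ≡ a [MOD M] ∧
      n.primeFactorsList.length ≤ (if 9 ≤ b then 3 else if 3 ≤ b then 4 else 5) ∧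
      ∀ p ∈ n.primeFactorsList, (b : ℝ) ^ ((1 / 13) * (N : ℝ)) < p := by
  set s := (b + 1) / 2 with hs
  set t := b + 1 - s with ht
  have hm4 : (b : ℝ) * m4 s t < 1 := by
    have h := Pool.Agent.W22.PWM4.main b hb
    rw [← hs, ← ht] at h
    linarith
  have hE := energy_bound hb hs ht
  have hbR : (3 : ℝ) ≤ b := by exact_mod_cast hb
  rcases lt_or_ge b 9 with h9 | h9
  · have h := energyAP (b := b) (s := s) (t := t) (r := 4) (κ := 63 / 100) (κ' := 62 / 100) (lam := 84 / 100)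
      (B := 3 * (b : ℝ) / 4) (η := 1 / 13) hb (by omega) (by omega) (by omega) (by norm_num) (by norm_num)
      (kap3 hb (by omega) hs ht) hm4 (by norm_num) (by norm_num) (by norm_num) (by norm_num) (by linarith) hE
      (by norm_num) hM ha h4
    rw [if_neg (by omega), if_pos hb]
    exact h
  · have h := energyAP (b := b) (s := s) (t := t) (r := 3) (κ := 183 / 250) (κ' := 731 / 1000) (lam := 84 / 100)
      (B := 3 * (b : ℝ) / 4) (η := 1 / 13) hb (by omega) (by omega) (by omega) (by norm_num) (by norm_num)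
      (kap9 h9 hs ht) hm4 (by norm_num) (by norm_num) (by norm_num) (by norm_num) (by linarith) hE
      (by norm_num) hM ha h4
    rw [if_pos h9]
    exact h

/-- base 10: three prime factors in residue classes -/
theorem three10 {M a : ℕ} (hM : 0 < M) (ha : a.Coprime M) :
    ∀ᶠ N : ℕ in atTop, ∃ F : Finset ℕ, (8 : ℝ) ^ N ≤ (F.card : ℝ) ∧ ∀ n ∈ F, n < 10 ^ (2 * N + 1) ∧
      10 ^ (2 * N) ≤ n ∧ (Nat.digits 10 n).reverse = Nat.digits 10 n ∧ n ≡ a [MOD M] ∧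
      n.primeFactorsList.length ≤ 3 ∧
      ∀ p ∈ n.primeFactorsList, ((10 : ℕ) : ℝ) ^ ((1 / 9) * (N : ℝ)) < p := by
  have hm4 : ((10 : ℕ) : ℝ) * m4 5 6 < 1 := by
    have h := Pool.Agent.W22.PWM4.main 10 (by norm_num)
    norm_num at h
    push_cast
    linarith
  have hκ : (((10 : ℕ) : ℝ)) ^ (736 / 1000 : ℝ) * HH 5 6 < 1 := by
    have h1 : (10 : ℝ) ^ (736 / 1000 : ℝ) < 60 / 11 := by
      have h2 : ((10 : ℝ) ^ (736 / 1000 : ℝ)) ^ 125 < (60 / 11) ^ 125 := by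
        rw [← Real.rpow_natCast, ← Real.rpow_mul (by norm_num)]
        have e : (736 / 1000 : ℝ) * ((125 : ℕ) : ℝ) = ((92 : ℕ) : ℝ) := by norm_num
        rw [e, Real.rpow_natCast]
        norm_num
      exact lt_of_pow_lt_pow_left₀ 125 (by norm_num) h2
    unfold HH
    push_cast
    nlinarith
  have hE : (Eset 5 6).card = 110 := by decide +kernel
  exact energyAP (b := 10) (s := 5) (t := 6) (r := 3) (κ := 736 / 1000) (κ' := 735 / 1000) (lam := 83 / 100)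
    (B := 8) (η := 1 / 9) (by norm_num) (by norm_num) (by norm_num) (by norm_num) (by norm_num) (by norm_num)
    hκ hm4 (by norm_num) (by norm_num) (by norm_num) (by norm_num) (by norm_num) (by rw [hE]; norm_num)
    (by norm_num) hM ha (Or.inl (by norm_num))

/-- base 2: five prime factors in residue classes -/
theorem five2 {M a : ℕ} (hM : 0 < M) (ha : a.Coprime M) :
    ∀ᶠ N : ℕ in atTop, ∃ F : Finset ℕ, (3 * ((2 : ℕ) : ℝ) / 4) ^ N ≤ (F.card : ℝ) ∧ ∀ n ∈ F, n < 2 ^ (2 * N + 1) ∧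
      2 ^ (2 * N) ≤ n ∧ (Nat.digits 2 n).reverse = Nat.digits 2 n ∧ n ≡ a [MOD M] ∧
      n.primeFactorsList.length ≤ 5 ∧
      ∀ p ∈ n.primeFactorsList, ((2 : ℕ) : ℝ) ^ ((1 / 13) * (N : ℝ)) < p := by
  classical
  obtain ⟨c, hc0, hc⟩ := finAP (b := 2) le_rfl hM ha (Or.inl dvd_rfl)
  have hlim := tendsto_pow_const_mul_const_pow_of_abs_lt_one 1 (r := 3 / 4) (by norm_num)
  have hev : ∀ᶠ N : ℕ in atTop, (N : ℝ) ^ 1 * (3 / 4) ^ N < c := hlim.eventually (gt_mem_nhds hc0)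
  filter_upwards [hc, hev, eventually_ge_atTop 1] with N h1 h4 h5
  have hN0 : (0 : ℝ) < N := by exact_mod_cast h5
  refine ⟨_, le_trans ?_ h1, ?_⟩
  · push_cast
    rw [le_div_iff₀ hN0]
    have h7 : (3 * 2 / 4 : ℝ) ^ N = (3 / 4) ^ N * 2 ^ N := by
      rw [← mul_pow]; norm_num
    rw [h7]
    have h8 : (0 : ℝ) < 2 ^ N := by positivity
    have h9 := mul_lt_mul_of_pos_right h4 h8
    rw [pow_one] at h9
    nlinarith
  · intro n hn
    rw [mem_filter, mem_range] at hn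
    obtain ⟨g1, g2, g3, g4, g5, g6⟩ := hn
    rw [if_neg (by norm_num), if_neg (by norm_num)] at g5
    exact ⟨g1, g2, g3, g4, g5, g6⟩

end Pool.Agent.Q26.PL
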