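import Pool.Agent.Y816.PS.A
import Pool.Agent.W261.PW_BV

/-!
# Level of distribution of palindromes with any power of the divisor function as weight

The proofs are those of `Pool.Agent.W261.PW_BV` (helper261) and `Pool.Agent.Y816.PS.A`, with the weight `τ^E`.
-/

set_option autoImplicit false

namespace Pool.Agent.Q26.PL

open Finset Filter Topology Pool.Agent.Helper112 Pool.Agent.W89.PW Pool.Agent.W261.PWBV Pool.Agent.W139.PX
open Pool.Agent.H39R3.PB (ph pts ph_nonneg ph_le_one)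
open Pool.Agent.H760R2.PalT7 (dec)
open Pool.Agent.H885R3.PBT7 (cover)
open Pool.Agent.Y816.PS (er er_nonneg)

/-- the small range -/
lemma smallE (κ : ℝ) (h0 : 0 < κ) (h1 : κ < 1) (A B : ℕ) :
    ∃ c1 : ℝ, 0 < c1 ∧ ∀ᶠ L : ℕ in atTop, ∀ j : ℕ, (j : ℝ) ≤ c1 * Real.sqrt L →
      (2 : ℝ) ^ (B * j + B) * (1 - κ) ^ ((L - 1) / (2 * j + 4)) ≤ 1 / (L : ℝ) ^ A := by
  set lam : ℝ := -Real.log (1 - κ) with hlam
  have hlam0 : 0 < lam := by
    have := Real.log_neg (show 0 < 1 - κ by linarith) (by linarith)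
    rw [hlam]; linarith
  set c1 : ℝ := min 1 (lam / (6 * (B + 1))) with hc1
  have hc10 : 0 < c1 := lt_min one_pos (by positivity)
  have hc11 : c1 ≤ 1 := min_le_left _ _
  have hc12 : 6 * (B + 1) * c1 ≤ lam := by
    have : c1 ≤ lam / (6 * (B + 1)) := min_le_right _ _
    rw [le_div_iff₀ (by positivity)] at this
    linarith
  refine ⟨c1, hc10, ?_⟩
  have hsq : Tendsto (fun L : ℕ => Real.sqrt L) atTop atTop :=
    Real.tendsto_sqrt_atTop.comp tendsto_natCast_atTop_atTop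
  filter_upwards [dec 1 (Real.exp (B + lam)) one_pos (Real.exp_pos _).le A,
    hsq.eventually_ge_atTop (4 / c1), eventually_ge_atTop 2] with L hL hx hL2 j hj
  refine le_trans ?_ hL
  rw [← Real.exp_add]
  set x : ℝ := Real.sqrt L with hxdef
  have hx2 : x ^ 2 = L := Real.sq_sqrt (Nat.cast_nonneg L)
  have hcx : 4 ≤ c1 * x := by
    rw [div_le_iff₀ hc10] at hx
    linarith
  have hx0 : 0 < x := by
    by_contra hcon
    push Not at hcon
    have := mul_nonpos_of_nonneg_of_nonpos hc10.le hcon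
    linarith
  set n0 : ℕ := (L - 1) / (2 * j + 4) with hn0
  have hL2' : (2 : ℝ) ≤ L := by exact_mod_cast hL2
  have e1 : L - 1 < (2 * j + 4) * (n0 + 1) := by
    have := Nat.lt_mul_div_succ (L - 1) (show 0 < 2 * j + 4 by omega)
    exact this
  have e2 : (L : ℝ) / 2 ≤ (2 * (j : ℝ) + 4) * (n0 + 1) := by
    have e3 : L ≤ (2 * j + 4) * (n0 + 1) := by omega
    have e4 : (L : ℝ) ≤ (2 * (j : ℝ) + 4) * (n0 + 1) := by exact_mod_cast e3
    linarith
  have e5 : x ^ 2 / 2 ≤ 3 * (c1 * x) * (n0 + 1) := by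
    rw [hx2]
    refine e2.trans (mul_le_mul_of_nonneg_right (by linarith) (by positivity))
  have e6 : x ≤ 6 * c1 * (n0 + 1) := by
    have : x * (x / 2) ≤ x * (3 * c1 * (n0 + 1)) := by nlinarith
    have := le_of_mul_le_mul_left this hx0
    linarith
  have e7 : (B + 1) * x ≤ lam * (n0 + 1) := by
    have g1 : 6 * (B + 1) * c1 * ((n0 : ℝ) + 1) ≤ lam * (n0 + 1) :=
      mul_le_mul_of_nonneg_right hc12 (by positivity)
    have g2 : ((B : ℝ) + 1) * x ≤ (B + 1) * (6 * c1 * (n0 + 1)) := mul_le_mul_of_nonneg_left e6 (by positivity)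
    calc ((B : ℝ) + 1) * x ≤ (B + 1) * (6 * c1 * (n0 + 1)) := g2
      _ = 6 * (B + 1) * c1 * ((n0 : ℝ) + 1) := by ring
      _ ≤ _ := g1
  have e8 : (1 - κ) ^ n0 = Real.exp (-(lam * n0)) := by
    rw [← Real.exp_log (show 0 < 1 - κ by linarith), ← Real.exp_nat_mul]
    congr 1
    rw [hlam]
    ring
  have e9 : (2 : ℝ) ^ (B * j + B) ≤ Real.exp (B * j + B) := by
    have h2e : (2 : ℝ) ≤ Real.exp 1 := by
      have := Real.add_one_le_exp (1 : ℝ); linarith
    calc (2 : ℝ) ^ (B * j + B) ≤ Real.exp 1 ^ (B * j + B) := pow_le_pow_left₀ (by norm_num) h2e _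
      _ = Real.exp (B * j + B) := by rw [← Real.exp_nat_mul]; push_cast; ring_nf
  rw [e8]
  calc (2 : ℝ) ^ (B * j + B) * Real.exp (-(lam * n0))
      ≤ Real.exp (B * j + B) * Real.exp (-(lam * n0)) :=
        mul_le_mul_of_nonneg_right e9 (Real.exp_pos _).le
    _ = Real.exp (B * j + B - lam * n0) := by rw [← Real.exp_add]; ring_nf
    _ ≤ Real.exp (B + lam + -(1 * x)) := by
        apply Real.exp_le_exp.2
        have h3 : (j : ℝ) ≤ x := hj.trans (by nlinarith)
        have h4 : (B : ℝ) * j ≤ B * x := mul_le_mul_of_nonneg_left h3 (Nat.cast_nonneg _)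
        linarith

/-- moments of the divisor function -/
lemma tau_pow_sum (E N : ℕ) : ∑ n ∈ Icc 1 N, (n.divisors.card : ℝ) ^ E / n ≤ (1 + Real.log N) ^ (2 ^ E) := by
  have hl0 : 0 ≤ Real.log (N : ℝ) := Real.log_natCast_nonneg N
  induction E with
  | zero =>
    simp only [pow_zero, pow_one]
    have h1 := harmonic_le_one_add_log N
    rw [harmonic_eq_sum_Icc] at h1
    push_cast at h1
    refine le_trans (le_of_eq ?_) h1
    apply sum_congr rfl
    intro n _
    rw [one_div]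
  | succ E ih =>
    have h0 : ∀ n ∈ Icc 1 N, (n.divisors.card : ℝ) ^ (E + 1) / n ≤
        ∑ d ∈ n.divisors, ((d.divisors.card : ℝ) ^ E / d) * (((n / d).divisors.card : ℝ) ^ E / ((n / d : ℕ) : ℝ)) := by
      intro n hn
      rw [mem_Icc] at hn
      have hn0 : 0 < n := hn.1
      have h1 : (n.divisors.card : ℝ) ^ (E + 1) / n = ∑ d ∈ n.divisors, (n.divisors.card : ℝ) ^ E / n := by
        rw [sum_const, nsmul_eq_mul, pow_succ]
        ring
      rw [h1]
      apply sum_le_sum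
      intro d hd
      rw [Nat.mem_divisors] at hd
      obtain ⟨⟨e, he⟩, _⟩ := hd
      have hd0 : 0 < d := by
        rcases Nat.eq_zero_or_pos d with h | h
        · subst h; simp at he; omega
        · exact h
      have he0 : 0 < e := by
        rcases Nat.eq_zero_or_pos e with h | h
        · subst h; simp at he; omega
        · exact h
      have hqd : n / d = e := by rw [he, Nat.mul_div_cancel_left _ hd0]
      rw [hqd, he]
      have hd' : (0 : ℝ) < d := by exact_mod_cast hd0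
      have he' : (0 : ℝ) < e := by exact_mod_cast he0
      have ht : ((d * e).divisors.card : ℝ) ≤ (d.divisors.card : ℝ) * e.divisors.card := by
        exact_mod_cast Pool.Agent.H316R2.tau_mul_le d e
      rw [div_mul_div_comm, ← mul_pow]
      push_cast
      apply div_le_div_of_nonneg_right _ (by positivity)
      exact pow_le_pow_left₀ (by positivity) ht E
    refine (sum_le_sum h0).trans ?_
    rw [sum_sigma']
    set g : ((_ : ℕ) × ℕ) → ℕ × ℕ := fun x => (x.2, x.1 / x.2) with hg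
    set F : ℕ × ℕ → ℝ := fun y => ((y.1.divisors.card : ℝ) ^ E / y.1) * ((y.2.divisors.card : ℝ) ^ E / y.2) with hF
    have hinj : Set.InjOn g (((Icc 1 N).sigma (fun n => n.divisors) : Finset ((_ : ℕ) × ℕ)) : Set ((_ : ℕ) × ℕ)) := by
      rintro ⟨q, d⟩ hx ⟨q', d'⟩ hx' hxx
      rw [Finset.mem_coe, mem_sigma, Nat.mem_divisors] at hx hx'
      simp only [hg, Prod.mk.injEq] at hxx
      obtain ⟨h1, h2⟩ := hxx
      simp only at hx hx'
      subst h1
      have h3 : q = q' := by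
        rw [← Nat.div_mul_cancel hx.2.1, h2, Nat.div_mul_cancel hx'.2.1]
      subst h3
      rfl
    have hsum : ∑ x ∈ (Icc 1 N).sigma (fun n => n.divisors), F (g x) =
        ∑ y ∈ ((Icc 1 N).sigma (fun n => n.divisors)).image g, F y := by
      rw [sum_image hinj]
    have hgoal : ∑ x ∈ (Icc 1 N).sigma (fun n => n.divisors), F (g x) ≤
        ∑ y ∈ Icc 1 N ×ˢ Icc 1 N, F y := by
      rw [hsum]
      refine sum_le_sum_of_subset_of_nonneg ?_ ?_
      · intro y hy
        rw [mem_image] at hy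
        obtain ⟨⟨q, d⟩, hx, rfl⟩ := hy
        rw [mem_sigma, Nat.mem_divisors, mem_Icc] at hx
        simp only at hx
        obtain ⟨⟨hq1, hqD⟩, hdq, _⟩ := hx
        rw [mem_product, mem_Icc, mem_Icc]
        simp only [hg]
        have hle := Nat.le_of_dvd hq1 hdq
        have hd0 : 0 < d := Nat.pos_of_dvd_of_pos hdq hq1
        exact ⟨⟨hd0, hle.trans hqD⟩, Nat.div_pos hle hd0, (Nat.div_le_self _ _).trans hqD⟩
      · intro y _ _
        simp only [hF]
        positivity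
    refine hgoal.trans ?_
    rw [sum_product]
    simp only [hF]
    simp only [← mul_sum, ← sum_mul]
    have hS0 : 0 ≤ ∑ n ∈ Icc 1 N, (n.divisors.card : ℝ) ^ E / n := sum_nonneg fun _ _ => by positivity
    calc (∑ n ∈ Icc 1 N, (n.divisors.card : ℝ) ^ E / n) * ∑ n ∈ Icc 1 N, (n.divisors.card : ℝ) ^ E / n
        ≤ (1 + Real.log N) ^ (2 ^ E) * (1 + Real.log N) ^ (2 ^ E) :=
          mul_le_mul ih ih hS0 (by positivity)
      _ = (1 + Real.log N) ^ (2 ^ (E + 1)) := by rw [← pow_add]; congr 1; ring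

/-- the double sum over multiples -/
lemma doubleE (b s t L D E : ℕ) :
    ∑ q ∈ (Icc 1 D).filter (fun q => q.Coprime (2 * b)),
      (q.divisors.card : ℝ) ^ E * (((s : ℝ) * t) ^ L / q *
        ∑ d ∈ q.divisors.filter (fun d => 1 < d), U b s t L d) ≤
    ((s : ℝ) * t) ^ L * ((∑ d ∈ (Icc 2 D).filter (fun q => q.Coprime (2 * b)),
      (d.divisors.card : ℝ) ^ E * U b s t L d / d) *
        ∑ e ∈ Icc 1 D, (e.divisors.card : ℝ) ^ E / e) := by
  generalize hP : ((s : ℝ) * t) ^ L = P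
  have hP0 : 0 ≤ P := by rw [← hP]; positivity
  have h1 : ∀ q ∈ (Icc 1 D).filter (fun q => q.Coprime (2 * b)),
      (q.divisors.card : ℝ) ^ E * (P / q * ∑ d ∈ q.divisors.filter (fun d => 1 < d), U b s t L d) ≤
      ∑ d ∈ q.divisors.filter (fun d => 1 < d), P * (((d.divisors.card : ℝ) ^ E * U b s t L d / d) *
        (((q / d).divisors.card : ℝ) ^ E / ((q / d : ℕ) : ℝ))) := by
    intro q hq
    rw [mem_filter, mem_Icc] at hq
    have hq0 : 0 < q := hq.1.1
    rw [mul_sum, mul_sum]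
    refine sum_le_sum fun d hd => ?_
    rw [mem_filter, Nat.mem_divisors] at hd
    obtain ⟨⟨⟨e, he⟩, _⟩, hd1⟩ := hd
    have hd0 : 0 < d := by omega
    have he0 : 0 < e := by
      rcases Nat.eq_zero_or_pos e with h0 | h0
      · subst h0; simp at he; omega
      · exact h0
    have hqd : q / d = e := by rw [he, Nat.mul_div_cancel_left _ hd0]
    rw [hqd, he]
    have hd' : (0 : ℝ) < d := by exact_mod_cast hd0
    have he' : (0 : ℝ) < e := by exact_mod_cast he0
    have ht : ((d * e).divisors.card : ℝ) ≤ (d.divisors.card : ℝ) * e.divisors.card := by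
      exact_mod_cast Pool.Agent.H316R2.tau_mul_le d e
    have ht2 : ((d * e).divisors.card : ℝ) ^ E ≤
        ((d.divisors.card : ℝ) * e.divisors.card) ^ E := by gcongr
    have hU := U_nonneg b s t L d
    push_cast
    calc ((d * e).divisors.card : ℝ) ^ E * (P / (d * e) * U b s t L d)
        ≤ ((d.divisors.card : ℝ) * e.divisors.card) ^ E * (P / (d * e) * U b s t L d) := by
          gcongr
      _ = _ := by
          rw [mul_pow]
          field_simp
  refine (sum_le_sum h1).trans ?_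
  rw [sum_sigma', sum_mul_sum, mul_sum]
  simp only [mul_sum]
  rw [sum_sigma']
  set g : ((_ : ℕ) × ℕ) → ((_ : ℕ) × ℕ) := fun x => ⟨x.2, x.1 / x.2⟩ with hg
  set F : ((_ : ℕ) × ℕ) → ℝ := fun y => P * (((y.1.divisors.card : ℝ) ^ E * U b s t L y.1 / y.1) *
    ((y.2.divisors.card : ℝ) ^ E / y.2)) with hF
  have hinj : Set.InjOn g ((((Icc 1 D).filter (fun q => q.Coprime (2 * b))).sigma
      (fun q => q.divisors.filter (fun d => 1 < d)) : Finset ((_ : ℕ) × ℕ)) : Set ((_ : ℕ) × ℕ)) := by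
    rintro ⟨q, d⟩ hx ⟨q', d'⟩ hx' hxx
    rw [Finset.mem_coe, mem_sigma, mem_filter, mem_filter, Nat.mem_divisors] at hx hx'
    simp only [hg, Sigma.mk.injEq, heq_eq_eq] at hxx
    obtain ⟨h1, h2⟩ := hxx
    simp only at hx hx'
    subst h1
    have h3 : q = q' := by
      rw [← Nat.div_mul_cancel hx.2.1.1, h2, Nat.div_mul_cancel hx'.2.1.1]
    subst h3
    rfl
  have hsum : ∑ x ∈ ((Icc 1 D).filter (fun q => q.Coprime (2 * b))).sigma
      (fun q => q.divisors.filter (fun d => 1 < d)), F (g x) =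
      ∑ y ∈ (((Icc 1 D).filter (fun q => q.Coprime (2 * b))).sigma
      (fun q => q.divisors.filter (fun d => 1 < d))).image g, F y := by
    rw [sum_image hinj]
  have hgoal : ∑ x ∈ ((Icc 1 D).filter (fun q => q.Coprime (2 * b))).sigma
      (fun q => q.divisors.filter (fun d => 1 < d)), F (g x) ≤
      ∑ y ∈ ((Icc 2 D).filter (fun q => q.Coprime (2 * b))).sigma (fun _ => Icc 1 D), F y := by
    rw [hsum]
    refine sum_le_sum_of_subset_of_nonneg ?_ ?_
    · intro y hy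
      rw [mem_image] at hy
      obtain ⟨⟨q, d⟩, hx, rfl⟩ := hy
      rw [mem_sigma, mem_filter, mem_filter, Nat.mem_divisors, mem_Icc] at hx
      simp only at hx
      obtain ⟨⟨⟨hq1, hqD⟩, hqc⟩, ⟨hdq, _⟩, hd1⟩ := hx
      rw [mem_sigma, mem_filter, mem_Icc, mem_Icc]
      simp only [hg]
      have hle := Nat.le_of_dvd hq1 hdq
      refine ⟨⟨⟨hd1, hle.trans hqD⟩, Nat.Coprime.coprime_dvd_left hdq hqc⟩, ?_, ?_⟩
      · exact Nat.div_pos hle (by omega)
      · exact (Nat.div_le_self _ _).trans hqD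
    · intro y _ _
      simp only [hF]
      have := U_nonneg b s t L y.1
      positivity
  exact hgoal

/-- a dyadic block in terms of `pts` -/
lemma blockE (b s t L Q E : ℕ) (hQ : 1 ≤ Q) (d C : ℝ) (hd : 0 ≤ d) (hC : 0 ≤ C)
    (hτ : ∀ n : ℕ, 1 ≤ n → (n.divisors.card : ℝ) ^ E ≤ C * (n : ℝ) ^ d) :
    ∑ q ∈ (Ico Q (2 * Q)).filter (fun q => q.Coprime (2 * b)),
      (q.divisors.card : ℝ) ^ E * U b s t L q / q ≤
      C * (2 * Q : ℝ) ^ d / Q * pts b Q (Fw b s t L L) := by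
  unfold pts
  rw [mul_sum]
  apply sum_le_sum
  intro q hq
  rw [mem_filter, mem_Ico] at hq
  obtain ⟨⟨h1, h2⟩, h3⟩ := hq
  have hQ0 : (0 : ℝ) < Q := by exact_mod_cast hQ
  have hq0 : (0 : ℝ) < q := by exact_mod_cast (show 0 < q by omega)
  have hU := U_nonneg b s t L q
  have e1 : (q.divisors.card : ℝ) ^ E ≤ C * (2 * Q : ℝ) ^ d := by
    refine (hτ q (by omega)).trans (mul_le_mul_of_nonneg_left ?_ hC)
    apply Real.rpow_le_rpow hq0.le _ hd
    exact_mod_cast h2.le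
  have e2 : (1 : ℝ) / q ≤ 1 / Q := by
    apply one_div_le_one_div_of_le hQ0
    exact_mod_cast h1
  calc (q.divisors.card : ℝ) ^ E * U b s t L q / q
      = (q.divisors.card : ℝ) ^ E * U b s t L q * (1 / q) := by ring
    _ ≤ (C * (2 * Q : ℝ) ^ d) * U b s t L q * (1 / Q) := by
        apply mul_le_mul (mul_le_mul_of_nonneg_right e1 hU) e2 (by positivity)
        have : 0 ≤ C * (2 * Q : ℝ) ^ d := by positivity
        exact mul_nonneg this hU
    _ = C * (2 * Q : ℝ) ^ d / Q * U b s t L q := by ring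

/-- the small range: a dyadic block -/
lemma blockE_small (b s t E : ℕ) (hb : 2 ≤ b) (κ : ℝ) (h0 : 0 < κ) (h1 : κ < 1)
    (hp : ∀ q h a L : ℕ, 1 < q → q.Coprime (2 * b) → a.Coprime q →
      q < b ^ h → Fw b s t L L ((a : ℝ) / q) ≤ (1 - κ) ^ (L / (2 * h + 2)))
    (L j : ℕ) (hj : 1 ≤ j) :
    ∑ q ∈ (Ico (2 ^ j) (2 * 2 ^ j)).filter (fun q => q.Coprime (2 * b)),
      (q.divisors.card : ℝ) ^ E * U b s t L q / q ≤
      (2 : ℝ) ^ ((E + 1) * j + (E + 1)) * (1 - κ) ^ ((L - 1) / (2 * j + 4)) := by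
  have hk : 0 < 1 - κ := by linarith
  set Z : ℝ := (1 - κ) ^ ((L - 1) / (2 * j + 4)) with hZ
  have hZ0 : 0 < Z := by positivity
  have hterm : ∀ q ∈ (Ico (2 ^ j) (2 * 2 ^ j)).filter (fun q => q.Coprime (2 * b)),
      (q.divisors.card : ℝ) ^ E * U b s t L q / q ≤ (2 * 2 ^ j) ^ E * Z := by
    intro q hq
    rw [mem_filter, mem_Ico] at hq
    obtain ⟨⟨h2, h3⟩, h4⟩ := hq
    have h2j : 2 ^ 1 ≤ 2 ^ j := Nat.pow_le_pow_right (by norm_num) hj
    have hq1 : 1 < q := by omega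
    have hq0 : (0 : ℝ) < q := by exact_mod_cast (show 0 < q by omega)
    have hq10 : q < b ^ (j + 1) := by
      calc q < 2 * 2 ^ j := h3
        _ = 2 ^ (j + 1) := by ring
        _ ≤ b ^ (j + 1) := Nat.pow_le_pow_left hb _
    have hU : U b s t L q ≤ q * Z := by
      unfold U
      calc ∑ a ∈ (range q).filter (fun a => a.Coprime q), Fw b s t L L ((a : ℝ) / q)
          ≤ ∑ a ∈ (range q).filter (fun a => a.Coprime q), Z := by
            apply sum_le_sum
            intro a ha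
            rw [mem_filter] at ha
            have := hp q (j + 1) a L hq1 h4 ha.2 hq10
            have e : 2 * (j + 1) + 2 = 2 * j + 4 := by ring
            rw [e] at this
            refine this.trans ?_
            apply pow_le_pow_of_le_one hk.le (by linarith)
            exact Nat.div_le_div_right (Nat.sub_le L 1)
        _ = (((range q).filter (fun a => a.Coprime q)).card : ℝ) * Z := by
            rw [sum_const, nsmul_eq_mul]
        _ ≤ q * Z := by
            apply mul_le_mul_of_nonneg_right _ hZ0.le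
            have := card_filter_le (range q) (fun a => a.Coprime q)
            rw [card_range] at this
            exact_mod_cast this
    have hτ : (q.divisors.card : ℝ) ≤ 2 * 2 ^ j := by
      have e1 : q.divisors.card ≤ q := Nat.card_divisors_le_self q
      have e2 : q.divisors.card ≤ 2 * 2 ^ j := by omega
      exact_mod_cast e2
    rw [div_le_iff₀ hq0]
    calc (q.divisors.card : ℝ) ^ E * U b s t L q ≤ (2 * 2 ^ j) ^ E * (q * Z) := by
          apply mul_le_mul _ hU (U_nonneg b s t L q) (by positivity)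
          exact pow_le_pow_left₀ (by positivity) hτ E
      _ = (2 * 2 ^ j) ^ E * Z * q := by ring
  calc _ ≤ ∑ q ∈ (Ico (2 ^ j) (2 * 2 ^ j)).filter (fun q => q.Coprime (2 * b)),
        ((2 * 2 ^ j) ^ E * Z : ℝ) := sum_le_sum hterm
    _ = (((Ico (2 ^ j) (2 * 2 ^ j)).filter (fun q => q.Coprime (2 * b))).card : ℝ)
        * ((2 * 2 ^ j) ^ E * Z) := by rw [sum_const, nsmul_eq_mul]
    _ ≤ (2 * 2 ^ j) * ((2 * 2 ^ j) ^ E * Z) := by
        apply mul_le_mul_of_nonneg_right _ (by positivity)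
        have := card_filter_le (Ico (2 ^ j) (2 * 2 ^ j)) (fun q => q.Coprime (2 * b))
        rw [Nat.card_Ico] at this
        have e : 2 * 2 ^ j - 2 ^ j ≤ 2 * 2 ^ j := by omega
        exact_mod_cast this.trans e
    _ = (2 : ℝ) ^ ((E + 1) * j + (E + 1)) * Z := by
        rw [← mul_assoc, ← pow_succ', ← pow_succ', ← pow_mul]
        congr 2
        ring

/-- the sum of the `U` -/
theorem U_sumE (b s t E : ℕ) (hb : 2 ≤ b) (hP : PtW b s t) (κ : ℝ) (h0 : 0 < κ) (h1 : κ < 1)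
    (hB : BigW b s t κ) (A : ℕ) : ∀ᶠ L : ℕ in atTop,
    ∑ d ∈ (Icc 2 ⌊(b : ℝ) ^ (κ * L)⌋₊).filter (fun q => q.Coprime (2 * b)),
      (d.divisors.card : ℝ) ^ E * U b s t L d / d ≤ 1 / (L : ℝ) ^ A := by
  obtain ⟨κ', hκ0, hκ1, hp⟩ := hP
  obtain ⟨C, δ, hC, hδ, hδ1, big⟩ := hB
  obtain ⟨c1, hc1, hsmall⟩ := smallE κ' hκ0 hκ1 (A + 2) (E + 1)
  have hbR : (2 : ℝ) ≤ b := by exact_mod_cast hb
  have hBl : 0 < Real.log b := Real.log_pos (by linarith)
  obtain ⟨C1, hC1, hτ1⟩ := divisor_bound (δ / (2 * (E + 1))) (by positivity)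
  have hτ1' : ∀ n : ℕ, 1 ≤ n → (n.divisors.card : ℝ) ^ E ≤ (C1 + 1) ^ E * (n : ℝ) ^ (δ / 2) := by
    intro n hn
    have h1 := hτ1 n hn
    have hnR : (1 : ℝ) ≤ n := by exact_mod_cast hn
    have h2 : ((n : ℝ) ^ (δ / (2 * (E + 1)))) ^ E ≤ (n : ℝ) ^ (δ / 2) := by
      rw [← Real.rpow_natCast, ← Real.rpow_mul (by positivity)]
      apply Real.rpow_le_rpow_of_exponent_le hnR
      rw [div_mul_eq_mul_div, div_le_div_iff₀ (by positivity) (by norm_num)]
      nlinarith
    calc (n.divisors.card : ℝ) ^ E ≤ ((C1 + 1) * (n : ℝ) ^ (δ / (2 * (E + 1)))) ^ E := by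
          apply pow_le_pow_left₀ (by positivity)
          refine h1.trans (mul_le_mul_of_nonneg_right (by linarith) (by positivity))
      _ ≤ _ := by
          rw [mul_pow]
          exact mul_le_mul_of_nonneg_left h2 (by positivity)
  have hlarge : ∀ᶠ L : ℕ in atTop, ∀ j : ℕ, 1 ≤ j → c1 * Real.sqrt L < j → (2 : ℝ) ^ j ≤ (b : ℝ) ^ (κ * L) →
      ∑ q ∈ (Ico (2 ^ j) (2 * 2 ^ j)).filter (fun q => q.Coprime (2 * b)),
        (q.divisors.card : ℝ) ^ E * U b s t L q / q ≤ 1 / (L : ℝ) ^ (A + 2) := by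
    have hl2 : 0 < Real.log 2 := Real.log_pos (by norm_num)
    filter_upwards [dec (δ / 2 * Real.log 2 * c1) ((C1 + 1) ^ E * 2 ^ (δ / 2) * C) (by positivity)
      (by positivity) (A + 2)] with L hL j hj hcj hjD
    refine le_trans ?_ hL
    set Q : ℕ := 2 ^ j with hQ
    have hQ1 : 1 ≤ Q := Nat.one_le_two_pow
    have hQ0 : (0 : ℝ) < Q := by exact_mod_cast hQ1
    have hQr : (Q : ℝ) = 2 ^ j := by rw [hQ]; push_cast; ring
    have hpts := big L Q hQ1 (by rw [hQr]; exact hjD)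
    have hbl := blockE b s t L Q E hQ1 (δ / 2) ((C1 + 1) ^ E) (by positivity) (by positivity) hτ1'
    refine hbl.trans ?_
    have hpos : 0 ≤ (C1 + 1) ^ E * (2 * Q : ℝ) ^ (δ / 2) / Q := by positivity
    refine (mul_le_mul_of_nonneg_left hpts hpos).trans ?_
    have h1 : (C1 + 1) ^ E * (2 * Q : ℝ) ^ (δ / 2) / Q * (C * (Q : ℝ) ^ (1 - δ)) =
        (C1 + 1) ^ E * 2 ^ (δ / 2) * C * (Q : ℝ) ^ (-(δ / 2)) := by
      have h2 : (Q : ℝ) ^ (δ / 2) * (Q : ℝ) ^ (1 - δ) = (Q : ℝ) ^ (-(δ / 2)) * Q := by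
        rw [← Real.rpow_add hQ0, ← Real.rpow_add_one hQ0.ne']
        congr 1
        ring
      rw [Real.mul_rpow (by norm_num) hQ0.le]
      generalize (C1 + 1) ^ E = C2
      calc C2 * (2 ^ (δ / 2) * (Q : ℝ) ^ (δ / 2)) / Q * (C * (Q : ℝ) ^ (1 - δ))
          = C2 * 2 ^ (δ / 2) * C * ((Q : ℝ) ^ (δ / 2) * (Q : ℝ) ^ (1 - δ)) / Q := by ring
        _ = C2 * 2 ^ (δ / 2) * C * ((Q : ℝ) ^ (-(δ / 2)) * Q) / Q := by rw [h2]
        _ = _ := by field_simp
    rw [h1]
    apply mul_le_mul_of_nonneg_left _ (by positivity)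
    have h3 : (Q : ℝ) ^ (-(δ / 2)) = Real.exp (-(δ / 2 * Real.log 2 * j)) := by
      rw [Real.rpow_def_of_pos hQ0, hQr, Real.log_pow]
      congr 1
      ring
    rw [h3]
    apply Real.exp_le_exp.2
    have h4 : δ / 2 * Real.log 2 * (c1 * Real.sqrt L) ≤ δ / 2 * Real.log 2 * j :=
      mul_le_mul_of_nonneg_left hcj.le (by positivity)
    linarith
  have hLB : ∀ᶠ L : ℕ in atTop, 2 * Real.log b ≤ (L : ℝ) :=
    tendsto_natCast_atTop_atTop.eventually_ge_atTop _
  filter_upwards [hsmall, hlarge, eventually_ge_atTop 2, hLB] with L h1' h2' hL2 hLB'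
  set D : ℕ := ⌊(b : ℝ) ^ (κ * L)⌋₊ with hD
  have hLp : (2 : ℝ) ≤ L := by exact_mod_cast hL2
  have hg : ∀ q : ℕ, 0 ≤ (q.divisors.card : ℝ) ^ E * U b s t L q / q := fun q =>
    div_nonneg (mul_nonneg (by positivity) (U_nonneg b s t L q)) (Nat.cast_nonneg q)
  refine (cover (2 * b) D _ hg).trans ?_
  have hDr : (D : ℝ) ≤ (b : ℝ) ^ (κ * L) := Nat.floor_le (by positivity)
  have hterm : ∀ j ∈ Icc 1 (Nat.log 2 D),
      ∑ q ∈ (Ico (2 ^ j) (2 * 2 ^ j)).filter (fun q => q.Coprime (2 * b)),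
        (q.divisors.card : ℝ) ^ E * U b s t L q / q ≤ 1 / (L : ℝ) ^ (A + 2) := by
    intro j hj
    rw [mem_Icc] at hj
    have hD0 : D ≠ 0 := by
      intro h0
      rw [h0] at hj
      simp at hj
      omega
    have hjD : (2 : ℝ) ^ j ≤ (b : ℝ) ^ (κ * L) := by
      have e1 : 2 ^ j ≤ D :=
        (Nat.pow_le_pow_right (by norm_num) hj.2).trans (Nat.pow_log_le_self 2 hD0)
      have e2 : (2 : ℝ) ^ j ≤ D := by exact_mod_cast e1
      exact e2.trans hDr
    rcases le_or_gt (j : ℝ) (c1 * Real.sqrt L) with h | h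
    · exact (blockE_small b s t E hb κ' hκ0 hκ1 hp L j hj.1).trans (h1' j h)
    · exact h2' j hj.1 h hjD
  refine (sum_le_sum hterm).trans ?_
  rw [sum_const, nsmul_eq_mul, Nat.card_Icc, Nat.add_sub_cancel]
  have hlog : (Nat.log 2 D : ℝ) ≤ L * (2 * Real.log b) := by
    rcases Nat.eq_zero_or_pos D with h0 | h0
    · rw [h0]; simp; positivity
    have e1 : 2 ^ Nat.log 2 D ≤ D := Nat.pow_log_le_self 2 h0.ne'
    have e2 : (2 : ℝ) ^ Nat.log 2 D ≤ (b : ℝ) ^ (κ * L) := by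
      have : (2 : ℝ) ^ Nat.log 2 D ≤ D := by exact_mod_cast e1
      exact this.trans hDr
    have e3 := Real.log_le_log (by positivity) e2
    rw [Real.log_pow, Real.log_rpow (by linarith)] at e3
    have hl2 : 1 / 2 ≤ Real.log 2 := by
      have := Real.log_two_gt_d9
      linarith
    have e5 : κ * L * Real.log b ≤ 1 * L * Real.log b := by
      apply mul_le_mul_of_nonneg_right _ hBl.le
      apply mul_le_mul_of_nonneg_right h1.le (by linarith)
    have e6 : 1 * (L : ℝ) * Real.log b ≤ L * (2 * Real.log b) * Real.log 2 := by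
      have : 0 ≤ (L : ℝ) * Real.log b := by positivity
      nlinarith
    exact le_of_mul_le_mul_right (e3.trans (e5.trans e6)) (by linarith)
  calc (Nat.log 2 D : ℝ) * (1 / (L : ℝ) ^ (A + 2)) ≤ L * (2 * Real.log b) * (1 / (L : ℝ) ^ (A + 2)) :=
        mul_le_mul_of_nonneg_right hlog (by positivity)
    _ ≤ 1 / (L : ℝ) ^ A := by
        rw [mul_one_div, div_le_div_iff₀ (by positivity) (by positivity), one_mul, pow_add]
        have h0 : 0 < (L : ℝ) ^ A := by positivity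
        have : (L : ℝ) * (2 * Real.log b) ≤ L ^ 2 := by nlinarith
        nlinarith

/-- the sum of the error terms -/
theorem er_sumE {b : ℕ} (hb : 2 ≤ b) (E : ℕ) (hP : PtW b b 1) {κ : ℝ} (hκ0 : 0 < κ)
    (hκ1 : κ < 1) (hB : BigW b b 1 κ) (A : ℕ) : ∀ᶠ L : ℕ in atTop,
    ∑ q ∈ (Icc 1 ⌊(b : ℝ) ^ (κ * L)⌋₊).filter (fun q => q.Coprime (2 * b)),
      (q.divisors.card : ℝ) ^ E * er b L q ≤ (b : ℝ) ^ L / (L : ℝ) ^ A := by
  have hb0 : 0 < b := by omega
  have hbr : (0 : ℝ) < b := by exact_mod_cast hb0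
  have hb1 : (1 : ℝ) ≤ b := by exact_mod_cast hb0
  filter_upwards [U_sumE b b 1 E (by omega) hP κ hκ0 hκ1 hB (A + 1 + 2 ^ E),
    eventually_ge_atTop ((b + 1) ^ 2 ^ E)] with L hL hLb
  set D := ⌊(b : ℝ) ^ (κ * L)⌋₊ with hD
  have hLb' : ((b : ℝ) + 1) ^ 2 ^ E ≤ L := by exact_mod_cast hLb
  have hL1 : (1 : ℝ) ≤ L := by
    have : (1 : ℝ) ≤ ((b : ℝ) + 1) ^ 2 ^ E := one_le_pow₀ (by linarith)
    linarith
  have hL0 : (0 : ℝ) < L := by linarith
  have h2 := doubleE b b 1 L D E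
  have h3 := tau_pow_sum E D
  have hlog : 1 + Real.log D ≤ (b + 1) * L := by
    rcases Nat.eq_zero_or_pos D with h0 | h0
    · rw [h0]
      simp only [Nat.cast_zero, Real.log_zero, add_zero]
      nlinarith
    · have hDle : (D : ℝ) ≤ (b : ℝ) ^ (κ * L) := Nat.floor_le (by positivity)
      have hDle2 : (D : ℝ) ≤ (b : ℝ) ^ ((1 : ℝ) * L) := by
        refine hDle.trans (Real.rpow_le_rpow_of_exponent_le hb1 ?_)
        exact mul_le_mul_of_nonneg_right hκ1.le hL0.le
      have h4 : Real.log D ≤ (1 * L) * Real.log b := by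
        rw [← Real.log_rpow hbr]
        exact Real.log_le_log (by exact_mod_cast h0) hDle2
      have h5 : Real.log b ≤ b - 1 := Real.log_le_sub_one_of_pos hbr
      have h6 : (1 * L) * Real.log b ≤ (1 * L) * ((b : ℝ) - 1) :=
        mul_le_mul_of_nonneg_left h5 (by positivity)
      nlinarith [mul_pos hbr hL0]
  have hlog0 : 0 ≤ 1 + Real.log D := by
    have := Real.log_natCast_nonneg D
    linarith
  have h4 : ∑ e ∈ Icc 1 D, (e.divisors.card : ℝ) ^ E / e ≤ ((b : ℝ) + 1) ^ 2 ^ E * (L : ℝ) ^ 2 ^ E := by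
    refine h3.trans ?_
    calc (1 + Real.log D) ^ 2 ^ E ≤ (((b : ℝ) + 1) * (L : ℝ)) ^ 2 ^ E := by gcongr
      _ = ((b : ℝ) + 1) ^ 2 ^ E * (L : ℝ) ^ 2 ^ E := mul_pow _ _ _
  have hX : ((b : ℝ) * (1 : ℕ)) ^ L = (b : ℝ) ^ L := by simp
  rw [hX] at h2
  refine (show _ = _ from rfl).trans_le (h2.trans ?_)
  have hS0 : 0 ≤ ∑ e ∈ Icc 1 D, (e.divisors.card : ℝ) ^ E / e :=
    sum_nonneg fun _ _ => by positivity
  calc (b : ℝ) ^ L * ((∑ d ∈ (Icc 2 D).filter (fun q => q.Coprime (2 * b)),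
      (d.divisors.card : ℝ) ^ E * U b b 1 L d / d) *
        ∑ e ∈ Icc 1 D, (e.divisors.card : ℝ) ^ E / e)
      ≤ (b : ℝ) ^ L * ((1 / (L : ℝ) ^ (A + 1 + 2 ^ E)) * (((b : ℝ) + 1) ^ 2 ^ E * (L : ℝ) ^ 2 ^ E)) :=
        mul_le_mul_of_nonneg_left (mul_le_mul hL h4 hS0 (by positivity)) (by positivity)
    _ ≤ (b : ℝ) ^ L / (L : ℝ) ^ A := by
        generalize ((b : ℝ) + 1) ^ 2 ^ E = B at hLb'
        have h5 : (1 / (L : ℝ) ^ (A + 1 + 2 ^ E)) * (B * (L : ℝ) ^ 2 ^ E) = B / L * (1 / (L : ℝ) ^ A) := by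
          have hy : ((L : ℝ) ^ A) ≠ 0 := by positivity
          have hz : ((L : ℝ) ^ 2 ^ E) ≠ 0 := by positivity
          have hx : (L : ℝ) ≠ 0 := hL0.ne'
          rw [pow_add, pow_add, pow_one]
          generalize (L : ℝ) ^ 2 ^ E = z at hz
          generalize (L : ℝ) ^ A = y at hy
          generalize (L : ℝ) = x at hx
          field_simp
        rw [h5]
        have h6 : B / (L : ℝ) ≤ 1 := by rw [div_le_one hL0]; exact hLb'
        have h7 : (0 : ℝ) < 1 / (L : ℝ) ^ A := by positivity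
        calc (b : ℝ) ^ L * (B / L * (1 / (L : ℝ) ^ A))
            ≤ (b : ℝ) ^ L * (1 * (1 / (L : ℝ) ^ A)) := by gcongr
          _ = _ := by ring

/-- the error terms are small on average, every base, any power of the divisor function -/
theorem er_finalE {b : ℕ} (hb : 2 ≤ b) (E A : ℕ) : ∀ᶠ L : ℕ in atTop,
    ∑ q ∈ (Icc 1 ⌊(b : ℝ) ^ ((49 / 100 : ℝ) * L)⌋₊).filter (fun q => q.Coprime (2 * b)),
      (q.divisors.card : ℝ) ^ E * er b L q ≤ (b : ℝ) ^ L / (L : ℝ) ^ A := by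
  have hbR : (2 : ℝ) ≤ b := by exact_mod_cast hb
  have hb0 : (0 : ℝ) < b := by linarith
  set H : ℝ := Real.sqrt (1 / b) with hH
  have hH0 : 0 < H := Real.sqrt_pos.2 (by positivity)
  have hH2 : H ^ 2 = 1 / b := Real.sq_sqrt (by positivity)
  have hb1 : 1 / (b : ℝ) ≤ 1 := by
    rw [div_le_one hb0]
    linarith
  have hH1 : H ≤ 1 := by
    by_contra hcon
    push Not at hcon
    have h1 : 1 < H ^ 2 := one_lt_pow₀ hcon two_ne_zero
    linarith
  have hHb : 1 ≤ b * H := by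
    have h1 : (b : ℝ) * H ^ 2 = 1 := by
      rw [hH2]
      field_simp
    have h2 : H ^ 2 ≤ H := by nlinarith
    have h3 : (b : ℝ) * H ^ 2 ≤ b * H := mul_le_mul_of_nonneg_left h2 hb0.le
    linarith
  have hMaj : MajP b b 1 H (1 / H ^ 3) := majP_alt hb (by omega) le_rfl le_rfl (by omega) hH0 hH1 (by
    rw [hH2, Nat.cast_one, mul_one])
  have hκ : (b : ℝ) ^ (49 / 100 : ℝ) * H < 1 := by
    rw [hH, Real.sqrt_eq_rpow, one_div, Real.inv_rpow hb0.le]
    rw [← div_eq_mul_inv, div_lt_one (by positivity)]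
    exact Real.rpow_lt_rpow_of_exponent_lt (by linarith) (by norm_num)
  have hPt : PtW b b 1 := Pool.Agent.W571.PW.Pt.main b b 1 hb hb le_rfl rfl
  have hBig : BigW b b 1 (49 / 100) := bigW_of_majP hb (by omega) le_rfl rfl (m4_unif hb) hMaj hH0 hHb
    (by positivity) (by norm_num) hκ
  exact er_sumE hb E hPt (by norm_num) (by norm_num) hBig A

end Pool.Agent.Q26.PL
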