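import Pool.Agent.Q26.PL.H
import Pool.Agent.Q26.PL.I
import Pool.Agent.Y816.PS.H

/-!
# Almost prime values of systems of polynomials at palindromes
-/

set_option autoImplicit false

namespace Pool.Agent.Q26.PL

open Polynomial Finset Filter Topology
open Pool.Agent.H373R2.T7 Pool.Agent.H410R2.ED Pool.Agent.W123.RP Pool.Agent.W123.RU.Poly
open Pool.Agent.TH977.PW (Rough Few)
open Pool.Agent.Y816.PD (chooseJ V_low V_up rough_of few_of bound_all exists_class)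
open Pool.Agent.Y816.PS (er er_nonneg VE VE_class VE_surj pal pal_eq pal_reverse sum_lt ae ae_lt ae_out ae_top top_digit)

/-- the family of palindromes with last digit `d` and middle digit `e` -/
def fam (b N d e : ℕ) : Finset ℕ :=
  (univ : Finset (Fin (N - 1) → Fin b × Fin 1)).image (VE b N (N - 1) (d * b ^ (2 * N)) e)

lemma fam_facts {b N d e : ℕ} (hb : 2 ≤ b) (hN : 1 ≤ N) (hd : 0 < d) (hdb : d < b) (he : e < b) {n : ℕ}
    (hn : n ∈ fam b N d e) : n < b ^ (2 * N + 1) ∧ b ^ (2 * N) ≤ n ∧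
      (Nat.digits b n).reverse = Nat.digits b n ∧ n ≡ d [MOD b] ∧ (¬ 2 ∣ b → n ≡ e [MOD 2]) := by
  unfold fam at hn
  rw [mem_image] at hn
  obtain ⟨m, _, rfl⟩ := hn
  have hx : d * b ^ (2 * N) < b ^ (2 * N + 1) := by
    rw [pow_succ, mul_comm (b ^ (2 * N))]
    exact Nat.mul_lt_mul_of_pos_right hdb (by positivity)
  have hx0 : b ^ (2 * N) ≤ d * b ^ (2 * N) := Nat.le_mul_of_pos_left _ hd
  have haeq : (fun j => if j = 0 then e else Pool.Agent.Y816.PS.av b N (N - 1) (d * b ^ (2 * N)) m j) =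
      ae b N (N - 1) (d * b ^ (2 * N)) e m := rfl
  have htop : ae b N (N - 1) (d * b ^ (2 * N)) e m N = d := by
    rw [ae_out m (by omega), top_digit hb hx, Nat.mul_div_cancel _ (by positivity)]
  have halt : ∀ j, ae b N (N - 1) (d * b ^ (2 * N)) e m j < b := fun j => ae_lt hb N (N - 1) _ he m j
  have hVE : VE b N (N - 1) (d * b ^ (2 * N)) e m = pal b N (ae b N (N - 1) (d * b ^ (2 * N)) e m) := rfl
  rw [hVE]
  refine ⟨sum_lt (fun i => halt _) _, ?_, ?_, ?_, ?_⟩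
  · unfold pal
    rw [sum_range_succ]
    have h1 : N - 2 * N + (2 * N - N) = N := by omega
    rw [h1, htop]
    exact hx0.trans (Nat.le_add_left _ _)
  · exact pal_reverse hb halt (by rw [htop]; omega)
  · unfold pal
    rw [sum_range_succ']
    have h1 : N - 0 + (0 - N) = N := by omega
    rw [h1, htop, pow_zero, mul_one]
    have h2 : b ∣ ∑ k ∈ range (2 * N), ae b N (N - 1) (d * b ^ (2 * N)) e m (N - (k + 1) + (k + 1 - N)) *
        b ^ (k + 1) := dvd_sum fun k _ => dvd_mul_of_dvd_right (dvd_pow_self b (by omega)) _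
    have h3 : ∑ k ∈ range (2 * N), ae b N (N - 1) (d * b ^ (2 * N)) e m (N - (k + 1) + (k + 1 - N)) *
        b ^ (k + 1) + d ≡ 0 + d [MOD b] := Nat.ModEq.add_right d (Nat.modEq_zero_iff_dvd.2 h2)
    rwa [zero_add] at h3
  · intro h2
    have ho : Odd b := by
      rw [← Nat.not_even_iff_odd]
      exact fun h => h2 h.two_dvd
    rw [pal_eq]
    have h3 : ae b N (N - 1) (d * b ^ (2 * N)) e m 0 = e := by simp [ae]
    rw [h3]
    have h4 : 2 ∣ ∑ c ∈ range N, ae b N (N - 1) (d * b ^ (2 * N)) e m (c + 1) *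
        (b ^ (N + c + 1) + b ^ (N - 1 - c)) := by
      apply dvd_sum
      intro c _
      exact Dvd.dvd.mul_left (even_iff_two_dvd.1 (ho.pow.add_odd ho.pow)) _
    have h5 : b ^ N ≡ 1 [MOD 2] := Nat.odd_iff.1 ho.pow
    have h6 : e * b ^ N ≡ e * 1 [MOD 2] := Nat.ModEq.mul_left e h5
    have h7 := Nat.ModEq.add h6 (Nat.modEq_zero_iff_dvd.2 h4)
    rwa [mul_one, add_zero] at h7

variable {ι : Type} [Fintype ι]

/-- **Lower bound.** -/
theorem lowerP (f : ι → ℤ[X]) (hf : Sys f) :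
    ∃ r0 : ℕ, 2 ≤ r0 ∧ ∀ b : ℕ, 2 ≤ b →
      (∃ d : ℕ, 0 < d ∧ d < b ∧ ∀ p : ℕ, p.Prime → p ∣ b → ∀ i, ¬ (p : ℤ) ∣ (f i).eval (d : ℤ)) →
      ∃ c : ℝ, 0 < c ∧ ∀ᶠ N : ℕ in atTop, ∃ S : Finset ℕ,
      (∀ n ∈ S, n < b ^ (2 * N + 1) ∧ b ^ (2 * N) ≤ n ∧ (Nat.digits b n).reverse = Nat.digits b n ∧
        ∀ r : ℕ, r0 ≤ r → Rough f r n ∧ Few f r n) ∧
      c * (b : ℝ) ^ N / (N : ℝ) ^ Fintype.card ι ≤ (S.card : ℝ) := by
  classical
  obtain ⟨κ0, hκ0, hQ⟩ := exists_c f hf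
  obtain ⟨v, Cv, hv, hCv, hV⟩ := V_bounds f hf
  obtain ⟨c0, hc0, hsv⟩ := svP κ0 hκ0
  obtain ⟨B, D, hBD⟩ := bound_all f
  obtain ⟨k, hk⟩ : ∃ k, k = Fintype.card ι := ⟨_, rfl⟩
  rw [← hk] at hV ⊢
  refine ⟨3 * (64 * c0) * (D + 1) + 2, by omega, ?_⟩
  intro b hb ⟨d, hd0, hdb, hdcop⟩
  obtain ⟨m2, hm2⟩ := hf.adm 2 Nat.prime_two
  obtain ⟨e, hee⟩ : ∃ e, e = m2 % 2 := ⟨_, rfl⟩
  have heb : e < b := by
    have := Nat.mod_lt m2 (show 0 < 2 by norm_num)
    omega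
  obtain ⟨D0, hD0⟩ : ∃ D0, D0 = (range (2 * κ0 + 1)).filter (fun p => p.Prime ∧ ¬ p ∣ 2 * b) := ⟨_, rfl⟩
  have hD0p : ∀ p ∈ D0, p.Prime := fun p hp => by
    rw [hD0, mem_filter] at hp
    exact hp.2.1
  obtain ⟨n0, hn0⟩ := exists_class (Q f) hQ.per (adm f hf) D0 hD0p
  obtain ⟨M, hM⟩ : ∃ M, M = ∏ p ∈ D0, p := ⟨_, rfl⟩
  have hMpos : 0 < M := by rw [hM]; exact prod_pos fun p hp => (hD0p p hp).pos
  have hMb : M.Coprime (2 * b) := by
    rw [hM]
    apply Nat.Coprime.prod_left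
    intro p hp
    have h1 := hp
    rw [hD0, mem_filter] at h1
    exact ((hD0p p hp).coprime_iff_not_dvd).2 h1.2.2
  have hMs : ∀ p : ℕ, p.Prime → p ∣ M → p ≤ 2 * κ0 := by
    intro p hp hdv
    rw [hM] at hdv
    obtain ⟨q, hq, hdq⟩ := hp.prime.exists_mem_finset_dvd hdv
    have h1 := (Nat.prime_dvd_prime_iff_eq hp (hD0p q hq)).1 hdq
    rw [hD0, mem_filter, mem_range] at hq
    omega
  have hM0 : (0 : ℝ) < M := by exact_mod_cast hMpos
  have hb2 : (2 : ℝ) ≤ b := by exact_mod_cast hb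
  have hb0 : (0 : ℝ) < b := by linarith
  have hlb : 0 < Real.log b := Real.log_pos (by linarith)
  obtain ⟨κ, hκ⟩ : ∃ κ : ℝ, κ = v / (4 * b * M * Real.log b ^ k) := ⟨_, rfl⟩
  have hκpos : 0 < κ := by rw [hκ]; positivity
  refine ⟨κ, hκpos, ?_⟩
  obtain ⟨L1, hL1⟩ := eventually_atTop.1 (er_finalE hb κ0 (k + 2))
  rw [eventually_atTop]
  obtain ⟨K1, hK1⟩ := exists_nat_ge (b / (b * κ))
  refine ⟨max (max (L1 + 1) (4 * (16 * c0 * (M + 1)) + 2)) (max (B + 2) (K1 + 2)), fun N hN => ?_⟩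
  have g1 : L1 + 1 ≤ N := (le_max_left _ _).trans ((le_max_left _ _).trans hN)
  have g2 : 4 * (16 * c0 * (M + 1)) + 2 ≤ N := (le_max_right _ _).trans ((le_max_left _ _).trans hN)
  have g3 : B + 2 ≤ N := (le_max_left _ _).trans ((le_max_right _ _).trans hN)
  have g4 : K1 + 2 ≤ N := (le_max_right _ _).trans ((le_max_right _ _).trans hN)
  obtain ⟨K, hKN⟩ : ∃ K, N = K + 1 := ⟨N - 1, by omega⟩
  have hKpos : 0 < K := by omega
  have hKr : (0 : ℝ) < K := by exact_mod_cast hKpos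
  have hKr1 : (1 : ℝ) ≤ K := by exact_mod_cast hKpos
  have hK2' : 16 * c0 * (M + 1) ≤ K / 4 := by omega
  have hK3 : 3 ≤ K := by
    have h1 : 1 ≤ c0 * (M + 1) := Nat.mul_pos hc0 (by omega)
    have h2 : 16 * c0 * (M + 1) = 16 * (c0 * (M + 1)) := by ring
    omega
  obtain ⟨J, hJ1, hJ2, hJ3, hJ4, hJ5⟩ := chooseJ (b := b) hb hc0 hK2'
  have hK5 : 1 / κ ≤ K := by
    have h1 : b / (b * κ) = 1 / κ := by field_simp
    rw [h1] at hK1
    have h2 : (K1 : ℝ) ≤ K := by exact_mod_cast (by omega : K1 ≤ K)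
    linarith
  have hHr := hL1 K (by omega)
  obtain ⟨Y, hY⟩ : ∃ Y : ℕ, Y = ⌊(b : ℝ) ^ ((49 / 100 : ℝ) * K)⌋₊ := ⟨_, rfl⟩
  rw [← hY] at hHr
  have hYle : M * (2 ^ 2 ^ J) ^ c0 ≤ Y := by
    refine hJ1.trans ?_
    rw [hY]
    apply Nat.le_floor
    push_cast
    rw [← Real.rpow_natCast]
    apply Real.rpow_le_rpow_of_exponent_le (by linarith)
    have : ((K / 4 : ℕ) : ℝ) ≤ (K : ℝ) / 4 := Nat.cast_div_le
    linarith
  have hmain := (hsv b (fam b N d e) ((b : ℝ) ^ K) (er b K) (by positivity) (er_nonneg b K) (fun q h hq => by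
      have h1 := VE_class (b := b) (N := N) (L := N - 1) (x := d * b ^ (2 * N)) e hb (by omega) q h hq
      have h2 : N - 1 = K := by omega
      unfold fam
      convert h1 using 3 <;> rw [h2]) M hMpos hMb hMs (Q f) hQ n0 J Y hYle).1
  obtain ⟨S, hS⟩ : ∃ S, S = (fam b N d e).filter (fun n => n % M = n0 % M ∧
    ∀ l ∈ Pr κ0 J, ¬ l ∣ b → ¬ Q f l n) := ⟨_, rfl⟩
  rw [← hS] at hmain
  refine ⟨S, ?_, ?_⟩
  · -- no prime factor below the sifting limit
    intro n hn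
    have hnf : n ∈ fam b N d e := by
      rw [hS, mem_filter] at hn
      exact hn.1
    obtain ⟨f1, f2, f3, f4, f5⟩ := fam_facts hb (by omega) hd0 hdb heb hnf
    have hno : ∀ p : ℕ, p.Prime → p < 2 ^ 2 ^ J → ¬ Q f p n := by
      intro p hp hpy hq
      rw [hS, mem_filter] at hn
      obtain ⟨hn1, hn2, hn3⟩ := hn
      by_cases hpb : p ∣ b
      · have h2 : n % p = d % p := f4.of_dvd hpb
        have h3 : Q f p d := by
          rw [hQ.per, ← h2, ← hQ.per]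
          exact hq
        obtain ⟨i, hi⟩ := h3
        exact hdcop p hp hpb i hi
      · by_cases hp2 : p = 2
        · subst hp2
          have h2 : n % 2 = m2 % 2 := by
            have h3 : n % 2 = e % 2 := f5 hpb
            rw [h3, hee, Nat.mod_mod]
          have h3 : Q f 2 m2 := by
            rw [hQ.per, ← h2, ← hQ.per]
            exact hq
          obtain ⟨i, hi⟩ := h3
          exact hm2 i hi
        · have hp2b : ¬ p ∣ 2 * b := by
            intro h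
            rcases (Nat.Prime.dvd_mul hp).1 h with h' | h'
            · exact hp2 ((Nat.prime_dvd_prime_iff_eq hp Nat.prime_two).1 h')
            · exact hpb h'
          by_cases hpk : p ≤ 2 * κ0
          · have hpD : p ∈ D0 := by
              rw [hD0, mem_filter, mem_range]
              exact ⟨by omega, hp, hp2b⟩
            have hpM : p ∣ M := by
              rw [hM]
              exact dvd_prod_of_mem (fun p => p) hpD
            apply hn0 p hpD
            rw [hQ.per, ← Nat.mod_mod_of_dvd n0 hpM, ← hn2, Nat.mod_mod_of_dvd n hpM, ← hQ.per]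
            exact hq
          · refine hn3 p ?_ hpb hq
            unfold Pr
            rw [mem_filter, mem_range]
            exact ⟨hpy, hp, by omega⟩
    have hBK : B ≤ b ^ (2 * N + 1) := by
      have h1 : 2 * N + 1 < b ^ (2 * N + 1) := Nat.lt_pow_self (by omega)
      omega
    have hbN : b ^ (2 * N + 1) ≤ (2 ^ 2 ^ J) ^ (3 * (64 * c0)) := by
      calc b ^ (2 * N + 1) ≤ b ^ (3 * K) := Nat.pow_le_pow_right (by omega) (by omega)
        _ = (b ^ K) ^ 3 := by rw [mul_comm, pow_mul]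
        _ ≤ ((2 ^ 2 ^ J) ^ (64 * c0)) ^ 3 := Nat.pow_le_pow_left hJ3 3
        _ = _ := by rw [← pow_mul]; congr 1; ring
    refine ⟨f1, f2, f3, fun r hr => ?_⟩
    have hr1 : 3 * (64 * c0) ≤ r := by
      have : 3 * (64 * c0) * (D + 1) = 3 * (64 * c0) * D + 3 * (64 * c0) := by ring
      omega
    exact ⟨rough_of f f1 hbN hr1 (by omega) (by omega) hno,
      few_of f hBD f1 hBK hbN ((Nat.le_add_right _ 2).trans hr) (by omega) hno⟩
  · -- the count
    refine le_trans ?_ hmain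
    have hy3 : 3 ≤ 2 ^ 2 ^ J := by omega
    have h1 := (hV (2 ^ 2 ^ J) hy3).1
    have h2 := V_low (Q f) (adm f hf) κ0 b J
    have hlogy : Real.log ((2 ^ 2 ^ J : ℕ) : ℝ) ≤ K * Real.log b := by
      have h3 : 2 ^ 2 ^ J ≤ b ^ K := by
        calc 2 ^ 2 ^ J ≤ (2 ^ 2 ^ J) ^ (4 * c0) := Nat.le_self_pow (by omega) _
          _ ≤ b ^ (K / 4) := hJ4
          _ ≤ b ^ K := Nat.pow_le_pow_right (by omega) (Nat.div_le_self _ _)
      have h4 : ((2 ^ 2 ^ J : ℕ) : ℝ) ≤ (b : ℝ) ^ K := by exact_mod_cast h3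
      rw [← Real.log_pow]
      exact Real.log_le_log (by positivity) h4
    have hlogy0 : 0 < Real.log ((2 ^ 2 ^ J : ℕ) : ℝ) :=
      Real.log_pos (by exact_mod_cast (by omega : 1 < 2 ^ 2 ^ J))
    have h5 : v / (K * Real.log b) ^ k ≤
        ∏ l ∈ (Pr κ0 J).filter (fun l => ¬ l ∣ b), (1 - (nuB (Q f) l : ℝ) / l) := by
      refine le_trans ?_ (h1.trans h2)
      apply div_le_div_of_nonneg_left hv.le (by positivity)
      exact pow_le_pow_left₀ hlogy0.le hlogy k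
    have h6 : 2 * b * (κ * (b : ℝ) ^ K / (K : ℝ) ^ k) ≤ (b : ℝ) ^ K / M / 2 *
        (∏ l ∈ (Pr κ0 J).filter (fun l => ¬ l ∣ b), (1 - (nuB (Q f) l : ℝ) / l)) := by
      calc 2 * b * (κ * (b : ℝ) ^ K / (K : ℝ) ^ k) = (b : ℝ) ^ K / M / 2 * (v / (K * Real.log b) ^ k) := by
            rw [hκ, mul_pow]
            field_simp
            ring
        _ ≤ _ := mul_le_mul_of_nonneg_left h5 (by positivity)
    have h7 : (2 : ℝ) ^ J * ∑ q ∈ (Icc 1 Y).filter (fun q => q.Coprime (2 * b)),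
        (q.divisors.card : ℝ) ^ κ0 * er b K q ≤ b * (κ * (b : ℝ) ^ K / (K : ℝ) ^ k) := by
      have h8 : ((2 : ℝ) ^ J) ≤ b * K := by exact_mod_cast hJ5
      have h80 : 0 ≤ ∑ q ∈ (Icc 1 Y).filter (fun q => q.Coprime (2 * b)),
        (q.divisors.card : ℝ) ^ κ0 * er b K q := sum_nonneg fun q _ => mul_nonneg (by positivity) (er_nonneg _ _ _)
      calc (2 : ℝ) ^ J * ∑ q ∈ (Icc 1 Y).filter (fun q => q.Coprime (2 * b)),
        (q.divisors.card : ℝ) ^ κ0 * er b K q ≤ (b * K) * ((b : ℝ) ^ K / (K : ℝ) ^ (k + 2)) :=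
            mul_le_mul h8 hHr h80 (by positivity)
        _ = b * ((1 / K) * ((b : ℝ) ^ K / (K : ℝ) ^ k)) := by
            rw [pow_add]
            field_simp
        _ ≤ b * (κ * ((b : ℝ) ^ K / (K : ℝ) ^ k)) := by
            have h9 : 1 / (K : ℝ) ≤ κ := by
              rw [div_le_iff₀ hKr]
              rw [div_le_iff₀ hκpos] at hK5
              linarith
            gcongr
        _ = _ := by ring
    have h10 : κ * (b : ℝ) ^ N / (N : ℝ) ^ k ≤ b * (κ * (b : ℝ) ^ K / (K : ℝ) ^ k) := by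
      rw [hKN, pow_succ]
      have h11 : (K : ℝ) ^ k ≤ ((K + 1 : ℕ) : ℝ) ^ k := by
        apply pow_le_pow_left₀ hKr.le
        push_cast
        linarith
      calc κ * ((b : ℝ) ^ K * b) / ((K + 1 : ℕ) : ℝ) ^ k ≤ κ * ((b : ℝ) ^ K * b) / (K : ℝ) ^ k :=
            div_le_div_of_nonneg_left (by positivity) (by positivity) h11
        _ = _ := by ring
    have h12 : 2 * b * (κ * (b : ℝ) ^ K / (K : ℝ) ^ k) =
        b * (κ * (b : ℝ) ^ K / (K : ℝ) ^ k) + b * (κ * (b : ℝ) ^ K / (K : ℝ) ^ k) := by ring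
    linarith

end Pool.Agent.Q26.PL
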