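import Pool.Agent.Q26.PL.J
import Pool.Agent.W139.PX.G1

/-!
# Values of systems of polynomials at palindromes: upper bound and transfer to all `x`
-/

set_option autoImplicit false

namespace Pool.Agent.Q26.PL

open Polynomial Finset Filter Topology
open Pool.Agent.H373R2.T7 Pool.Agent.H410R2.ED Pool.Agent.W123.RP Pool.Agent.W123.RU.Poly
open Pool.Agent.TH977.PW (Rough Few)
open Pool.Agent.Y816.PD (chooseJ V_low V_up rough_of few_of bound_all exists_class)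
open Pool.Agent.Y816.PS (er er_nonneg VE VE_class VE_surj pal pal_eq pal_reverse sum_lt ae ae_lt ae_out ae_top top_digit)

variable {ι : Type} [Fintype ι]

/-- **Upper bound.** -/
theorem upperP (f : ι → ℤ[X]) (hf : Sys f) {b : ℕ} (hb : 2 ≤ b) {r : ℕ} (hr : 1 ≤ r) :
    ∃ C : ℝ, 0 < C ∧ ∀ᶠ N : ℕ in atTop, ∀ S : Finset ℕ,
      (∀ n ∈ S, n < b ^ (2 * N + 1) ∧ b ^ (2 * N) ≤ n ∧ (Nat.digits b n).reverse = Nat.digits b n ∧
        Rough f r n) →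
      (S.card : ℝ) ≤ C * (b : ℝ) ^ N / (N : ℝ) ^ Fintype.card ι := by
  classical
  obtain ⟨κ0, hκ0, hQ⟩ := exists_c f hf
  obtain ⟨v, Cv, hv, hCv, hV⟩ := V_bounds f hf
  obtain ⟨c0, hc0, hsv⟩ := svP κ0 hκ0
  obtain ⟨v1, hv1, hVup⟩ := V_up (Q f) (adm f hf) κ0 b hκ0 (by omega)
  obtain ⟨k, hk⟩ : ∃ k, k = Fintype.card ι := ⟨_, rfl⟩
  rw [← hk] at hV ⊢
  have hb2 : (2 : ℝ) ≤ b := by exact_mod_cast hb
  have hb0 : (0 : ℝ) < b := by linarith
  have hlb : 0 < Real.log b := Real.log_pos (by linarith)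
  obtain ⟨E, hE⟩ : ∃ E, E = c0 * r := ⟨_, rfl⟩
  have hE1 : 1 ≤ E := by rw [hE]; exact Nat.mul_pos hc0 hr
  have hER : (0 : ℝ) < E := by exact_mod_cast hE1
  have hc0E : c0 ≤ E := by rw [hE]; exact Nat.le_mul_of_pos_right _ hr
  have hrE : r ≤ E := by rw [hE]; exact Nat.le_mul_of_pos_left _ hc0
  obtain ⟨Z, hZ⟩ : ∃ Z : ℝ, Z = 2 * (Cv * (64 * E) ^ k / (v1 * Real.log b ^ k)) + 1 := ⟨_, rfl⟩
  have hZ0 : 0 < Z := by rw [hZ]; positivity
  refine ⟨b ^ 2 * Z * 2 ^ k, by positivity, ?_⟩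
  obtain ⟨L1, hL1⟩ := eventually_atTop.1 (er_finalE hb κ0 k)
  rw [eventually_atTop]
  refine ⟨max (L1 + 1) (4 * (16 * E * 2) + 2), fun N hN S hS => ?_⟩
  have g1 : L1 + 1 ≤ N := (le_max_left _ _).trans hN
  have g2 : 4 * (16 * E * 2) + 2 ≤ N := (le_max_right _ _).trans hN
  obtain ⟨K, hKN⟩ : ∃ K, N = K + 1 := ⟨N - 1, by omega⟩
  have hKpos : 0 < K := by omega
  have hKr : (0 : ℝ) < K := by exact_mod_cast hKpos
  have hK2' : 16 * E * (1 + 1) ≤ K / 4 := by omega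
  obtain ⟨J, hJ1, hJ2, hJ3, hJ4, hJ5⟩ := chooseJ (b := b) hb hE1 hK2'
  have hHr := hL1 K (by omega)
  obtain ⟨Y, hY⟩ : ∃ Y : ℕ, Y = ⌊(b : ℝ) ^ ((49 / 100 : ℝ) * K)⌋₊ := ⟨_, rfl⟩
  rw [← hY] at hHr
  have hy1 : 1 ≤ 2 ^ 2 ^ J := by omega
  have hYle : 1 * (2 ^ 2 ^ J) ^ c0 ≤ Y := by
    have h0 : 1 * (2 ^ 2 ^ J) ^ c0 ≤ b ^ (K / 4) := by
      rw [one_mul]
      rw [one_mul] at hJ1
      exact (Nat.pow_le_pow_right hy1 hc0E).trans hJ1
    refine h0.trans ?_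
    rw [hY]
    apply Nat.le_floor
    push_cast
    rw [← Real.rpow_natCast]
    apply Real.rpow_le_rpow_of_exponent_le (by linarith)
    have : ((K / 4 : ℕ) : ℝ) ≤ (K : ℝ) / 4 := Nat.cast_div_le
    linarith
  -- each family
  have hfam : ∀ d e : ℕ, (((fam b N d e).filter (fun n => n % 1 = 0 % 1 ∧
      ∀ l ∈ Pr κ0 J, ¬ l ∣ b → ¬ Q f l n)).card : ℝ) ≤ Z * ((b : ℝ) ^ K / (K : ℝ) ^ k) := by
    intro d e
    have hmain := (hsv b (fam b N d e) ((b : ℝ) ^ K) (er b K) (by positivity) (er_nonneg b K) (fun q h hq => by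
      have h1 := VE_class (b := b) (N := N) (L := N - 1) (x := d * b ^ (2 * N)) e hb (by omega) q h hq
      have h2 : N - 1 = K := by omega
      unfold fam
      convert h1 using 3 <;> rw [h2]) 1 one_pos (Nat.coprime_one_left _) (fun p hp hd => by
        have := hp.one_lt
        have := Nat.le_of_dvd one_pos hd
        omega) (Q f) hQ 0 J Y hYle).2
    refine hmain.trans ?_
    have hy3 : 3 ≤ 2 ^ 2 ^ J := by omega
    have h1 := (hV (2 ^ 2 ^ J) hy3).2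
    have h2 := hVup J
    have hlogy : K * Real.log b ≤ 64 * E * Real.log ((2 ^ 2 ^ J : ℕ) : ℝ) := by
      have h4 : (b : ℝ) ^ K ≤ ((2 ^ 2 ^ J : ℕ) : ℝ) ^ (64 * E) := by exact_mod_cast hJ3
      have h5 := Real.log_le_log (by positivity) h4
      rw [Real.log_pow, Real.log_pow] at h5
      push_cast at h5 ⊢
      linarith
    have hlogy0 : 0 < Real.log ((2 ^ 2 ^ J : ℕ) : ℝ) :=
      Real.log_pos (by exact_mod_cast (by omega : 1 < 2 ^ 2 ^ J))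
    have h5 : ∏ l ∈ (Pr κ0 J).filter (fun l => ¬ l ∣ b), (1 - (nuB (Q f) l : ℝ) / l) ≤
        Cv * (64 * E) ^ k / (v1 * Real.log b ^ k) / (K : ℝ) ^ k := by
      have h6 : v1 * ∏ l ∈ (Pr κ0 J).filter (fun l => ¬ l ∣ b), (1 - (nuB (Q f) l : ℝ) / l) ≤
          Cv / Real.log ((2 ^ 2 ^ J : ℕ) : ℝ) ^ k := h2.trans h1
      have h7 : Cv / Real.log ((2 ^ 2 ^ J : ℕ) : ℝ) ^ k ≤ Cv * (64 * E) ^ k / (K * Real.log b) ^ k := by
        rw [div_le_div_iff₀ (by positivity) (by positivity)]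
        have h8 : (K * Real.log b) ^ k ≤ (64 * E * Real.log ((2 ^ 2 ^ J : ℕ) : ℝ)) ^ k :=
          pow_le_pow_left₀ (by positivity) hlogy k
        calc Cv * (K * Real.log b) ^ k ≤ Cv * (64 * E * Real.log ((2 ^ 2 ^ J : ℕ) : ℝ)) ^ k :=
              mul_le_mul_of_nonneg_left h8 hCv.le
          _ = _ := by rw [mul_pow (64 * (E : ℝ))]; ring
      have h9 := h6.trans h7
      rw [mul_comm v1, ← le_div_iff₀ hv1] at h9
      refine h9.trans (le_of_eq ?_)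
      rw [mul_pow (K : ℝ)]
      field_simp
    rw [Nat.cast_one, div_one]
    have h10 : 2 * (b : ℝ) ^ K * (∏ l ∈ (Pr κ0 J).filter (fun l => ¬ l ∣ b), (1 - (nuB (Q f) l : ℝ) / l)) ≤
        2 * (b : ℝ) ^ K * (Cv * (64 * E) ^ k / (v1 * Real.log b ^ k) / (K : ℝ) ^ k) :=
      mul_le_mul_of_nonneg_left h5 (by positivity)
    have h11 : Z * ((b : ℝ) ^ K / (K : ℝ) ^ k) =
        2 * (b : ℝ) ^ K * (Cv * (64 * E) ^ k / (v1 * Real.log b ^ k) / (K : ℝ) ^ k) + (b : ℝ) ^ K / (K : ℝ) ^ k := by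
      rw [hZ]
      ring
    rw [h11]
    linarith
  -- covering
  have hcov : S ⊆ (range b ×ˢ range b).biUnion (fun x => (fam b N x.1 x.2).filter (fun n => n % 1 = 0 % 1 ∧
      ∀ l ∈ Pr κ0 J, ¬ l ∣ b → ¬ Q f l n)) := by
    intro n hn
    obtain ⟨f1, f2, f3, f4⟩ := hS n hn
    obtain ⟨d, hd⟩ : ∃ d, d = n / b ^ (2 * N) := ⟨_, rfl⟩
    have hdb : d < b := by
      rw [hd, Nat.div_lt_iff_lt_mul (by positivity)]
      rw [pow_succ] at f1
      linarith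
    rw [mem_biUnion]
    refine ⟨(d, n / b ^ N % b), ?_, ?_⟩
    · rw [mem_product, mem_range, mem_range]
      exact ⟨hdb, Nat.mod_lt _ (by omega)⟩
    · rw [mem_filter]
      refine ⟨?_, by rw [Nat.mod_one], ?_⟩
      · simp only
        unfold fam
        rw [mem_image]
        have hx : n / b ^ (N + (N - 1) + 1) = (d * b ^ (2 * N)) / b ^ (N + (N - 1) + 1) := by
          have h1 : N + (N - 1) + 1 = 2 * N := by omega
          rw [h1, Nat.mul_div_cancel _ (by positivity), hd]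
        exact ⟨_, mem_univ _, (VE_surj hb f2 f1 f3 hx).symm⟩
      · intro l hl _ hq
        obtain ⟨i, hi⟩ := hq
        unfold Pr at hl
        rw [mem_filter, mem_range] at hl
        have h1 := f4 i l hl.2.1 hi
        have hr0 : (0 : ℝ) < r := by exact_mod_cast hr
        have h2 : (((2 ^ 2 ^ J : ℕ) : ℝ)) ≤ (n : ℝ) ^ (1 / (r : ℝ)) := by
          have h3 : (2 ^ 2 ^ J) ^ r ≤ n := by
            calc (2 ^ 2 ^ J) ^ r ≤ (2 ^ 2 ^ J) ^ (4 * E) := Nat.pow_le_pow_right hy1 (by omega)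
              _ ≤ b ^ (K / 4) := hJ4
              _ ≤ b ^ (2 * N) := Nat.pow_le_pow_right (by omega) (by omega)
              _ ≤ n := f2
          have h4 : (((2 ^ 2 ^ J : ℕ) : ℝ)) ^ r ≤ (n : ℝ) := by exact_mod_cast h3
          calc (((2 ^ 2 ^ J : ℕ) : ℝ)) = ((((2 ^ 2 ^ J : ℕ) : ℝ)) ^ r) ^ (1 / (r : ℝ)) := by
                rw [← Real.rpow_natCast, ← Real.rpow_mul (Nat.cast_nonneg _), mul_one_div_cancel hr0.ne',
                  Real.rpow_one]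
            _ ≤ _ := Real.rpow_le_rpow (by positivity) h4 (by positivity)
        have h5 : (l : ℝ) < ((2 ^ 2 ^ J : ℕ) : ℝ) := by exact_mod_cast hl.1
        linarith
  have hcard : (S.card : ℝ) ≤ (b : ℝ) ^ 2 * (Z * ((b : ℝ) ^ K / (K : ℝ) ^ k)) := by
    have h1 : (S.card : ℝ) ≤ ∑ x ∈ range b ×ˢ range b, (((fam b N x.1 x.2).filter (fun n => n % 1 = 0 % 1 ∧
      ∀ l ∈ Pr κ0 J, ¬ l ∣ b → ¬ Q f l n)).card : ℝ) := by
      exact_mod_cast (card_le_card hcov).trans card_biUnion_le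
    refine h1.trans ((sum_le_sum fun x _ => hfam x.1 x.2).trans (le_of_eq ?_))
    rw [sum_const, card_product, card_range, nsmul_eq_mul]
    push_cast
    ring
  refine hcard.trans ?_
  rw [hKN, pow_succ (b : ℝ) K]
  have h11 : ((K + 1 : ℕ) : ℝ) ^ k ≤ 2 ^ k * (K : ℝ) ^ k := by
    rw [← mul_pow]
    apply pow_le_pow_left₀ (by positivity)
    push_cast
    have : (1 : ℝ) ≤ K := by exact_mod_cast hKpos
    linarith
  have h12 : (b : ℝ) ^ K / (K : ℝ) ^ k ≤ 2 ^ k * ((b : ℝ) ^ K / ((K + 1 : ℕ) : ℝ) ^ k) := by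
    rw [← mul_div_assoc, div_le_div_iff₀ (by positivity) (by positivity)]
    calc (b : ℝ) ^ K * ((K + 1 : ℕ) : ℝ) ^ k ≤ (b : ℝ) ^ K * (2 ^ k * (K : ℝ) ^ k) :=
          mul_le_mul_of_nonneg_left h11 (by positivity)
      _ = _ := by ring
  calc (b : ℝ) ^ 2 * (Z * ((b : ℝ) ^ K / (K : ℝ) ^ k))
      ≤ (b : ℝ) ^ 2 * (Z * (2 ^ k * ((b : ℝ) ^ K / ((K + 1 : ℕ) : ℝ) ^ k))) := by gcongr
    _ ≤ ((b : ℝ) ^ 2 * (Z * (2 ^ k * ((b : ℝ) ^ K / ((K + 1 : ℕ) : ℝ) ^ k)))) * b :=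
        le_mul_of_one_le_right (by positivity) (by linarith)
    _ = _ := by ring

/-- growth of a polynomial -/
lemma growth (g : ℤ[X]) (hdeg : 0 < g.natDegree) (hlead : 0 < g.leadingCoeff) :
    ∀ᶠ n : ℕ in atTop, (n : ℝ) ^ (1 / ((2 : ℕ) : ℝ)) < ((g.eval (n : ℤ) : ℤ) : ℝ) := by
  obtain ⟨P, hP⟩ : ∃ P : ℝ[X], P = g.map (Int.castRingHom ℝ) := ⟨_, rfl⟩
  have hinj : Function.Injective (Int.castRingHom ℝ) := RingHom.injective_int _
  have hd : P.natDegree = g.natDegree := by rw [hP]; exact natDegree_map_eq_of_injective hinj g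
  have hl : P.leadingCoeff = (g.leadingCoeff : ℝ) := by
    rw [hP, leadingCoeff_map_of_injective hinj]
    rfl
  have hl1 : (1 : ℝ) ≤ P.leadingCoeff := by
    rw [hl]
    exact_mod_cast hlead
  have hequiv := P.isEquivalent_atTop_lead
  have h1 := hequiv.isLittleO.def (show (0 : ℝ) < 1 / 2 by norm_num)
  have h2 : ∀ᶠ n : ℕ in atTop, ‖P.eval (n : ℝ) - P.leadingCoeff * (n : ℝ) ^ P.natDegree‖ ≤
      1 / 2 * ‖P.leadingCoeff * (n : ℝ) ^ P.natDegree‖ := tendsto_natCast_atTop_atTop.eventually h1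
  filter_upwards [h2, eventually_gt_atTop 4] with n h3 h4
  have hn4 : (4 : ℝ) < n := by exact_mod_cast h4
  have hev : P.eval (n : ℝ) = ((g.eval (n : ℤ) : ℤ) : ℝ) := by
    rw [hP, eval_map, eval₂_eq_sum_range, eval_eq_sum_range]
    push_cast
    rfl
  have hpow : (n : ℝ) ≤ (n : ℝ) ^ P.natDegree := by
    rw [hd]
    exact le_self_pow₀ (by linarith) (by omega)
  have hpos : 0 ≤ P.leadingCoeff * (n : ℝ) ^ P.natDegree := by positivity
  rw [Real.norm_of_nonneg hpos, Real.norm_eq_abs] at h3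
  have h5 := (abs_le.1 h3).1
  have h6 : (n : ℝ) ≤ P.leadingCoeff * (n : ℝ) ^ P.natDegree := by nlinarith
  have h7 : (n : ℝ) / 2 ≤ P.eval (n : ℝ) := by linarith
  rw [← hev]
  refine lt_of_lt_of_le ?_ h7
  have h8 : (n : ℝ) ^ (1 / ((2 : ℕ) : ℝ)) = Real.sqrt n := by
    rw [Real.sqrt_eq_rpow]
    norm_num
  rw [h8]
  rw [Real.sqrt_lt' (by linarith)]
  nlinarith

/-- **Upper bound for primes.** -/
theorem upperPrimes (f : ι → ℤ[X]) (hf : Sys f) {b : ℕ} (hb : 2 ≤ b) :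
    ∃ C : ℝ, 0 < C ∧ ∀ᶠ N : ℕ in atTop, ∀ S : Finset ℕ,
      (∀ n ∈ S, n < b ^ (2 * N + 1) ∧ b ^ (2 * N) ≤ n ∧ (Nat.digits b n).reverse = Nat.digits b n ∧
        ∀ i, ((f i).eval (n : ℤ)).natAbs.Prime) →
      (S.card : ℝ) ≤ C * (b : ℝ) ^ N / (N : ℝ) ^ Fintype.card ι := by
  obtain ⟨C, hC, h⟩ := upperP f hf hb (r := 2) (by norm_num)
  refine ⟨C, hC, ?_⟩
  have hgr : ∀ᶠ n : ℕ in atTop, ∀ i, (n : ℝ) ^ (1 / ((2 : ℕ) : ℝ)) < (((f i).eval (n : ℤ) : ℤ) : ℝ) := by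
    rw [eventually_all]
    exact fun i => growth (f i) (hf.deg i) (hf.lead i)
  obtain ⟨n1, hn1⟩ := eventually_atTop.1 hgr
  filter_upwards [h, eventually_ge_atTop n1] with N hN hN1 S hS
  apply hN S
  intro n hn
  obtain ⟨f1, f2, f3, f4⟩ := hS n hn
  refine ⟨f1, f2, f3, fun i p hp hd => ?_⟩
  have h1 : N < b ^ (2 * N) := by
    calc N ≤ 2 * N := by omega
      _ < b ^ (2 * N) := Nat.lt_pow_self (by omega)
  have h2 := hn1 n (by omega) i
  have h3 : p ∣ ((f i).eval (n : ℤ)).natAbs := Int.natCast_dvd.1 hd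
  have h4 := (Nat.prime_dvd_prime_iff_eq hp (f4 i)).1 h3
  have h5 : (((f i).eval (n : ℤ) : ℤ) : ℝ) ≤ ((((f i).eval (n : ℤ)).natAbs : ℕ) : ℝ) := by
    rw [Nat.cast_natAbs, Int.cast_abs]
    exact le_abs_self _
  rw [h4]
  linarith

/-- transfer to all `x` -/
theorem to_xk {b k : ℕ} (hb : 2 ≤ b) (P : ℕ → Prop) {c : ℝ} (hc : 0 < c)
    (h : ∀ᶠ N : ℕ in atTop, ∃ S : Finset ℕ, (∀ n ∈ S, n < b ^ (2 * N + 1) ∧ b ^ (2 * N) ≤ n ∧
      (Nat.digits b n).reverse = Nat.digits b n ∧ P n) ∧ c * (b : ℝ) ^ N / (N : ℝ) ^ k ≤ (S.card : ℝ)) :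
    ∃ c' : ℝ, 0 < c' ∧ ∀ᶠ x : ℕ in atTop, ∀ G : Finset ℕ, (∀ n : ℕ, n ∈ Icc 1 x →
        (Nat.digits b n).reverse = Nat.digits b n → P n → n ∈ G) →
      c' * (((Icc 1 x).filter (fun n => (Nat.digits b n).reverse = Nat.digits b n)).card : ℝ) /
        Real.log x ^ k ≤ (G.card : ℝ) := by
  have hb1 : (1 : ℝ) < b := by exact_mod_cast (by omega : 1 < b)
  have hb0 : (0 : ℝ) < b := by linarith
  have hlb : 0 < Real.log b := Real.log_pos hb1
  rw [eventually_atTop] at h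
  obtain ⟨N0, hN0⟩ := h
  refine ⟨c * Real.log b ^ k / (4 * b ^ 2), by positivity, ?_⟩
  filter_upwards [eventually_ge_atTop (b ^ (2 * (N0 + 10) + 3))] with x hx
  intro G hG
  set N := (Nat.log b x - 1) / 2 with hN
  have hx0 : x ≠ 0 := by
    have : 0 < b ^ (2 * (N0 + 10) + 3) := by positivity
    omega
  have hlog : 2 * (N0 + 10) + 3 ≤ Nat.log b x := Nat.le_log_of_pow_le (by omega) hx
  have hNN : N0 + 10 ≤ N := by omega
  have h1 : b ^ (2 * N + 1) ≤ x :=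
    (Nat.pow_le_pow_right (by omega) (by omega : 2 * N + 1 ≤ Nat.log b x)).trans (Nat.pow_log_le_self b hx0)
  have h2 : x < b ^ (2 * N + 3) :=
    (Nat.lt_pow_succ_log_self (by omega) x).trans_le (Nat.pow_le_pow_right (by omega) (by omega))
  obtain ⟨S, hS, h3⟩ := hN0 N (by omega)
  have hN0' : (0 : ℝ) < N := by exact_mod_cast (by omega : 0 < N)
  have h4 : (S.card : ℝ) ≤ (G.card : ℝ) := by
    rw [Nat.cast_le]
    apply card_le_card
    intro n hn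
    obtain ⟨g1, g2, g3, g4⟩ := hS n hn
    refine hG n ?_ g3 g4
    rw [mem_Icc]
    refine ⟨?_, by omega⟩
    have : 0 < b ^ (2 * N) := by positivity
    omega
  refine le_trans ?_ (h3.trans h4)
  have h5 : (((Icc 1 x).filter (fun n => (Nat.digits b n).reverse = Nat.digits b n)).card : ℝ) ≤
      4 * (b : ℝ) ^ (N + 2) := by
    exact_mod_cast Pool.Agent.W139.PX.card_pal_le hb N x h2
  have h6 : (N : ℝ) * Real.log b ≤ Real.log x := by
    have e1 : ((b : ℝ)) ^ N ≤ x := by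
      have : b ^ N ≤ b ^ (2 * N + 1) := Nat.pow_le_pow_right (by omega) (by omega)
      exact_mod_cast this.trans h1
    have e2 := Real.log_le_log (by positivity) e1
    rwa [Real.log_pow] at e2
  have h7 : 0 < (N : ℝ) * Real.log b := by positivity
  have hlx : 0 < Real.log x := by linarith
  have h8 : ((N : ℝ) * Real.log b) ^ k ≤ Real.log x ^ k := pow_le_pow_left₀ h7.le h6 k
  rw [div_le_div_iff₀ (by positivity) (by positivity)]
  calc c * Real.log b ^ k / (4 * b ^ 2) *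
        (((Icc 1 x).filter (fun n => (Nat.digits b n).reverse = Nat.digits b n)).card : ℝ) * (N : ℝ) ^ k
      ≤ c * Real.log b ^ k / (4 * b ^ 2) * (4 * (b : ℝ) ^ (N + 2)) * (N : ℝ) ^ k := by gcongr
    _ = c * (b : ℝ) ^ N * (N * Real.log b) ^ k := by
        rw [pow_add, mul_pow]
        field_simp
    _ ≤ c * (b : ℝ) ^ N * Real.log x ^ k := mul_le_mul_of_nonneg_left h8 (by positivity)

/-- the lower bound for all `x` -/
theorem lowerX (f : ι → ℤ[X]) (hf : Sys f) :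
    ∃ r0 : ℕ, 2 ≤ r0 ∧ ∀ b : ℕ, 2 ≤ b →
      (∃ d : ℕ, 0 < d ∧ d < b ∧ ∀ p : ℕ, p.Prime → p ∣ b → ∀ i, ¬ (p : ℤ) ∣ (f i).eval (d : ℤ)) →
      ∃ c' : ℝ, 0 < c' ∧ ∀ᶠ x : ℕ in atTop, ∀ G : Finset ℕ, (∀ n : ℕ, n ∈ Icc 1 x →
        (Nat.digits b n).reverse = Nat.digits b n → (Rough f r0 n ∧ Few f r0 n) → n ∈ G) →
      c' * (((Icc 1 x).filter (fun n => (Nat.digits b n).reverse = Nat.digits b n)).card : ℝ) /
        Real.log x ^ Fintype.card ι ≤ (G.card : ℝ) := by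
  obtain ⟨r0, hr0, h⟩ := lowerP f hf
  refine ⟨r0, hr0, fun b hb hd => ?_⟩
  obtain ⟨c, hc, h1⟩ := h b hb hd
  apply to_xk hb (fun n => Rough f r0 n ∧ Few f r0 n) hc
  filter_upwards [h1] with N ⟨S, hS, hSc⟩
  refine ⟨S, fun n hn => ?_, hSc⟩
  obtain ⟨g1, g2, g3, g4⟩ := hS n hn
  exact ⟨g1, g2, g3, g4 r0 le_rfl⟩

end Pool.Agent.Q26.PL
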