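import Pool.Agent.Q26.PL.G
import Pool.Agent.H476R2.Pal.Q1

/-!
# Decimal palindromes: a convex combination of Fejér kernels, and four prime factors in every residue class
-/

set_option autoImplicit false

namespace Pool.Agent.Q26.PL

open Finset Filter Topology Pool.Agent.Helper112 Pool.Agent.H39R3.PB Pool.Agent.W139.PW Pool.Agent.W139.PX

/-- the square of the absolute value of a geometric sum -/
noncomputable def DD (s : ℕ) (x : ℝ) : ℝ := ‖∑ m ∈ range s, ee (m * x)‖ ^ 2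

lemma ee_re (y : ℝ) : (ee y).re = Real.cos (2 * Real.pi * y) := by
  unfold ee
  rw [show (2 * Real.pi * (y : ℂ) * Complex.I) = (((2 * Real.pi * y : ℝ) : ℂ) * Complex.I) by push_cast; ring,
    Complex.exp_ofReal_mul_I_re]

lemma DD_succ (s : ℕ) (x : ℝ) : DD (s + 1) x = DD s x + 1 + 2 * ∑ n ∈ range s, Real.cos (2 * (n + 1 : ℕ) * (Real.pi * x)) := by
  unfold DD
  rw [sum_range_succ, Complex.sq_norm, Complex.normSq_add, ← Complex.sq_norm, ← Complex.sq_norm]
  have h1 : ‖ee ((s : ℝ) * x)‖ ^ 2 = 1 := by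
    have : ‖ee ((s : ℝ) * x)‖ = 1 := by
      unfold ee
      rw [show (2 * Real.pi * (((s : ℝ) * x : ℝ) : ℂ) * Complex.I) = (((2 * Real.pi * ((s : ℝ) * x) : ℝ) : ℂ) * Complex.I) by push_cast; ring]
      exact Complex.norm_exp_ofReal_mul_I _
    rw [this, one_pow]
  rw [h1]
  congr 2
  rw [sum_mul, Complex.re_sum, ← sum_range_reflect]
  apply sum_congr rfl
  intro n hn
  rw [mem_range] at hn
  have h2 : ee (((s - 1 - n : ℕ) : ℝ) * x) * (starRingEnd ℂ) (ee ((s : ℝ) * x)) = ee (-(((n : ℝ) + 1) * x)) := by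
    have h3 : (starRingEnd ℂ) (ee ((s : ℝ) * x)) = ee (-((s : ℝ) * x)) := by
      unfold ee
      rw [← Complex.exp_conj]
      congr 1
      simp only [map_mul, Complex.conj_I, Complex.conj_ofReal, map_ofNat]
      push_cast
      ring
    rw [h3, ← ls_ee_add]
    congr 1
    rw [Nat.cast_sub (by omega), Nat.cast_sub (by omega)]
    push_cast
    ring
  rw [h2, ee_re]
  rw [← Real.cos_neg]
  congr 1
  push_cast
  ring

/-- the coefficients -/
def gg : ℕ → ℕ := fun s => if s = 1 then 880 else if s = 2 then 764 else if s = 3 then 621 else if s = 4 then 576 else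
  if s = 5 then 250 else if s = 6 then 504 else if s = 7 then 490 else if s = 8 then 2432 else 3483

/-- the majorant of the starting files is a convex combination of Fejér kernels -/
lemma Gf_fejer (x : ℝ) : Mx (Icc 1 9) (fun s => (gg s : ℝ) / 10000) (fun s => s) x = Pool.Agent.H476R2.Pal.Gf x := by
  have hG := Pool.Agent.H476R2.Pal.Gf_eq x
  obtain ⟨y, hy⟩ : ∃ y, Real.pi * x = y := ⟨_, rfl⟩
  have hD0 : DD 0 x = 0 := by unfold DD; simp
  have hD1 := DD_succ 0 x
  have hD2 := DD_succ 1 x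
  have hD3 := DD_succ 2 x
  have hD4 := DD_succ 3 x
  have hD5 := DD_succ 4 x
  have hD6 := DD_succ 5 x
  have hD7 := DD_succ 6 x
  have hD8 := DD_succ 7 x
  have hD9 := DD_succ 8 x
  rw [hy] at hG hD1 hD2 hD3 hD4 hD5 hD6 hD7 hD8 hD9
  simp only [sum_range_succ, sum_range_zero, zero_add] at hD1 hD2 hD3 hD4 hD5 hD6 hD7 hD8 hD9
  have k1 : 2 * ((1 : ℕ) : ℝ) * y = 2 * y := by norm_num
  have k2 : 2 * ((1 + 1 : ℕ) : ℝ) * y = 4 * y := by norm_num
  have k3 : 2 * ((2 + 1 : ℕ) : ℝ) * y = 6 * y := by norm_num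
  have k4 : 2 * ((3 + 1 : ℕ) : ℝ) * y = 8 * y := by norm_num
  have k5 : 2 * ((4 + 1 : ℕ) : ℝ) * y = 10 * y := by norm_num
  have k6 : 2 * ((5 + 1 : ℕ) : ℝ) * y = 12 * y := by norm_num
  have k7 : 2 * ((6 + 1 : ℕ) : ℝ) * y = 14 * y := by norm_num
  have k8 : 2 * ((7 + 1 : ℕ) : ℝ) * y = 16 * y := by norm_num
  rw [k1] at hD2 hD3 hD4 hD5 hD6 hD7 hD8 hD9
  rw [k2] at hD3 hD4 hD5 hD6 hD7 hD8 hD9
  rw [k3] at hD4 hD5 hD6 hD7 hD8 hD9
  rw [k4] at hD5 hD6 hD7 hD8 hD9
  rw [k5] at hD6 hD7 hD8 hD9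
  rw [k6] at hD7 hD8 hD9
  rw [k7] at hD8 hD9
  rw [k8] at hD9
  have hM : Mx (Icc 1 9) (fun s => (gg s : ℝ) / 10000) (fun s => s) x =
      (880 * DD 1 x + 191 * DD 2 x + 69 * DD 3 x + 36 * DD 4 x + 10 * DD 5 x + 14 * DD 6 x + 10 * DD 7 x + 38 * DD 8 x +
        43 * DD 9 x) / 10000 := by
    unfold Mx
    have hI : (Icc 1 9 : Finset ℕ) = {1, 2, 3, 4, 5, 6, 7, 8, 9} := by decide
    rw [hI]
    have hp : ∀ s : ℕ, ph s x ^ 2 = DD s x / (s : ℝ) ^ 2 := by
      intro s
      unfold ph DD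
      rw [div_pow]
    simp only [hp]
    rw [sum_insert (by decide), sum_insert (by decide), sum_insert (by decide), sum_insert (by decide), sum_insert (by decide),
      sum_insert (by decide), sum_insert (by decide), sum_insert (by decide), sum_singleton]
    unfold gg
    norm_num
    ring
  rw [hM]
  linarith

theorem majOK_ten : MajOK 10 10 1 (2508 / 10000) := by
  refine ⟨Icc 1 9, fun s => (gg s : ℝ) / 10000, fun s => s, ⟨?_, ?_, ?_, ?_, ?_⟩, ?_⟩
  · intro i _
    positivity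
  · intro i hi
    exact (mem_Icc.1 hi).1
  · intro i hi
    have h9 := (mem_Icc.1 hi).2
    show i ≤ 10
    omega
  · have hI : (Icc 1 9 : Finset ℕ) = {1, 2, 3, 4, 5, 6, 7, 8, 9} := by decide
    rw [hI]
    rw [sum_insert (by decide), sum_insert (by decide), sum_insert (by decide), sum_insert (by decide), sum_insert (by decide),
      sum_insert (by decide), sum_insert (by decide), sum_insert (by decide), sum_singleton]
    unfold gg
    norm_num
  · have hI : (Icc 1 9 : Finset ℕ) = {1, 2, 3, 4, 5, 6, 7, 8, 9} := by decide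
    rw [hI]
    rw [sum_insert (by decide), sum_insert (by decide), sum_insert (by decide), sum_insert (by decide), sum_insert (by decide),
      sum_insert (by decide), sum_insert (by decide), sum_insert (by decide), sum_singleton]
    unfold gg
    norm_num
  · intro β
    rw [Gf_fejer]
    have h1 : ph 10 β = Pool.Agent.H476R2.Pal.ph β := by
      unfold ph Pool.Agent.H476R2.Pal.ph
      norm_num
    have h2 : ph 1 β = 1 := by
      unfold ph
      simp [ls_ee_zero]
    rw [h1, h2, mul_one]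
    exact Pool.Agent.H476R2.Pal.ph_le_Gf β

/-- decimal palindromes with at most four prime factors in every reduced residue class, right order of magnitude -/
theorem four10 {M a : ℕ} (hM : 0 < M) (ha : a.Coprime M) :
    ∃ c : ℝ, 0 < c ∧ ∀ᶠ N : ℕ in atTop, c * ((10 : ℕ) : ℝ) ^ N / N ≤ (((range (10 ^ (2 * N + 1))).filter (fun n =>
      10 ^ (2 * N) ≤ n ∧
      (Nat.digits 10 n).reverse = Nat.digits 10 n ∧ n ≡ a [MOD M] ∧ n.primeFactorsList.length ≤ 4 ∧
      ∀ p ∈ n.primeFactorsList, ((10 : ℕ) : ℝ) ^ ((1 / 13 : ℝ) * N) < p)).card : ℝ) := by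
  have hMaj : MajP 10 10 1 (2508 / 10000) 1 := majP_of_majOK (by norm_num) (by norm_num) (by norm_num) majOK_ten
  have hκ : (10 : ℝ) ^ (6 / 10 : ℝ) * (2508 / 10000) < 1 := by
    have h1 : (10 : ℝ) ^ (6 / 10 : ℝ) ≤ 39811 / 10000 := by
      rw [show (6 / 10 : ℝ) = 3 * (1 / 5 : ℝ) by norm_num, Real.rpow_mul (by norm_num)]
      have h2 : ((10 : ℝ) ^ (3 : ℝ)) = (1000 : ℝ) := by norm_num
      rw [h2]
      calc (1000 : ℝ) ^ (1 / 5 : ℝ) ≤ ((39811 / 10000 : ℝ) ^ (5 : ℕ)) ^ (1 / 5 : ℝ) := by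
            apply Real.rpow_le_rpow (by norm_num) _ (by norm_num)
            norm_num
        _ = 39811 / 10000 := by
            rw [← Real.rpow_natCast, ← Real.rpow_mul (by norm_num)]
            norm_num
    nlinarith
  have hκ' : ((10 : ℕ) : ℝ) ^ (6 / 10 : ℝ) * (2508 / 10000) < 1 := by exact_mod_cast hκ
  exact unifAP (b := 10) (r := 4) (by norm_num) (H := 2508 / 10000) (CM := 1) (κ := 6 / 10) (κ' := 59 / 100) (lam := 84 / 100)
    (η := 1 / 13) hMaj (by norm_num) (by norm_num) one_pos (m4_unif (by norm_num)) (by norm_num) (by norm_num) hκ' (by norm_num)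
    (by norm_num) (by norm_num) (by norm_num) (by norm_num) hM ha (Or.inl (by norm_num))

theorem four10x {M a : ℕ} (hM : 0 < M) (ha : a.Coprime M) :
    ∃ c' : ℝ, 0 < c' ∧ ∀ᶠ x : ℕ in atTop, ∀ G : Finset ℕ, (∀ n : ℕ, n ∈ Icc 1 x →
        (Nat.digits 10 n).reverse = Nat.digits 10 n → n ≡ a [MOD M] →
        n.primeFactorsList.length ≤ 4 →
        (∀ p ∈ n.primeFactorsList, (x : ℝ) ^ (1 / 30 : ℝ) < p) → n ∈ G) →
      c' * (((Icc 1 x).filter (fun n => (Nat.digits 10 n).reverse = Nat.digits 10 n)).card : ℝ) / Real.log x ≤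
      (G.card : ℝ) := by
  classical
  obtain ⟨c, hc0, hc⟩ := four10 hM ha
  exact to_xQ (b := 10) (r := 4) (by norm_num) (fun n => n ≡ a [MOD M]) hc0 (fun N => (range (10 ^ (2 * N + 1))).filter (fun n =>
      10 ^ (2 * N) ≤ n ∧
      (Nat.digits 10 n).reverse = Nat.digits 10 n ∧ n ≡ a [MOD M] ∧ n.primeFactorsList.length ≤ 4 ∧
      ∀ p ∈ n.primeFactorsList, ((10 : ℕ) : ℝ) ^ ((1 / 13 : ℝ) * N) < p)) (fun N n hn => by
    rw [mem_filter, mem_range] at hn
    exact hn) hc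

end Pool.Agent.Q26.PL
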