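import Pool.Agent.Q26.PL.M
import Pool.Agent.Q26.PL.L

/-!
# Decimal palindromes with few prime factors and prescribed leading digits
-/

set_option autoImplicit false

namespace Pool.Agent.Q26.PL

open Finset Filter Topology Pool.Agent.Helper112 Pool.Agent.W89.PW Pool.Agent.W261.PWBV Pool.Agent.W139.PX
open Pool.Agent.Y816.PS (cnth cnth_bound pal pal_eq pal_reverse sum_lt sum_dig)
open Pool.Agent.W89.Sv (rem)

/-- almost prime palindromes, for an affine image of the free part, members of any size -/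
theorem presc {b s t r : ℕ} (hb : 2 ≤ b) {κ lam σ : ℝ} (hκ0 : 0 < κ) (hκ1 : κ < 1)
    (hBV : BVH b s t κ) (hSq : SqH b s t κ) (hl0 : 0 < lam) (hl1 : lam ≤ 1)
    (hlam : lam * (1174 / 1000) < 994 / 1000) (hσ : 0 < σ) (hr : 1 / lam + 44 * σ / (43 * κ) < r + 1) :
    ∃ c : ℝ, 0 < c ∧ ∃ L0 : ℕ, ∀ L : ℕ, L0 ≤ L → ∀ C w : ℕ,
      (∀ m : Fin L → Fin s × Fin t, 0 < C + b ^ w * sgs b s t L m ∧
        Real.log ((C + b ^ w * sgs b s t L m : ℕ) : ℝ) ≤ σ * L * Real.log b ∧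
        (C + b ^ w * sgs b s t L m).Coprime (2 * b)) →
      ∃ G : Finset (Fin L → Fin s × Fin t), c * ((s : ℝ) * t) ^ L / L ≤ G.card ∧ ∀ m ∈ G,
        (C + b ^ w * sgs b s t L m).primeFactorsList.length ≤ r ∧
        ∀ p ∈ (C + b ^ w * sgs b s t L m).primeFactorsList, (b : ℝ) ^ (κ / 6 * L) < p := by
  classical
  obtain ⟨c, hc0, L1, hmain⟩ := almostW (b := b) (m := 2 * b) (r := r) hb (by positivity)
    (Dvd.intro _ rfl) hκ0 hκ1 hl0 hl1 hlam hr hσ
  obtain ⟨L2, hL2⟩ := eventually_atTop.1 ((hBV 3).and (hSq (κ / 6) (by positivity) 3))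
  refine ⟨c, hc0, max L1 L2, fun L hL C w hV => ?_⟩
  obtain ⟨f1, f2⟩ := hL2 L ((le_max_right _ _).trans hL)
  set V : (Fin L → Fin s × Fin t) → ℕ := fun m => C + b ^ w * sgs b s t L m with hVd
  set X0 : ℝ := ((s : ℝ) * t) ^ L with hX0
  obtain ⟨hh, hhd⟩ : ∃ hh : ℕ → ℕ, ∀ Q : ℕ, Q.Coprime (2 * b) → 0 < Q →
      ∀ m, Q ∣ V m ↔ pv b s t L m ≡ hh Q [MOD Q] := by
    have h0 : ∀ Q : ℕ, Q.Coprime (2 * b) → 0 < Q → ∃ r : ℕ, ∀ m, Q ∣ V m ↔ pv b s t L m ≡ r [MOD Q] := by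
      intro Q hQ hQ0
      obtain ⟨r', hr'⟩ := aff_cls (s := s) (t := t) (L := L) C w 0 hQ hQ0
      refine ⟨r', fun m => ?_⟩
      rw [← hr' m, Nat.modEq_zero_iff_dvd]
    refine ⟨fun Q => if h : Q.Coprime (2 * b) ∧ 0 < Q then (h0 Q h.1 h.2).choose else 0, fun Q h1 h2 => ?_⟩
    simp only
    rw [dif_pos ⟨h1, h2⟩]
    exact (h0 Q h1 h2).choose_spec
  obtain ⟨gg, hgg⟩ : ∃ gg : ℕ → ℕ, ∀ p : ℕ, p.Coprime (2 * b) → 0 < p →
      ∀ m, p ^ 2 ∣ V m ↔ pv b s t L m ≡ gg p [MOD p ^ 2] :=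
    ⟨fun p => hh (p ^ 2), fun p hp hp0 m => hhd (p ^ 2) (hp.pow_left 2) (by positivity) m⟩
  obtain ⟨G, -, hGc, hG⟩ := hmain L ((le_max_left _ _).trans hL)
    (Fin L → Fin s × Fin t) univ V X0 (by positivity) (fun m _ => hV m) (by
      refine le_trans (le_of_eq ?_) (f1 hh)
      apply sum_congr rfl
      intro q hq
      rw [mem_filter, mem_Icc] at hq
      congr 2
      unfold rem cnth
      congr 2
      apply congrArg
      apply filter_congr
      intro m _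
      exact hhd q hq.2 hq.1.1 m) (by
      refine ⟨(univ : Finset (Fin L → Fin s × Fin t)).filter (fun m => ∃ p : ℕ, p.Coprime (2 * b) ∧
        (b : ℝ) ^ (κ / 6 * L) ≤ p ∧ (p : ℝ) ≤ (b : ℝ) ^ (κ * L) ∧ pv b s t L m ≡ gg p [MOD p ^ 2]), ?_, ?_⟩
      · rintro m _ ⟨p, hp1, hp2, hp3, hp4⟩
        rw [mem_filter]
        have hb0 : (0 : ℝ) < b := by exact_mod_cast (by omega : 0 < b)
        have hp0 : 0 < p := by
          rcases Nat.eq_zero_or_pos p with h | h
          · subst h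
            have : (0 : ℝ) < (b : ℝ) ^ (κ / 6 * L) := by positivity
            rw [Nat.cast_zero] at hp2
            linarith
          · exact h
        exact ⟨mem_univ _, p, hp1, hp2, hp3, (hgg p hp1 hp0 m).1 hp4⟩
      · refine le_trans (le_of_eq ?_) (f2 gg)
        congr!)
  exact ⟨G, hGc, hG⟩

lemma dig_sum {b : ℕ} (f : ℕ → ℕ) (hf : ∀ i, f i < b) {e j : ℕ} (hj : j < e) :
    (∑ i ∈ range e, f i * b ^ i) / b ^ j % b = f j := by
  have hb : 0 < b := (Nat.zero_le _).trans_lt (hf 0)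
  rw [show e = j + ((e - j - 1) + 1) by omega, sum_range_add]
  have h1 : ∑ x ∈ range (e - j - 1 + 1), f (j + x) * b ^ (j + x) =
      b ^ j * (f j + b * ∑ x ∈ range (e - j - 1), f (j + (x + 1)) * b ^ x) := by
    rw [sum_range_succ', mul_add, mul_sum, mul_sum, add_comm]
    congr 1
    · rw [add_zero]; ring
    · apply sum_congr rfl
      intro x _
      ring
  have h2 : ∑ x ∈ range j, f x * b ^ x < b ^ j := sum_lt hf j
  rw [h1, Nat.add_mul_div_left _ _ (by positivity), Nat.div_eq_of_lt h2, zero_add, Nat.add_mul_mod_self_left,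
    Nat.mod_eq_of_lt (hf j)]

/-- the last digits which belong to the leading digits `d` -/
def revA (b e d : ℕ) : ℕ := ∑ i ∈ range e, (d / b ^ (e - 1 - i) % b) * b ^ i

lemma revA_dig {b e d i : ℕ} (hb : 2 ≤ b) (hi : i < e) : revA b e d / b ^ i % b = d / b ^ (e - 1 - i) % b :=
  dig_sum (fun i => d / b ^ (e - 1 - i) % b) (fun _ => Nat.mod_lt _ (by omega)) hi

lemma revA_lt {b e d : ℕ} (hb : 2 ≤ b) : revA b e d < b ^ e :=
  sum_lt (fun _ => Nat.mod_lt _ (by omega)) e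

lemma revA_cop {b e d : ℕ} (hb : 2 ≤ b) (he : 1 ≤ e) (hd : d < b ^ e) (hc : (d / b ^ (e - 1)).Coprime b) :
    (revA b e d).Coprime b := by
  have h1 := revA_dig (d := d) hb (show 0 < e by omega)
  rw [pow_zero, Nat.div_one, Nat.sub_zero] at h1
  have h2 : d / b ^ (e - 1) < b := by
    rw [Nat.div_lt_iff_lt_mul (by positivity), ← pow_succ']
    rwa [show e - 1 + 1 = e by omega]
  rw [Nat.mod_eq_of_lt h2] at h1
  have h3 : Nat.gcd (revA b e d) b = Nat.gcd (revA b e d % b) b := (Nat.mod_modEq _ _).symm.gcd_eq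
  change Nat.gcd _ _ = 1
  rw [h3, h1]
  exact hc

/-- the leading digits -/
lemma PA_lead {b s t N L e d : ℕ} (hb : 2 ≤ b) (hst : s + t = b + 1) (hN : N = L + e) (hd : d < b ^ e)
    (m : Fin L → Fin s × Fin t) :
    d * b ^ (2 * N + 1 - e) ≤ PA b s t N L (revA b e d) m ∧
      PA b s t N L (revA b e d) m < (d + 1) * b ^ (2 * N + 1 - e) := by
  have h1 : PA b s t N L (revA b e d) m = (∑ i ∈ range (2 * N + 1 - e),
      aw b s t N L (revA b e d) m (N - i + (i - N)) * b ^ i) + d * b ^ (2 * N + 1 - e) := by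
    unfold PA pal
    conv_lhs => rw [show 2 * N + 1 = (2 * N + 1 - e) + e by omega, sum_range_add]
    congr 1
    have h2 : ∀ x ∈ range e, aw b s t N L (revA b e d) m (N - (2 * N + 1 - e + x) + (2 * N + 1 - e + x - N)) *
        b ^ (2 * N + 1 - e + x) = b ^ (2 * N + 1 - e) * ((d / b ^ x % b) * b ^ x) := by
      intro x hx
      rw [mem_range] at hx
      rw [aw_out m (by omega), pow_add]
      have h3 : N - (N - (2 * N + 1 - e + x) + (2 * N + 1 - e + x - N)) = e - 1 - x := by omega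
      rw [h3, revA_dig hb (by omega), show e - 1 - (e - 1 - x) = x by omega]
      ring
    rw [sum_congr rfl h2, ← mul_sum, sum_dig, Nat.mod_eq_of_lt hd, mul_comm]
  have h2 := sum_lt (fun i => aw_lt hb hst N L (revA b e d) m (N - i + (i - N))) (2 * N + 1 - e)
  rw [h1]
  constructor
  · omega
  · rw [add_mul, one_mul]
    omega

open Classical in
/-- decimal palindromes with few prime factors and prescribed leading digits -/
theorem lead10 {θ : ℝ} (hθ0 : 0 < θ) (hθ1 : θ < 1) {r : ℕ} (hr : 19 / 100 + 342 / (100 * (1 - θ)) ≤ (r : ℝ)) :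
    ∃ c : ℝ, 0 < c ∧ ∀ᶠ N : ℕ in atTop, ∀ e : ℕ, 1 ≤ e → (e : ℝ) ≤ θ * N → ∀ d : ℕ, d < 10 ^ e →
      (d / 10 ^ (e - 1)).Coprime 10 →
      c * (10 : ℝ) ^ (N - e) / N ≤ (((Ico (d * 10 ^ (2 * N + 1 - e)) ((d + 1) * 10 ^ (2 * N + 1 - e))).filter (fun n =>
        (Nat.digits 10 n).reverse = Nat.digits 10 n ∧ n.primeFactorsList.length ≤ r ∧
        ∀ p ∈ n.primeFactorsList, (10 : ℝ) ^ ((1 - θ) / 10 * N) < p)).card : ℝ) := by
  have hMaj : MajP 10 10 1 (2508 / 10000) 1 := majP_of_majOK (by norm_num) (by norm_num) (by norm_num) majOK_ten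
  have hκ : (10 : ℝ) ^ (6 / 10 : ℝ) * (2508 / 10000) < 1 := by
    have h1 : (10 : ℝ) ^ (6 / 10 : ℝ) ≤ 39811 / 10000 := by
      rw [show (6 / 10 : ℝ) = 3 * (1 / 5 : ℝ) by norm_num, Real.rpow_mul (by norm_num)]
      have h2 : ((10 : ℝ) ^ (3 : ℝ)) = (1000 : ℝ) := by norm_num
      rw [h2]
      calc (1000 : ℝ) ^ (1 / 5 : ℝ) ≤ ((39811 / 10000 : ℝ) ^ (5 : ℕ)) ^ (1 / 5 : ℝ) := by
            apply Real.rpow_le_rpow (by norm_num) _ (by norm_num)
            norm_num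
        _ = 39811 / 10000 := by
            rw [← Real.rpow_natCast, ← Real.rpow_mul (by norm_num)]
            norm_num
    nlinarith
  have hκ' : ((10 : ℕ) : ℝ) ^ (6 / 10 : ℝ) * (2508 / 10000) < 1 := by exact_mod_cast hκ
  have hPt : PtW 10 10 1 := Pool.Agent.W571.PW.Pt.main 10 10 1 (by norm_num) (by norm_num) le_rfl rfl
  have hm4 : ((10 : ℕ) : ℝ) * m4 10 1 < 1 := m4_unif (by norm_num)
  have hBig : BigW 10 10 1 (6 / 10) := bigW_of_majP (by norm_num) (by norm_num) le_rfl rfl hm4 hMaj (by norm_num)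
    (by norm_num) one_pos (by norm_num) hκ'
  have hBV : BVH 10 10 1 (6 / 10) := bvH (by norm_num) (by norm_num) le_rfl hPt (by norm_num) (by norm_num) hBig
  have hSq : SqH 10 10 1 (6 / 10) := sqH_of_majP hMaj (by norm_num) (by norm_num) one_pos (by norm_num) (by norm_num)
    le_rfl rfl hm4 (by norm_num) hκ'
  have hθ' : 0 < 1 - θ := by linarith
  obtain ⟨σ, hσ⟩ : ∃ σ : ℝ, σ = (2004 / 1000) / (1 - θ) := ⟨_, rfl⟩
  have hσ0 : 0 < σ := by rw [hσ]; positivity
  obtain ⟨c, hc0, L0, hmain⟩ := presc (b := 10) (s := 10) (t := 1) (r := r) (κ := 6 / 10) (lam := 8466 / 10000) (σ := σ)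
    (by norm_num) (by norm_num) (by norm_num) hBV hSq (by norm_num) (by norm_num) (by norm_num) hσ0 (by
      have h1 : 44 * σ / (43 * (6 / 10)) ≤ 342 / (100 * (1 - θ)) := by
        rw [hσ]
        rw [div_le_div_iff₀ (by norm_num) (by positivity)]
        have h2 : 44 * (2004 / 1000 / (1 - θ)) * (100 * (1 - θ)) = 44 * (2004 / 10) := by
          field_simp
          ring
        rw [h2]
        norm_num
      have h2 : (1 : ℝ) / (8466 / 10000) < 119 / 100 := by norm_num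
      linarith)
  refine ⟨c, hc0, ?_⟩
  have e1 : ∀ᶠ N : ℕ in atTop, (L0 : ℝ) + 1 ≤ (1 - θ) * (N : ℝ) :=
    ((tendsto_natCast_atTop_atTop (R := ℝ)).const_mul_atTop hθ').eventually_ge_atTop _
  have e2 : ∀ᶠ N : ℕ in atTop, 1 ≤ (4 / 1000 : ℝ) * (N : ℝ) :=
    ((tendsto_natCast_atTop_atTop (R := ℝ)).const_mul_atTop (by norm_num)).eventually_ge_atTop _
  filter_upwards [e1, e2] with N hN1 hN2 e he heN d hd hdc
  have hNR : (0 : ℝ) < N := by linarith
  have heN' : e ≤ N := by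
    have : (e : ℝ) ≤ N := by nlinarith
    exact_mod_cast this
  obtain ⟨L, hNL⟩ : ∃ L, N = L + e := ⟨N - e, by omega⟩
  have hNLR : (N : ℝ) = L + e := by exact_mod_cast hNL
  have hLθ : (1 - θ) * (N : ℝ) ≤ L := by nlinarith
  have hLL0 : L0 ≤ L := by
    have : (L0 : ℝ) ≤ L := by linarith
    exact_mod_cast this
  have hL1 : 1 ≤ L := by
    have : (1 : ℝ) ≤ L := by linarith [(Nat.cast_nonneg L0 : (0 : ℝ) ≤ L0)]
    exact_mod_cast this
  have hLR : (0 : ℝ) < L := by exact_mod_cast hL1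
  have hN1' : L + 1 ≤ N := by omega
  have hAc : (revA 10 e d).Coprime 10 := revA_cop (by norm_num) he hd hdc
  have hAlt : revA 10 e d < 10 ^ e := revA_lt (by norm_num)
  have hPAe : ∀ m : Fin L → Fin 10 × Fin 1, CA 10 N L (revA 10 e d) + 10 ^ (N - L - 1) * sgs 10 10 1 L m =
    PA 10 10 1 N L (revA 10 e d) m := fun m => (PA_eq _ hN1' m).symm
  obtain ⟨G, hG1, hG2⟩ := hmain L hLL0 (CA 10 N L (revA 10 e d)) (N - L - 1) (by
    intro m
    rw [hPAe]
    have hge := PA_ge (by norm_num) he hNL hAc m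
    have hlt := PA_lt (by norm_num) rfl N L (revA 10 e d) m
    refine ⟨lt_of_lt_of_le (by positivity) hge, ?_, PA_cop (by norm_num) he hNL hAlt hAc m⟩
    have hpos : (0 : ℝ) < ((PA 10 10 1 N L (revA 10 e d) m : ℕ) : ℝ) := by
      exact_mod_cast lt_of_lt_of_le (by positivity) hge
    have h1 : Real.log ((PA 10 10 1 N L (revA 10 e d) m : ℕ) : ℝ) ≤ Real.log (((10 : ℕ) : ℝ) ^ (2 * N + 1)) :=
      Real.log_le_log hpos (by exact_mod_cast hlt.le)
    refine h1.trans ?_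
    rw [Real.log_pow]
    apply mul_le_mul_of_nonneg_right _ (Real.log_nonneg (by norm_num))
    push_cast
    have h2 : σ * ((1 - θ) * N) ≤ σ * L := mul_le_mul_of_nonneg_left hLθ hσ0.le
    have h3 : σ * ((1 - θ) * N) = 2004 / 1000 * N := by
      rw [hσ]; field_simp
    linarith)
  have hcard : (G.image (PA 10 10 1 N L (revA 10 e d))).card = G.card :=
    card_image_of_injective _ (PA_inj (by norm_num) hN1')
  have hsub : G.image (PA 10 10 1 N L (revA 10 e d)) ⊆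
      (Ico (d * 10 ^ (2 * N + 1 - e)) ((d + 1) * 10 ^ (2 * N + 1 - e))).filter (fun n =>
        (Nat.digits 10 n).reverse = Nat.digits 10 n ∧ n.primeFactorsList.length ≤ r ∧
        ∀ p ∈ n.primeFactorsList, (10 : ℝ) ^ ((1 - θ) / 10 * N) < p) := by
    intro n hn
    rw [mem_image] at hn
    obtain ⟨m, hm, rfl⟩ := hn
    have h9 := hG2 m hm
    rw [hPAe] at h9
    obtain ⟨g2, g3⟩ := h9
    rw [mem_filter, mem_Ico]
    refine ⟨PA_lead (by norm_num) rfl hNL hd m, PA_pal (by norm_num) rfl he hNL hAc m, g2,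
      fun p hp => lt_of_le_of_lt ?_ (g3 p hp)⟩
    push_cast
    apply Real.rpow_le_rpow_of_exponent_le (by norm_num)
    linarith
  have h8 : (G.card : ℝ) ≤ (((Ico (d * 10 ^ (2 * N + 1 - e)) ((d + 1) * 10 ^ (2 * N + 1 - e))).filter (fun n =>
        (Nat.digits 10 n).reverse = Nat.digits 10 n ∧ n.primeFactorsList.length ≤ r ∧
        ∀ p ∈ n.primeFactorsList, (10 : ℝ) ^ ((1 - θ) / 10 * N) < p)).card : ℝ) := by
    rw [← hcard]
    exact_mod_cast card_le_card hsub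
  refine le_trans ?_ (hG1.trans h8)
  rw [show N - e = L by omega]
  push_cast
  rw [mul_one]
  apply div_le_div_of_nonneg_left (by positivity) hLR
  exact_mod_cast (by omega : L ≤ N)

end Pool.Agent.Q26.PL
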